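import Pool.Agent.Helper45M.CR.Cmp

/-!
The degrees of correspondences as intersection numbers.
-/

set_option autoImplicit false
set_option linter.overlappingInstances false
set_option linter.unusedSectionVars false

open FF Module MvPolynomial Pool.Agent.W602.GT Pool.Agent.W603.LV
open Pool.Agent.Y172 Pool.Agent.Y191 Pool.Agent.R887 Pool.Agent.W619.PQ Pool.Agent.N110
open Pool.Agent.Helper45M.TR
open scoped ENNReal

namespace Pool.Agent.Helper45M.CR

section

variable {K L M : Type} [Field K] [Algebra ℂ K] [Field L] [Algebra ℂ L] [Field M] [Algebra ℂ M]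
  {N n : ℕ} {y : Fin (N + 1) → K} {i : Fin (N + 1)}

/-- pencils are replaced by elements of the span -/
theorem replace_gen (hy : NormalModel y) (hn : Algebra.trdeg ℂ K = n)
    (hi : y i ≠ 0) {S : Set M} (hS : Amb n S) (ψ : K →ₐ[ℂ] M) (Q : Multiset K) :
    ∀ W : Multiset M, Q.card + W.card = n →
      (∀ u ∈ Q, IsPencil y u) → ∃ Q', Sel Q' (Multiset.replicate Q.card
        (fCls hy hn hi hS ψ (hcls hy hi))) ∧ dm ℂ (Q.map ψ + W) ≤ dm ℂ (Q' + W) := by
  classical
  obtain ⟨μ, hμ⟩ := exists_isMin (k := ℂ) (fin_affS (y := y) i) ⟨1, one_affS hi, one_ne_zero⟩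
  have hbnd : ∀ f ∈ Submodule.span ℂ (affS y i), Bnd ℂ (ψ '' affS y i) 1 (ψ f) := by
    intro f hf
    refine bnd_gen hS.ctx.ess hn hS.ctx.hn ψ (bnd_of_ge hμ (one_affS hi) (B := 1) (f := f)
      fun P => ?_)
    rw [Nat.cast_one, one_mul]
    exact ge_span hμ hf P
  induction Q using Multiset.induction_on with
  | empty =>
    intro W _ _
    exact ⟨0, Multiset.Rel.zero, by simp⟩
  | cons u Q ih =>
    intro W hW hu
    rw [Multiset.card_cons] at hW
    obtain ⟨f₀, hf₀, f₁, hf₁, h0, hu1⟩ := pencil_ratio hi (hu u (Multiset.mem_cons_self _ _))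
    obtain ⟨v, hv, hle⟩ := repl hS.ctx.hn (S := ψ '' affS y i) ((fin_affS i).image _)
      ⟨1, one_affS hi, map_one ψ⟩ (B := 1) (f₀ := ψ f₀) (f₁ := ψ f₁) (by rwa [Ne, map_eq_zero])
      (hbnd f₀ hf₀) (hbnd f₁ hf₁) (W := Q.map ψ + W)
      (by rw [Multiset.card_add, Multiset.card_map]; omega)
    rw [← map_div₀, ← hu1, one_mul] at hle
    obtain ⟨Q', hQ', hle'⟩ := ih (v ::ₘ W) (by
      rw [Multiset.card_cons]
      omega) fun u hu' => hu u (Multiset.mem_cons_of_mem hu')
    have hvV : v ∈ (fCls hy hn hi hS ψ (hcls hy hi)).V := by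
      have h1 : Submodule.span ℂ (ψ '' affS y i) ≤ (fCls hy hn hi hS ψ (hcls hy hi)).V := by
        rw [Submodule.span_le]
        rintro _ ⟨s, hs, rfl⟩
        exact fCls_mem (A := hcls hy hi) (Submodule.subset_span hs)
      exact h1 hv
    refine ⟨v ::ₘ Q', ?_, ?_⟩
    · rw [Multiset.card_cons, Multiset.replicate_succ]
      exact sel_cons hvV hQ'
    · rw [Multiset.map_cons, Multiset.cons_add, Multiset.cons_add]
      rw [Multiset.add_cons, Multiset.add_cons] at hle'
      exact hle.trans hle'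

/-- the degree as an intersection number -/
theorem corDegree_eq (hy : NormalModel y) (hn : Algebra.trdeg ℂ K = n)
    (hi : y i ≠ 0) {S : Set L} (hS : Amb n S) (p f : K →ₐ[ℂ] L) {k : ℕ} (hk : k ≤ n) :
    corDegree p f y n k = (I (Multiset.replicate k (fCls hy hn hi hS f (hcls hy hi)) +
      Multiset.replicate (n - k) (fCls hy hn hi hS p (hcls hy hi))) : ℝ≥0∞) / mapDegree p := by
  have hcard : (Multiset.replicate k (fCls hy hn hi hS f (hcls hy hi)) +
      Multiset.replicate (n - k) (fCls hy hn hi hS p (hcls hy hi))).card = n := by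
    rw [Multiset.card_add, Multiset.card_replicate, Multiset.card_replicate]
    omega
  have hset : ∀ {r : ℕ} (u : Fin r → K) (ψ : K →ₐ[ℂ] L),
      {x | x ∈ (toM u).map ψ} = Set.range fun a => ψ (u a) := by
    intro r u ψ
    ext x
    change x ∈ (toM u).map ψ ↔ _
    rw [Multiset.mem_map, Set.mem_range]
    constructor
    · rintro ⟨a, ha, rfl⟩
      obtain ⟨j, rfl⟩ := mem_toM.1 ha
      exact ⟨j, rfl⟩
    · rintro ⟨j, rfl⟩
      exact ⟨u j, mem_toM.2 ⟨j, rfl⟩, rfl⟩
  unfold corDegree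
  congr 1
  refine le_antisymm ?_ ?_
  · refine iSup_le fun u => iSup_le fun hu => iSup_le fun v => iSup_le fun hv => ?_
    rw [Nat.cast_le]
    have e1 : degreeOver (fun a => f (u a)) (fun b => p (v b)) =
        dm ℂ ((toM u).map f + (toM v).map p) := deg_dm (hset u f) (hset v p)
    rw [e1]
    obtain ⟨Q', hQ', h1⟩ := replace_gen hy hn hi hS f (toM u) ((toM v).map p)
      (by rw [Multiset.card_map, toM_card, toM_card]; omega) (fun z hz => by
        obtain ⟨j, rfl⟩ := mem_toM.1 hz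
        exact hu j)
    obtain ⟨Q'', hQ'', h2⟩ := replace_gen hy hn hi hS p (toM v) Q'
      (by rw [hQ'.card, Multiset.card_replicate, toM_card, toM_card]; omega)
      (fun z hz => by
        obtain ⟨j, rfl⟩ := mem_toM.1 hz
        exact hv j)
    rw [toM_card] at hQ' hQ''
    rw [add_comm ((toM v).map p) Q', add_comm Q'' Q'] at h2
    exact h1.trans (h2.trans (le_I hS.ctx hcard (sel_add hQ' hQ'')))
  · obtain ⟨W, hW, e⟩ := exists_max hS.ctx hcard
    obtain ⟨W1, W2, h1, h2, rfl⟩ := sel_add_right hW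
    rw [sel_rep] at h1 h2
    obtain ⟨w1, hw1⟩ := exists_fin W1 h1.1
    obtain ⟨w2, hw2⟩ := exists_fin W2 h2.1
    have hu : ∀ a, ∃ u ∈ Submodule.span ℂ (affS y i), f u = w1 a := by
      intro a
      have h3 : w1 a ∈ {x | x ∈ W1} := by
        rw [hw1]
        exact ⟨a, rfl⟩
      obtain ⟨u, hu, hu2⟩ := h1.2 _ h3
      exact ⟨u, hu, hu2⟩
    choose u hu hu2 using hu
    have hv : ∀ b, ∃ v ∈ Submodule.span ℂ (affS y i), p v = w2 b := by
      intro b
      have h3 : w2 b ∈ {x | x ∈ W2} := by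
        rw [hw2]
        exact ⟨b, rfl⟩
      obtain ⟨u, hu, hu2⟩ := h2.2 _ h3
      exact ⟨u, hu, hu2⟩
    choose v hv hv2 using hv
    have e1 : degreeOver (fun a => f (u a)) (fun b => p (v b)) = dm ℂ (W1 + W2) := by
      refine deg_dm ?_ ?_
      · rw [hw1]
        congr 1
        funext a
        exact (hu2 a).symm
      · rw [hw2]
        congr 1
        funext a
        exact (hv2 a).symm
    rw [← e, ← e1]
    refine le_iSup_of_le u (le_iSup_of_le (fun a => pencil_span hi (hu a))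
      (le_iSup_of_le v (le_iSup_of_le (fun b => pencil_span hi (hv b)) le_rfl)))

/-- the projection formula for pairs -/
theorem I_pair (hy : NormalModel y) (hn : Algebra.trdeg ℂ K = n) (hi : y i ≠ 0)
    {S : Set L} (hS : Amb n S) {S' : Set M} (hS' : Amb n S') (p f : K →ₐ[ℂ] L) (σ : L →ₐ[ℂ] M)
    {s₀ s₁ : Multiset (Cls ℂ (affS y i))} (hs : s₁.card + s₀.card = n) :
    I (s₁.map (fCls hy hn hi hS' (σ.comp f)) + s₀.map (fCls hy hn hi hS' (σ.comp p))) =
      mapDegree σ * I (s₁.map (fCls hy hn hi hS f) + s₀.map (fCls hy hn hi hS p)) := by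
  have hc : (s₁.map (fCls hy hn hi hS f) + s₀.map (fCls hy hn hi hS p)).card = n := by
    rw [Multiset.card_add, Multiset.card_map, Multiset.card_map]
    exact hs
  have hc' : (s₁.map (fCls hy hn hi hS' (σ.comp f)) +
      s₀.map (fCls hy hn hi hS' (σ.comp p))).card = n := by
    rw [Multiset.card_add, Multiset.card_map, Multiset.card_map]
    exact hs
  have hmap : ∀ (ψ : K →ₐ[ℂ] L) (W : Multiset K), W.map (σ.comp ψ) = (W.map ψ).map σ := by
    intro ψ W
    rw [Multiset.map_map]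
    rfl
  refine le_antisymm ?_ ?_
  · obtain ⟨W, hW, e⟩ := exists_max hS'.ctx hc'
    obtain ⟨W1, W2, h1, h2, rfl⟩ := sel_add_right hW
    obtain ⟨W1', h1', rfl⟩ := sel_fCls' (σ.comp f) h1
    obtain ⟨W2', h2', rfl⟩ := sel_fCls' (σ.comp p) h2
    rw [← e, hmap, hmap, ← Multiset.map_add, dm_gen]
    exact Nat.mul_le_mul_left _ (le_I hS.ctx hc (sel_add (sel_fCls f h1') (sel_fCls p h2')))
  · obtain ⟨W, hW, e⟩ := exists_max hS.ctx hc
    obtain ⟨W1, W2, h1, h2, rfl⟩ := sel_add_right hW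
    obtain ⟨W1', h1', rfl⟩ := sel_fCls' f h1
    obtain ⟨W2', h2', rfl⟩ := sel_fCls' p h2
    rw [← e, ← dm_gen, Multiset.map_add, ← hmap, ← hmap]
    exact le_I hS'.ctx hc' (sel_add (sel_fCls (σ.comp f) h1') (sel_fCls (σ.comp p) h2'))

theorem mapDegree_comp' (p : K →ₐ[ℂ] L) (σ : L →ₐ[ℂ] M) :
    mapDegree (σ.comp p) = mapDegree σ * mapDegree p := by
  have h1 : (σ.comp p).fieldRange = p.fieldRange.map σ := by
    ext z
    constructor
    · rintro ⟨x, rfl⟩
      exact ⟨p x, ⟨x, rfl⟩, rfl⟩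
    · rintro ⟨_, ⟨x, rfl⟩, rfl⟩
      exact ⟨x, rfl⟩
  have h2 : p.fieldRange.map σ ≤ σ.fieldRange := by
    rintro _ ⟨x, -, rfl⟩
    exact ⟨x, rfl⟩
  have h3 := IntermediateField.relfinrank_mul_finrank_top h2
  have h4 : σ.fieldRange = (⊤ : IntermediateField ℂ L).map σ := by
    rw [← AlgHom.fieldRange_eq_map]
  unfold mapDegree
  rw [h1, ← h3, h4, IntermediateField.relfinrank_map_map, IntermediateField.relfinrank_top_right,
    mul_comm]

/-- the degree does not change if the correspondence is replaced by a covering -/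
theorem corDegree_comp (hy : NormalModel y) (hn : Algebra.trdeg ℂ K = n) {p f : K →ₐ[ℂ] L}
    (hp : FiniteDimensional p.fieldRange L) {σ : L →ₐ[ℂ] M}
    (hσ : FiniteDimensional (σ.comp p).fieldRange M) {k : ℕ} (hk : k ≤ n) :
    corDegree (σ.comp p) (σ.comp f) y n k = corDegree p f y n k := by
  obtain ⟨i, hi⟩ := hy.ne
  have hS := amb_image hy hn hi hp
  have hS' := amb_image hy hn hi hσ
  rw [corDegree_eq hy hn hi hS p f hk, corDegree_eq hy hn hi hS' _ _ hk, mapDegree_comp']
  have h1 := I_pair hy hn hi hS hS' p f σ (s₀ := Multiset.replicate (n - k) (hcls hy hi))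
    (s₁ := Multiset.replicate k (hcls hy hi))
    (by rw [Multiset.card_replicate, Multiset.card_replicate]; omega)
  simp only [Multiset.map_replicate] at h1
  rw [h1]
  have hσ0 : 0 < mapDegree σ := by
    have h2 : FiniteDimensional σ.fieldRange M := fd_of hS'.ctx.ess hS.ctx.hn hS'.ctx.hn σ
    exact Module.finrank_pos
  push_cast
  exact ENNReal.mul_div_mul_left _ _ (by exact_mod_cast hσ0.ne') (ENNReal.natCast_ne_top _)

/-- the degree of a chain of length one -/
theorem corDegree_one (hy : NormalModel y) (hn : Algebra.trdeg ℂ K = n) {S : Set (Cor K)} {k : ℕ}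
    (hk : k ≤ n) {C : ℝ≥0∞} (hC : ∀ T ∈ S, corDegree T.p T.f y n k ≤ C) {g : ℕ → (K →ₐ[ℂ] M)}
    (hg : IsChain S 1 g) : corDegree (g 0) (g 1) y n k ≤ C := by
  obtain ⟨hfd, hg⟩ := hg
  obtain ⟨T, hT, σ, h1, h2⟩ := hg 0 zero_lt_one
  rw [zero_add] at h2
  have hfd' : FiniteDimensional (σ.comp T.p).fieldRange M := by
    rw [← h1]
    exact hfd
  rw [h1, h2, corDegree_comp hy hn T.fin hfd' hk]
  exact hC T hT

/-- the degree as a real number -/
theorem corDegree_le_real (hy : NormalModel y) (hn : Algebra.trdeg ℂ K = n)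
    (hi : y i ≠ 0) {S : Set L} (hS : Amb n S) (p f : K →ₐ[ℂ] L) {k : ℕ} (hk : k ≤ n) {B : ℝ}
    (hB : 0 ≤ B) : corDegree p f y n k ≤ ENNReal.ofReal B ↔
      (I (Multiset.replicate k (fCls hy hn hi hS f (hcls hy hi)) +
        Multiset.replicate (n - k) (fCls hy hn hi hS p (hcls hy hi))) : ℝ) / mapDegree p ≤ B := by
  have hp : 0 < mapDegree p := mapDegree_pos' hS hn p
  have hp' : (0 : ℝ) < mapDegree p := by exact_mod_cast hp
  rw [corDegree_eq hy hn hi hS p f hk, ENNReal.div_le_iff (by exact_mod_cast hp.ne')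
    (ENNReal.natCast_ne_top _), div_le_iff₀ hp', ← ENNReal.ofReal_natCast (mapDegree p),
    ← ENNReal.ofReal_mul hB, ← ENNReal.ofReal_natCast, ENNReal.ofReal_le_ofReal_iff (by positivity)]

end

end Pool.Agent.Helper45M.CR
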