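import Pool.Agent.Helper45M.CR.Net
import Pool.Agent.Helper45M.CR.Deg

/-!
The assembly for correspondences.
-/

set_option autoImplicit false
set_option linter.overlappingInstances false
set_option linter.unusedSectionVars false

open FF Module MvPolynomial Pool.Agent.W602.GT Pool.Agent.W603.LV
open Pool.Agent.Y172 Pool.Agent.Y191 Pool.Agent.R887 Pool.Agent.W619.PQ Pool.Agent.N110
open Pool.Agent.Helper45M.TR

namespace Pool.Agent.Helper45M.CR

section

variable {K : Type} [Field K] [Algebra ℂ K] {N n : ℕ} {y : Fin (N + 1) → K}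

/-- the intersection numbers on a space, divided by the degree of the map to `X` -/
noncomputable def tM {M : Type} [Field M] [Algebra ℂ M] (S : Set M) (d : ℕ)
    (s : Multiset (Cls ℂ S)) : ℝ := (I s : ℝ) / d

/-- the compositions of `l` correspondences in `S` -/
def CWrd (hy : NormalModel y) (hn : Algebra.trdeg ℂ K = n) {i : Fin (N + 1)} (hi : y i ≠ 0)
    (S : Set (Cor K)) (l : ℕ) : Set (Obj (Cls ℂ (affS y i))) :=
  {o | ∃ (M : Type) (_ : Field M) (_ : Algebra ℂ M) (SM : Set M) (hS : Amb n SM)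
    (g : ℕ → (K →ₐ[ℂ] M)), IsChain S l g ∧ o = ⟨Cls ℂ SM, tM SM (mapDegree (g 0)),
      fCls hy hn hi hS (g 0), fCls hy hn hi hS (g l)⟩}

/-- the comparison of the intersection numbers -/
theorem le_tM {M : Type} [Field M] [Algebra ℂ M] {S : Set M} {d : ℕ} {V V' : Cls ℂ S} {c : ℝ}
    (h : ∀ s : Multiset (Cls ℂ S), s.card + 1 = n → (I (V ::ₘ s) : ℝ) ≤ c * I (V' ::ₘ s)) :
    Le n (tM S d) c V V' := by
  intro s hs
  unfold tM
  have h1 := div_le_div_of_nonneg_right (h s hs) (show (0 : ℝ) ≤ d from Nat.cast_nonneg _)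
  rw [mul_div_assoc] at h1
  exact h1

/-- **The data.** -/
theorem exists_net (hy : NormalModel y) (hn : Algebra.trdeg ℂ K = n) (hn0 : 0 < n)
    {i : Fin (N + 1)}
    (hi : y i ≠ 0) {Δ : Place ℂ K → ℚ} (hΔ : {P | IsPrimeDivisor y P ∧ Δ P ≠ 0}.Finite)
    {S : Set (Cor K)} (h1 : ∀ T ∈ S, CorLe T.p T.f y n Δ)
    {C₁ : ℝ} (hC₁0 : 0 < C₁) (hC₁ : ∀ T ∈ S, corDegree T.p T.f y n 1 ≤ ENNReal.ofReal C₁)
    {ν : ℕ} (hν : ν ≤ n)
    (hnum : ¬ NumDimLt y n Δ ν) (hnum' : ν + 1 ≤ n → NumDimLt y n Δ (ν + 1)) :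
    ∃ (m : ℕ → ℝ) (M : {A : Place ℂ K → ℚ // Effective y A} → ℕ → Cls ℂ (affS y i))
      (D : Cls ℂ (affS y i) → ℕ → Cls ℂ (affS y i)) (c ε : ℝ),
      Net n (fun s => (I s : ℝ)) (CWrd hy hn hi S) (hcls hy hi) m M D ν c ε C₁ ∧
      ((∀ T ∈ S, CorLe T.f T.p y n Δ) → ∀ l, ∀ o ∈ CWrd hy hn hi S l, ∀ a, ∃ a', ∀ q,
        Le n o.t 1 (o.e₀ (M a q)) (o.e₁ (M a' q))) ∧
      (∀ a, ∀ᶠ q in Filter.atTop, ∀ l, ∀ o ∈ CWrd hy hn hi S l,
        Le n o.t (c * m q) (o.e₁ (M a q)) (o.e₁ (hcls hy hi))) := by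
  classical
  have hess := hy.ess
  have cx := ctx hy hn hi
  obtain ⟨x, E, hx, hE⟩ := exists_crd hn (k := ℂ) (K := K)
  have hfr : IsFrame E := fun F => ⟨fun j => F (x j),
    (Pool.Agent.W73.PG.PULL.expand x hx E hE F).symm⟩
  obtain ⟨c, hcfin, hc⟩ := exists_ordc hy hn hx hE
  have hc' : IsDisc y E c := hc
  have hP1 : ∀ T ∈ S, CPush y c Δ T.p T.f := fun T hT =>
    cpush_of hy hn hΔ T.fin (h1 T hT) hx hE hfr hc'
  have hP2 : (∀ T ∈ S, CorLe T.f T.p y n Δ) → ∀ T ∈ S, CPush y c Δ T.f T.p := fun h2 T hT =>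
    cpush_of hy hn hΔ (fd_of (ess_of_fd hess T.fin) hn (trdeg_of_fd hn T.fin) T.f) (h2 T hT)
      hx hE hfr hc'
  obtain ⟨Hy, hHy, hHP⟩ := exists_hyp hy hi
  -- the sequence of sections
  unfold NumDimLt at hnum
  push Not at hnum
  obtain ⟨A0, hA0, ε, hε, hseq⟩ := hnum
  have hseq' : ∀ q : ℕ, ∃ m b : ℕ, q + 1 ≤ m ∧ (b : ℝ) ≤ 1 / (q + 1) * m ∧
      ∃ g : Fin (ν + 1) → K, (∀ j, g j ∈ Lsp y c m (m • Δ + b • A0)) ∧ g 0 ≠ 0 ∧
      ∃ u : Fin (n - ν) → K, (∀ a, IsPencil y (u a)) ∧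
        ε * m ^ ν < degreeOver u (fun j : Fin ν => g j.succ / g 0) := by
    intro q
    obtain ⟨m, b, hm, hb, u, hu, ω, E', hω, hω0, hlt⟩ := hseq (1 / ((q : ℝ) + 1))
      (by positivity) (q + 1)
    refine ⟨m, b, hm, hb, fun j => ω j E, fun j => ?_, ?_, u, hu, ?_⟩
    · exact (isSection_iff hc' (hω j).1).1 (hω j)
    · exact (Pool.Agent.N110.ratio_frame hfr (hω 0).1 (hω 0).1 hω0).1
    · have e1 : (fun j : Fin ν => ω j.succ E / ω 0 E) = fun j : Fin ν => ω j.succ E' / ω 0 E' := by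
        funext j
        exact ((Pool.Agent.N110.ratio_frame hfr (hω 0).1 (hω j.succ).1 hω0).2).symm
      rw [e1]
      exact hlt
  choose m b hm hb g hg hg0 u hu hdeg using hseq'
  have hm1 : ∀ q, 1 ≤ m q := fun q => by have := hm q; omega
  obtain ⟨A₁, hA₁d⟩ : ∃ A₁ : Place ℂ K → ℚ, A₁ = A0 + Hy := ⟨_, rfl⟩
  have hA₁ : Effective y A₁ := by rw [hA₁d]; exact Effective.add' hA0 hHy
  have hmem0 : ∀ q l, g q 0 * (y l / y i) ∈ Lsp y c (m q) (m q • Δ + (b q + 1) • A₁) := by
    intro q l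
    rw [hA₁d]
    exact mul_hyp hy hA0 hHy hHP hi (hg q 0) l
  have hmem : ∀ A : {A : Place ℂ K → ℚ // Effective y A}, ∀ q l,
      g q 0 * (y l / y i) ∈ Lsp y c (m q) (m q • Δ + (b q + 1) • (A₁ + A.1)) := by
    intro A q l
    refine Lsp_mono le_rfl hA₁.1 (fun P hP => ?_) (hmem0 q l)
    have := A.2.1 P hP
    change A₁ P ≤ A₁ P + A.1 P
    linarith
  -- the spaces
  obtain ⟨M, hMV⟩ : ∃ M : {A : Place ℂ K → ℚ // Effective y A} → ℕ → Cls ℂ (affS y i), ∀ A q,
      M A q = secCls hy hi hcfin hΔ (Effective.add' hA₁ A.2) (m q) (b q + 1) (hg0 q)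
        (hmem A q) := ⟨_, fun _ _ => rfl⟩
  have hMmem : ∀ A q v, v ∈ (M A q).V ↔
      g q 0 * v ∈ Lsp y c (m q) (m q • Δ + (b q + 1) • (A₁ + A.1)) := by
    intro A q v
    rw [hMV]
    rfl
  obtain ⟨D, hDV⟩ : ∃ D : Cls ℂ (affS y i) → ℕ → Cls ℂ (affS y i), ∀ a v, D a v =
      mulCls (fin_affS i) (one_affS hi) a (hpow hy hi (v - 1)) := ⟨_, fun _ _ => rfl⟩
  obtain ⟨β, f, hf, hdom⟩ := dom_sections hy hi hcfin hΔ
  obtain ⟨t, ht⟩ : ∃ t : Multiset (Cls ℂ (affS y i)) → ℝ, t = fun s => (I s : ℝ) := ⟨_, rfl⟩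
  have hpos : ∀ s : Multiset (Cls ℂ (affS y i)), s.card = n → 0 < t s := by
    intro s hs
    rw [ht]
    beta_reduce
    exact_mod_cast I_pos cx hs
  have hmt : Filter.Tendsto (fun q => (m q : ℝ)) Filter.atTop Filter.atTop := by
    refine Filter.tendsto_atTop_mono (fun q => ?_) tendsto_natCast_atTop_atTop
    have := hm q
    exact_mod_cast (by omega : q ≤ m q)
  -- the comparison after a map
  have hdir : ∀ A A' : {A : Place ℂ K → ℚ // Effective y A}, (∀ P, IsPrimeDivisor y P →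
      A.1 P ≤ A'.1 P) → ∀ q, ∀ {M' : Type} [Field M'] [Algebra ℂ M'] {SM : Set M'}
      (hS : Amb n SM) (ψ : K →ₐ[ℂ] M') (d : ℕ),
      Le n (tM SM d) 1 (fCls hy hn hi hS ψ (M A q)) (fCls hy hn hi hS ψ (M A' q)) := by
    intro A A' hAA q M' _ _ SM hS ψ d
    refine le_tM fun s hs => ?_
    rw [one_mul]
    refine Nat.cast_le.2 (I_mono hS.ctx (g := 1) one_ne_zero ?_ hs)
    rintro _ ⟨v, hv, rfl⟩
    rw [one_mul]
    refine ⟨v, ?_, rfl⟩
    have hv' : v ∈ (M A q).V := hv
    change v ∈ (M A' q).V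
    rw [hMmem] at hv' ⊢
    refine Lsp_mono le_rfl (Effective.add' hA₁ A.2).1 (fun P hP => ?_) hv'
    have := hAA P hP
    change A₁ P + A.1 P ≤ A₁ P + A'.1 P
    linarith
  -- the comparison with `H`
  have hMle : ∀ A : {A : Place ℂ K → ℚ // Effective y A}, ∀ᶠ q in Filter.atTop,
      ∀ {M' : Type} [Field M'] [Algebra ℂ M'] {SM : Set M'} (hS : Amb n SM) (ψ : K →ₐ[ℂ] M')
      (d : ℕ), Le n (tM SM d) (((β : ℝ) + 1) * m q) (fCls hy hn hi hS ψ (M A q))
        (fCls hy hn hi hS ψ (hcls hy hi)) := by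
    intro A
    obtain ⟨βA, gA, hgA, hdomA⟩ := hdom (A₁ + A.1) (Effective.add' hA₁ A.2)
    filter_upwards [Filter.eventually_ge_atTop (2 * βA)] with q hq
    intro M' _ _ SM hS ψ d
    refine le_tM fun s hs => ?_
    have e1 := I_dom_gen hy hn hi hS ψ (V := M A q)
      (B := m q * β + (b q + 1) * βA) (f := f ^ m q * gA ^ (b q + 1) * g q 0)
      (mul_ne_zero (mul_ne_zero (pow_ne_zero _ hf) (pow_ne_zero _ hgA)) (hg0 q))
      (fun v hv => by
        rw [mul_assoc]
        exact hdomA (m q) (b q + 1) _ ((hMmem A q v).1 hv)) hs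
    have e2 : ((m q * β + (b q + 1) * βA : ℕ) : ℝ) ≤ ((β : ℝ) + 1) * m q := by
      push_cast
      have hmq : ((q : ℝ) + 1) ≤ m q := by exact_mod_cast hm q
      have hbq := hb q
      have hq' : 2 * (βA : ℝ) ≤ q := by exact_mod_cast hq
      have hβ0 : (0 : ℝ) ≤ βA := Nat.cast_nonneg _
      have hm0 : (0 : ℝ) ≤ m q := Nat.cast_nonneg _
      have e3 : (b q : ℝ) * βA ≤ m q / 2 := by
        have e4 : (b q : ℝ) * βA ≤ 1 / ((q : ℝ) + 1) * m q * βA :=
          mul_le_mul_of_nonneg_right hbq hβ0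
        have e5 : 1 / ((q : ℝ) + 1) * m q * βA = m q * (βA / (q + 1)) := by ring
        have e6 : (βA : ℝ) / (q + 1) ≤ 1 / 2 := by
          rw [div_le_div_iff₀ (by positivity) (by norm_num)]
          linarith
        have e7 := mul_le_mul_of_nonneg_left e6 hm0
        linarith
      nlinarith
    calc ((I (fCls hy hn hi hS ψ (M A q) ::ₘ s) : ℕ) : ℝ) ≤
          ((m q * β + (b q + 1) * βA : ℕ) : ℝ) *
          (I (fCls hy hn hi hS ψ (hcls hy hi) ::ₘ s) : ℝ) := by exact_mod_cast e1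
      _ ≤ ((β : ℝ) + 1) * m q * (I (fCls hy hn hi hS ψ (hcls hy hi) ::ₘ s) : ℝ) :=
        mul_le_mul_of_nonneg_right e2 (Nat.cast_nonneg _)
  -- the lower bound for the spaces
  obtain ⟨Z, hZ⟩ : ∃ Z : {A : Place ℂ K → ℚ // Effective y A}, Z.1 = 0 :=
    ⟨⟨0, fun _ _ => le_rfl, by
      refine Set.finite_empty.subset ?_
      rintro P ⟨-, h⟩
      exact h rfl⟩, rfl⟩
  have hlow : ∀ q, ε * (m q : ℝ) ^ ν ≤
      t (Multiset.replicate ν (M Z q) + Multiset.replicate (n - ν) (hcls hy hi)) := by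
    intro q
    rw [ht]
    have hcard : (Multiset.replicate ν (M Z q) + Multiset.replicate (n - ν)
        (hcls hy hi)).card = n := by
      rw [Multiset.card_add, Multiset.card_replicate, Multiset.card_replicate]
      omega
    have e1 : degreeOver (u q) (fun j : Fin ν => g q j.succ / g q 0) =
        dm ℂ (toM (u q) + toM (fun j : Fin ν => g q j.succ / g q 0)) :=
      deg_dm (toM_set _) (toM_set _)
    obtain ⟨Q', hQ', e2⟩ := replace_pencils' hy hn hi (toM (u q))
      (toM (fun j : Fin ν => g q j.succ / g q 0))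
      (by rw [Multiset.card_add, toM_card, toM_card]; omega) (fun z hz => by
        obtain ⟨j, rfl⟩ := mem_toM.1 hz
        exact hu q j)
    rw [toM_card] at hQ'
    have hsel : Sel (toM (fun j : Fin ν => g q j.succ / g q 0))
        (Multiset.replicate ν (M Z q)) := by
      rw [sel_rep]
      refine ⟨toM_card _, fun z hz => ?_⟩
      obtain ⟨j, rfl⟩ := mem_toM.1 hz
      rw [hMmem]
      have e3 : g q 0 * (g q j.succ / g q 0) = g q j.succ := mul_div_cancel₀ _ (hg0 q)
      rw [e3, hZ, add_zero, hA₁d]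
      refine Lsp_mono (Nat.le_succ _) hA0.1 (fun P hP => ?_) (hg q j.succ)
      change A0 P ≤ A0 P + Hy P
      have := hHy.1 P hP
      linarith
    have e3 := le_I cx hcard (sel_add hsel hQ')
    have e4 : degreeOver (u q) (fun j : Fin ν => g q j.succ / g q 0) ≤
        I (Multiset.replicate ν (M Z q) + Multiset.replicate (n - ν) (hcls hy hi)) := by
      rw [e1]
      rw [add_comm] at e3
      exact e2.trans e3
    have e5 : ((degreeOver (u q) (fun j : Fin ν => g q j.succ / g q 0) : ℕ) : ℝ) ≤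
        (I (Multiset.replicate ν (M Z q) + Multiset.replicate (n - ν) (hcls hy hi)) : ℝ) :=
      Nat.cast_le.2 e4
    exact (hdeg q).le.trans e5
  -- the comparison for correspondences
  have hcmp : ∀ {M' : Type} [Field M'] [Algebra ℂ M'] {SM : Set M'} (hS : Amb n SM)
      {g₀ g₁ : K →ₐ[ℂ] M'}, CPush y c Δ g₀ g₁ → ∀ (d : ℕ)
      (A : {A : Place ℂ K → ℚ // Effective y A}), ∃ A' : {A : Place ℂ K → ℚ // Effective y A},
      ∀ q, Le n (tM SM d) 1 (fCls hy hn hi hS g₁ (M A q)) (fCls hy hn hi hS g₀ (M A' q)) := by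
    intro M' _ _ SM hS g₀ g₁ hg₀₁ d A
    obtain ⟨A', hA'⟩ := cmp_push hy hn hi hS hg₀₁ hHy hHP hA₁ hm1 (b := fun q => b q + 1)
      (fun q => Nat.succ_pos _) hg0 hMmem A
    refine ⟨A', fun q => le_tM fun s hs => ?_⟩
    rw [one_mul]
    exact Nat.cast_le.2 (hA' q s hs)
  refine ⟨fun q => (m q : ℝ), M, D, β + 1, ε, ?_, ?_, ?_⟩
  · refine ⟨hn0, hν, by positivity, hε, hC₁0, ?_, ?_, ?_, ?_, ?_, ?_, ?_, ?_, hmt, ?_, ?_,
      ?_, ?_, ?_, ?_, ?_, ?_⟩
    · -- pos0
      exact_mod_cast I_pos cx (s := Multiset.replicate n (hcls hy hi)) (Multiset.card_replicate _ _)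
    · -- pos
      rintro l _ ⟨M', _, _, SM, hS, g', hg', rfl⟩ s hs
      have e1 := I_pos hS.ctx hs
      have e2 := mapDegree_pos' hS hn (g' 0)
      have e1' : (0 : ℝ) < (I s : ℕ) := by exact_mod_cast e1
      have e2' : (0 : ℝ) < mapDegree (g' 0) := by exact_mod_cast e2
      exact div_pos e1' e2'
    · -- ex
      rintro l _ ⟨M', _, _, SM, hS, g', hg', rfl⟩
      intro R hR a b c d
      have e1 := exch hS.ctx R hR a b c d
      have e2 := mapDegree_pos' hS hn (g' 0)
      have e2' : (0 : ℝ) < mapDegree (g' 0) := by exact_mod_cast e2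
      change (I _ : ℝ) / mapDegree (g' 0) * ((I _ : ℝ) / mapDegree (g' 0)) ≤
        2 * ((I _ : ℝ) / mapDegree (g' 0) * ((I _ : ℝ) / mapDegree (g' 0)) +
          (I _ : ℝ) / mapDegree (g' 0) * ((I _ : ℝ) / mapDegree (g' 0)))
      rw [div_mul_div_comm, div_mul_div_comm, div_mul_div_comm, ← add_div, ← mul_div_assoc]
      exact div_le_div_of_nonneg_right e1 (by positivity)
    · -- deg₀
      rintro l _ ⟨M', _, _, SM, hS, g', hg', rfl⟩ s hs
      change (I (s.map (fCls hy hn hi hS (g' 0))) : ℝ) / mapDegree (g' 0) = _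
      have e2 := mapDegree_pos' hS hn (g' 0)
      have e2' : (0 : ℝ) < mapDegree (g' 0) := by exact_mod_cast e2
      rw [I_fCls hy hn hi hS (g' 0) hs]
      push_cast
      field_simp
    · -- split
      rintro l k _ ⟨M', _, _, SM, hS, g', hg', rfl⟩
      have e2 := mapDegree_pos' hS hn (g' 0)
      have e2' : (0 : ℝ) < mapDegree (g' 0) := by exact_mod_cast e2
      have e3 := mapDegree_pos' hS hn (g' l)
      have e3' : (0 : ℝ) < mapDegree (g' l) := by exact_mod_cast e3
      refine ⟨fCls hy hn hi hS (g' l), mapDegree (g' l) / mapDegree (g' 0), div_pos e3' e2',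
        ⟨M', _, _, SM, hS, g', ⟨hg'.1, fun j hj => hg'.2 j (by omega)⟩, rfl⟩,
        ⟨M', _, _, SM, hS, fun j => g' (l + j),
          ⟨fd_of hS.ctx.ess hn hS.ctx.hn _, fun j hj => ?_⟩, ?_⟩⟩
      · exact hg'.2 (l + j) (by omega)
      · have e4 : (fun s : Multiset (Cls ℂ SM) => tM SM (mapDegree (g' 0)) s /
            ((mapDegree (g' l) : ℝ) / mapDegree (g' 0))) = tM SM (mapDegree (g' (l + 0))) := by
          funext s
          unfold tM
          rw [add_zero]
          field_simp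
        change (⟨Cls ℂ SM, fun s : Multiset (Cls ℂ SM) => tM SM (mapDegree (g' 0)) s /
            ((mapDegree (g' l) : ℝ) / mapDegree (g' 0)), _, _⟩ : Obj (Cls ℂ (affS y i))) = _
        rw [e4]
        rfl
    · -- zero_id
      rintro _ ⟨M', _, _, SM, hS, g', hg', rfl⟩
      rfl
    · -- H_deg
      rintro _ ⟨M', _, _, SM, hS, g', hg', rfl⟩
      have e1 := (corDegree_le_real hy hn hi hS (g' 0) (g' 1) (by omega : 1 ≤ n) hC₁0.le).1
        (corDegree_one hy hn (by omega : 1 ≤ n) hC₁ hg')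
      rw [Multiset.replicate_one, Multiset.singleton_add] at e1
      exact e1
    · -- m_pos
      intro q
      exact_mod_cast hm1 q
    · -- dir
      intro A A'
      refine ⟨⟨A.1 + A'.1, Effective.add' A.2 A'.2⟩, fun q => ?_⟩
      rintro l _ ⟨M', _, _, SM, hS, g', hg', rfl⟩
      refine ⟨hdir _ _ (fun P hP => ?_) q hS _ _, hdir _ _ (fun P hP => ?_) q hS _ _⟩
      · have := A'.2.1 P hP
        change A.1 P ≤ A.1 P + A'.1 P
        linarith
      · have := A.2.1 P hP
        change A'.1 P ≤ A.1 P + A'.1 P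
        linarith
    · -- M_f
      rintro l _ ⟨M', _, _, SM, hS, g', hg', rfl⟩ A
      exact hcmp hS (cpush_chain hP1 hg') _ A
    · -- M_le
      intro A
      filter_upwards [hMle A] with q hq
      rintro l _ ⟨M', _, _, SM, hS, g', hg', rfl⟩
      exact hq hS (g' 0) _
    · -- D_add
      rintro a v hv l _ ⟨M', _, _, SM, hS, g', hg', rfl⟩ s hs
      have e1 := I_add hS.ctx (D := fCls hy hn hi hS (g' 0) (mulCls (fin_affS i) (one_affS hi) a
        (hpow hy hi (v - 1)))) (V := fCls hy hn hi hS (g' 0) a)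
        (V' := fCls hy hn hi hS (g' 0) (hpow hy hi (v - 1))) (by rw [fCls_mul]) hs
      have e2 := I_dom_gen hy hn hi hS (g' 0) (V := hpow hy hi (v - 1))
        (B := v - 1 + 1) (f := 1) one_ne_zero (hpow_bnd hy hi (v - 1)) hs
      have e3 : v - 1 + 1 = v := by omega
      rw [e3] at e2
      have e4 : (I (fCls hy hn hi hS (g' 0) (D a v) ::ₘ s) : ℝ) ≤
          I (fCls hy hn hi hS (g' 0) a ::ₘ s) +
            v * I (fCls hy hn hi hS (g' 0) (hcls hy hi) ::ₘ s) := by
        rw [hDV]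
        exact_mod_cast e1.trans (Nat.add_le_add_left e2 _)
      change (I _ : ℝ) / mapDegree (g' 0) ≤
        (I _ : ℝ) / mapDegree (g' 0) + v * ((I _ : ℝ) / mapDegree (g' 0))
      rw [← mul_div_assoc, ← add_div]
      exact div_le_div_of_nonneg_right e4 (Nat.cast_nonneg _)
    · -- D_M
      intro a v hv s hs
      rw [one_mul, hDV]
      refine Nat.cast_le.2 (I_mono cx (g := 1) one_ne_zero (fun w hw => ?_) hs)
      rw [one_mul]
      have := Submodule.mul_mem_mul hw (hpow hy hi (v - 1)).one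
      rwa [mul_one] at this
    · -- D_H
      intro a v hv s hs
      rw [hDV]
      have e1 := I_pow cx (V := hcls hy hi)
        (D := mulCls (fin_affS i) (one_affS hi) a (hpow hy hi (v - 1))) (q := v) hv
        (fun w hw => by
          have e2 := hpow_pow hy hi (v - 1) w hw
          have e3 : v - 1 + 1 = v := by omega
          rw [e3] at e2
          have := Submodule.mul_mem_mul a.one e2
          rwa [one_mul] at this) hs
      exact_mod_cast e1
    · -- eps
      refine ⟨Z, Filter.Eventually.of_forall fun q => ?_⟩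
      have := hlow q
      rw [ht] at this
      exact this
    · -- zero
      intro hν1 A δ hδ
      obtain ⟨tt, htt, m0, hnd⟩ := hnum' hν1 (A₁ + A.1) (Effective.add' hA₁ A.2) δ hδ
      obtain ⟨q0, hq0⟩ := exists_nat_gt (2 / tt)
      filter_upwards [Filter.eventually_ge_atTop (max m0 (q0 + 1))] with q hq
      have hq1 : m0 ≤ q := (le_max_left _ _).trans hq
      have hq2 : q0 + 1 ≤ q := (le_max_right _ _).trans hq
      have hcard : (Multiset.replicate (ν + 1) (M A q) + Multiset.replicate (n - (ν + 1))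
          (hcls hy hi)).card = n := by
        rw [Multiset.card_add, Multiset.card_replicate, Multiset.card_replicate]
        omega
      obtain ⟨W, hW, e⟩ := exists_max cx hcard
      obtain ⟨W1, W2, s1, s2, rfl⟩ := sel_add_right hW
      rw [sel_rep] at s1 s2
      obtain ⟨w1, hw1⟩ := exists_fin W1 s1.1
      obtain ⟨w2, hw2⟩ := exists_fin W2 s2.1
      have hw1m : ∀ j, w1 j ∈ (M A q).V := by
        intro j
        have h3 : w1 j ∈ {x | x ∈ W1} := by
          rw [hw1]
          exact ⟨j, rfl⟩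
        exact s1.2 _ h3
      have hw2m : ∀ j, w2 j ∈ Submodule.span ℂ (affS y i) := by
        intro j
        have h3 : w2 j ∈ {x | x ∈ W2} := by
          rw [hw2]
          exact ⟨j, rfl⟩
        exact s2.2 _ h3
      have hbt : ((b q + 1 : ℕ) : ℝ) ≤ tt * m q := by
        push_cast
        have hmq : ((q : ℝ) + 1) ≤ m q := by exact_mod_cast hm q
        have hbq := hb q
        have hq2' : (q0 : ℝ) + 1 ≤ q := by exact_mod_cast hq2
        have e1 : 1 / ((q : ℝ) + 1) ≤ tt / 2 := by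
          rw [div_le_div_iff₀ (by positivity) (by norm_num)]
          have e2 : 2 / tt * tt = 2 := by field_simp
          have e3 := mul_lt_mul_of_pos_right hq0 htt
          rw [e2] at e3
          nlinarith
        have e2 : (1 : ℝ) ≤ 1 / ((q : ℝ) + 1) * m q := by
          rw [one_div, inv_mul_eq_div, le_div_iff₀ (by positivity), one_mul]
          exact hmq
        have e3 : 1 / ((q : ℝ) + 1) * m q ≤ tt / 2 * m q :=
          mul_le_mul_of_nonneg_right e1 (Nat.cast_nonneg _)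
        linarith
      have hbd := hnd (m q) (b q + 1) (by have := hm q; omega) hbt w2
        (fun a => pencil_span hi (hw2m a))
        (Fin.cons (frm x (m q) (g q 0)) fun j => frm x (m q) (g q 0 * w1 j)) E (fun j => by
          refine Fin.cases ?_ (fun j => ?_) j
          · rw [Fin.cons_zero, isSection_iff hc' (frm_pluri x _ _), frm_self hE]
            have := hmem A q i
            rwa [div_self hi, mul_one] at this
          · rw [Fin.cons_succ, isSection_iff hc' (frm_pluri x _ _), frm_self hE]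
            exact (hMmem A q _).1 (hw1m j)) (by
          rw [Fin.cons_zero, frm_self hE]
          exact hg0 q)
      have e1 : (fun j : Fin (ν + 1) => (Fin.cons (frm x (m q) (g q 0))
          (fun j => frm x (m q) (g q 0 * w1 j)) : Fin (ν + 1 + 1) → _ → K) j.succ E /
          (Fin.cons (frm x (m q) (g q 0)) (fun j => frm x (m q) (g q 0 * w1 j)) :
            Fin (ν + 1 + 1) → _ → K) 0 E) = w1 := by
        funext j
        rw [Fin.cons_succ, Fin.cons_zero, frm_self hE, frm_self hE]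
        exact mul_div_cancel_left₀ _ (hg0 q)
      rw [e1, deg_dm hw2 hw1, add_comm W2 W1, e] at hbd
      exact hbd
  · rintro h2 l _ ⟨M', _, _, SM, hS, g', hg', rfl⟩ A
    exact hcmp hS (cpush_chain' (hP2 h2) hg') _ A
  · intro A
    filter_upwards [hMle A] with q hq
    rintro l _ ⟨M', _, _, SM, hS, g', hg', rfl⟩
    exact hq hS (g' l) _

end

end Pool.Agent.Helper45M.CR
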