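import Pool.Agent.Helper45M.CR.Fld

/-!
Traces of the pull backs of sections by correspondences.
-/

set_option autoImplicit false
set_option linter.overlappingInstances false
set_option linter.unusedSectionVars false

open FF Module MvPolynomial Pool.Agent.W602.GT Pool.Agent.W603.LV
open Pool.Agent.Y172 Pool.Agent.Y191 Pool.Agent.R887 Pool.Agent.W619.PQ Pool.Agent.N110
open Pool.Agent.Helper45M.TR

namespace Pool.Agent.Helper45M.CR

section

variable {K L : Type} [Field K] [Algebra ℂ K] [Field L] [Algebra ℂ L] {n : ℕ}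

/-- the pull back of a form -/
noncomputable def pb (φ : K →ₐ[ℂ] L) (x : Fin n → K) (m : ℕ) (g : K)
    (D : Fin n → Derivation ℂ L L) : L :=
  (Matrix.of fun i j => D i (φ (x j))).det ^ m * φ g

theorem pb_pluri (φ : K →ₐ[ℂ] L) {x : Fin n → K} {E : Fin n → Derivation ℂ K K}
    (hE : ∀ i j, E i (x j) = if i = j then 1 else 0) (m : ℕ) (g : K) :
    IsPluri m (pb φ x m g) := by
  let _ : Algebra K L := φ.toRingHom.toAlgebra
  have hst : IsScalarTower ℂ K L := IsScalarTower.of_algebraMap_eq fun c => (φ.commutes c).symm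
  have h1 := pull_pluri (K' := L) x E m (frm x m g)
  have h2 : pull L x E m (frm x m g) = pb φ x m g := by
    funext D
    unfold pull
    rw [frm_self hE]
    rfl
  rwa [h2] at h1

theorem pb_ord (hess : Algebra.EssFiniteType ℂ K) (hess' : Algebra.EssFiniteType ℂ L)
    (hn : Algebra.trdeg ℂ K = n) (hn' : Algebra.trdeg ℂ L = n) (φ : K →ₐ[ℂ] L) {x : Fin n → K}
    {E : Fin n → Derivation ℂ K K} (hx : IsTranscendenceBasis ℂ x)
    (hE : ∀ i j, E i (x j) = if i = j then 1 else 0) {Q : Place ℂ L} {P : Place ℂ K} {e : ℕ}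
    (h : LiesOver φ Q P e) (hP : Divisorial n P) {m : ℕ} {g : K} {c : ℤ}
    (hc : OrdGe P (frm x m g) c) {D : Fin n → Derivation ℂ L L} (hD : ∀ i, DerReg Q (D i)) :
    Ge Q (m * (e - 1) + e * c) (pb φ x m g D) := by
  let _ : Algebra K L := φ.toRingHom.toAlgebra
  have hst : IsScalarTower ℂ K L := IsScalarTower.of_algebraMap_eq fun c => (φ.commutes c).symm
  have hfd : FiniteDimensional K L := finite_map hn hn'
  have h1 := pull_ord (K' := L) hn hx hE (Q := Q) (P := P) (ε := e) h hP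
    (frm_pluri (n := n) x m g) hc hD
  have h2 : pull L x E m (frm x m g) D = pb φ x m g D := by
    unfold pull
    rw [frm_self hE]
    rfl
  rwa [h2] at h1

theorem div_down (hess : Algebra.EssFiniteType ℂ L) (hn : Algebra.trdeg ℂ K = n)
    (hn' : Algebra.trdeg ℂ L = n) (φ : K →ₐ[ℂ] L) {Q : Place ℂ L} {P : Place ℂ K} {e : ℕ}
    (h : LiesOver φ Q P e) (hQ : Divisorial n Q) : Divisorial n P := by
  let _ : Algebra K L := φ.toRingHom.toAlgebra
  have hst : IsScalarTower ℂ K L := IsScalarTower.of_algebraMap_eq fun c => (φ.commutes c).symm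
  have hfd : FiniteDimensional K L := finite_map hn hn'
  exact divisorial_down (Q := Q) (P := P) (e := e) h hQ

end

section

variable {K L : Type} [Field K] [Algebra ℂ K] [Field L] [Algebra ℂ L] {N n : ℕ}
  {y : Fin (N + 1) → K}

/-- **Traces of pull backs of sections.** -/
theorem cor_trace [Algebra K L] [IsScalarTower ℂ K L] [FiniteDimensional K L]
    (hy : NormalModel y) (hess' : Algebra.EssFiniteType ℂ L) (hn : Algebra.trdeg ℂ K = n)
    (hn' : Algebra.trdeg ℂ L = n) {Δ : Place ℂ K → ℚ}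
    (hΔ : {P | IsPrimeDivisor y P ∧ Δ P ≠ 0}.Finite) {A' : Place ℂ K → ℚ}
    (hA' : Effective y A') (φ : K →ₐ[ℂ] L)
    (hψ : ∀ P' : Place ℂ K, IsPrimeDivisor y P' → ∀ (Q : Place ℂ L) (e' : ℕ), Over Q P' e' →
      ∀ (P : Place ℂ K) (e : ℕ), LiesOver φ Q P e →
        ∃ α : ℚ, LogDisc y n Δ P α ∧ e' * (1 - Δ P') ≤ e * α)
    {x : Fin n → K} {E : Fin n → Derivation ℂ K K} (hx : IsTranscendenceBasis ℂ x)
    (hE : ∀ i j, E i (x j) = if i = j then 1 else 0) (hfr : IsFrame E) {c : Place ℂ K → ℤ}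
    (hc : IsDisc y E c) {EL : Fin n → Derivation ℂ L L}
    (hEL : ∀ i f, EL i (algebraMap K L f) = algebraMap K L (E i f)) (h : L) :
    ∃ A : Place ℂ K → ℚ, Effective y A ∧ ∀ m b : ℕ, 1 ≤ m → 1 ≤ b →
      ∀ g ∈ Lsp y c m (m • Δ + b • A'),
        Algebra.trace K L (h * pb φ x m g EL) ∈ Lsp y c m (m • Δ + b • A) := by
  classical
  have hess := hy.ess
  choose s hsc hs0 hs using fun j => disc_bound2 (Δ := Δ) (n := n) hy hA' hfr j
  choose T hT using fun j => abs_over (K := K) (φ (s j))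
  obtain ⟨Th, hTh⟩ := abs_over (K := K) h
  refine ⟨fun P => ((∑ j, ∑ a ∈ T j, |P.ord a| : ℤ) : ℚ) + ((∑ a ∈ Th, |P.ord a| : ℤ) : ℚ) +
    if Δ P = 0 then 0 else 1, ⟨fun P _ => ?_, ?_⟩, fun m b hm hb g hg P hP => ?_⟩
  · have h1 : (0 : ℤ) ≤ ∑ j, ∑ a ∈ T j, |P.ord a| :=
      Finset.sum_nonneg fun _ _ => Finset.sum_nonneg fun _ _ => abs_nonneg _
    have h2 : (0 : ℤ) ≤ ∑ a ∈ Th, |P.ord a| := Finset.sum_nonneg fun _ _ => abs_nonneg _
    have h1' : (0 : ℚ) ≤ ((∑ j, ∑ a ∈ T j, |P.ord a| : ℤ) : ℚ) := by exact_mod_cast h1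
    have h2' : (0 : ℚ) ≤ ((∑ a ∈ Th, |P.ord a| : ℤ) : ℚ) := by exact_mod_cast h2
    have h3 : (0 : ℚ) ≤ if Δ P = 0 then 0 else 1 := by split_ifs <;> norm_num
    linarith
  · have hfin1 : (⋃ j, ⋃ a ∈ T j, {P : Place ℂ K | IsPrimeDivisor y P ∧ P.ord a ≠ 0}).Finite :=
      Set.finite_iUnion fun j => (T j).finite_toSet.biUnion fun a _ => finite_ord' hy a
    have hfin2 : (⋃ a ∈ Th, {P : Place ℂ K | IsPrimeDivisor y P ∧ P.ord a ≠ 0}).Finite :=
      Th.finite_toSet.biUnion fun a _ => finite_ord' hy a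
    refine ((hfin1.union hfin2).union hΔ).subset ?_
    rintro P ⟨hP, h0⟩
    by_contra hcon
    apply h0
    simp only [Set.mem_union, Set.mem_iUnion, Set.mem_setOf_eq, not_or, not_exists, not_and,
      not_not] at hcon
    obtain ⟨⟨h1, h2⟩, h3⟩ := hcon
    have e1 : ∑ j, ∑ a ∈ T j, |P.ord a| = 0 :=
      Finset.sum_eq_zero fun j _ => Finset.sum_eq_zero fun a ha => by
        rw [h1 j a ha hP, abs_zero]
    have e2 : ∑ a ∈ Th, |P.ord a| = 0 := Finset.sum_eq_zero fun a ha => by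
      rw [h2 a ha hP, abs_zero]
    beta_reduce
    rw [e1, e2, if_pos (h3 hP)]
    norm_num
  -- the estimate
  by_cases ht0 : Algebra.trace K L (h * pb φ x m g EL) = 0
  · exact Or.inl ht0
  right
  obtain ⟨Ms, hMs⟩ : ∃ Ms : ℤ, Ms = ∑ j, ∑ a ∈ T j, |P.ord a| := ⟨_, rfl⟩
  obtain ⟨Mh, hMh⟩ : ∃ Mh : ℤ, Mh = ∑ a ∈ Th, |P.ord a| := ⟨_, rfl⟩
  have hMh0 : 0 ≤ Mh := by rw [hMh]; exact Finset.sum_nonneg fun _ _ => abs_nonneg _
  have hPd : Divisorial n P := hP.divisorial hy hn
  obtain ⟨yP, EP, i0, hl⟩ := exists_loc hn hPd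
  choose EP' hEP' using fun i => exists_lift (L := L) hn (EP i)
  obtain ⟨B, hB⟩ : ∃ B : Matrix (Fin n) (Fin n) K, B = Matrix.of fun i j => E i (yP j) :=
    ⟨_, rfl⟩
  have hB0 : B.det ≠ 0 := by
    intro h0
    have h1 : (Matrix.of fun i j => EP i (yP j) : Matrix (Fin n) (Fin n) K).det =
        (Matrix.of fun i j => EP i (x j) : Matrix (Fin n) (Fin n) K).det * B.det := by
      rw [← Matrix.det_mul]
      congr 1
      ext i j
      rw [Matrix.of_apply, Matrix.mul_apply, hB]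
      have h1 := Pool.Agent.W73.PG.PULL.expand x hx E hE (EP i)
      conv_lhs => rw [← h1]
      rw [sum_smul_apply]
      rfl
    have h2 : (Matrix.of fun i j => EP i (yP j) : Matrix (Fin n) (Fin n) K) = 1 := by
      ext i j
      rw [Matrix.of_apply, hl.dual, Matrix.one_apply]
    rw [h2, Matrix.det_one, h0, mul_zero] at h1
    exact one_ne_zero h1
  -- the discrepancy of the frame
  have hcB : -(P.ord B.det) ≤ c P := by
    have h1 : OrdGe P (frm yP 1 (1 : K)) 0 := by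
      intro D hD
      have h9 : Ge P 0 (Matrix.of fun i j => D i (yP j) : Matrix (Fin n) (Fin n) K).det :=
        ge_det P _ _ (fun _ _ => 0) (fun a b => hD a _ (hl.reg b)) fun σ => by simp
      unfold frm
      rw [pow_one, mul_one]
      exact h9.imp_right fun h => by exact_mod_cast h
    have h2 := (hc P hP 1 (frm yP 1 (1 : K)) (frm_pluri yP 1 1) 0).1 h1
    have h3 : frm yP 1 (1 : K) E = B.det := by
      unfold frm
      rw [pow_one, mul_one, hB]
    rw [h3] at h2
    have h4 := h2.resolve_left hB0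
    have h5 : (0 : ℤ) ≤ c P + P.ord B.det := by
      have h6 : (0 : ℚ) ≤ ((c P + P.ord B.det : ℤ) : ℚ) := by
        push_cast
        push_cast at h4
        linarith
      exact_mod_cast h6
    linarith
  -- the form
  have hω := frm_pluri (n := n) x m g
  have hωE : frm x m g E = g := frm_self hE m g
  have hsec : IsSection y n m (m • Δ + b • A') (frm x m g) := by
    rw [isSection_iff hc hω, hωE]
    exact hg
  have hW := pb_pluri φ hE m g
  have hWB : pb φ x m g EL = algebraMap K L B.det ^ m * pb φ x m g EP' := by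
    have h1 := pluri_coord (hl.bas.algebraMap_comp (A := L)) (lift_dual hl.dual hEP') hW EL
    rw [h1]
    congr 2
    rw [hB, RingHom.map_det]
    congr 1
    ext i j
    rw [Matrix.of_apply, RingHom.mapMatrix_apply, Matrix.map_apply, Matrix.of_apply]
    exact hEL i (yP j)
  obtain ⟨k, hk⟩ : ∃ k : ℤ, k = ⌊(m : ℚ) * P.ord B.det - m * Δ P⌋ - b * Ms - Mh := ⟨_, rfl⟩
  have hkey : Ge P k (Algebra.trace K L (h * pb φ x m g EL)) := by
    refine trace_ge P _ k fun Q e hQ => ?_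
    rw [hWB]
    by_cases h0 : h = 0
    · left
      rw [h0, zero_mul]
    by_cases h1 : pb φ x m g EP' = 0
    · left
      rw [h1, mul_zero, mul_zero]
    right
    have hQd : Divisorial n Q := divisorial_up hQ hPd
    obtain ⟨R, ε, hR⟩ := below_gen hess' hn hn' φ Q
    obtain ⟨α, hα, hα1⟩ := hψ P hP Q e hQ R ε hR
    obtain ⟨j, hj⟩ := exists_centred hy R
    have h2 := hs j R hj α hα m b hm _ hsec
    have hRd : Divisorial n R := div_down hess' hn hn' φ hR hQd
    obtain ⟨c1, hc1⟩ : ∃ c1 : ℤ, c1 = ⌈(m : ℚ) * (α - 1)⌉ - b * R.ord (s j) := ⟨_, rfl⟩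
    have h3 : OrdGe R (frm x m g) c1 := by
      intro E' hE'
      refine (h2 E' hE').imp_right fun h => ?_
      have h3 : (m : ℚ) * (α - 1) ≤
          ((R.ord (frm x m g E') + b * R.ord (s j) : ℤ) : ℚ) := by
        push_cast
        linarith
      have h4 := Int.ceil_le.2 h3
      rw [hc1]
      have h5 : ⌈(m : ℚ) * (α - 1)⌉ - b * R.ord (s j) ≤ R.ord (frm x m g E') := by
        omega
      exact_mod_cast h5
    have h8 : Q.ord (φ (s j)) = ε * R.ord (s j) := hR.2 (s j)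
    have h8' : (Q.ord (φ (s j)) : ℚ) = ε * R.ord (s j) := by exact_mod_cast h8
    have h9 : (m : ℚ) * (α - 1) ≤ ⌈(m : ℚ) * (α - 1)⌉ := Int.le_ceil _
    have hε0 : (0 : ℚ) ≤ ε := Nat.cast_nonneg _
    have h10 := mul_le_mul_of_nonneg_left h9 hε0
    have h11 : (m * (ε * α - 1) - b * (Q.ord (φ (s j)) : ℤ) : ℚ) ≤
        ((m * (ε - 1) + ε * c1 : ℤ) : ℚ) := by
      rw [hc1, h8']
      push_cast
      linarith
    have h4 := (down_ge hn' hQ hQd hl hEP' hW
      (c := ((m * (ε * α - 1) - b * (Q.ord (φ (s j)) : ℤ) : ℚ) : ℝ))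
      (fun G hG => (pb_ord hess hess' hn hn' φ hx hE hR hRd h3 hG).imp_right fun h => by
        have h12 : ((m * (ε - 1) + ε * c1 : ℤ) : ℚ) ≤ (Q.ord (pb φ x m g G) : ℚ) := by
          exact_mod_cast h
        exact_mod_cast h11.trans h12)).resolve_left h1
    have h5 : (m * (ε * α - 1) - b * (Q.ord (φ (s j)) : ℤ) : ℚ) + m - e * m ≤
        (Q.ord (pb φ x m g EP') : ℚ) := by exact_mod_cast h4
    have hBK : algebraMap K L B.det ≠ 0 := by rwa [Ne, map_eq_zero]
    rw [Q.ord_mul h0 (mul_ne_zero (pow_ne_zero _ hBK) h1), Q.ord_mul (pow_ne_zero _ hBK) h1,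
      Q.ord_pow, hQ.2]
    have h6 := (abs_le.1 (hTh P Q e hQ)).1
    rw [← hMh] at h6
    have h7 := (abs_le.1 (hT j P Q e hQ)).2
    have h8 : ∑ a ∈ T j, |P.ord a| ≤ Ms := by
      rw [hMs]
      exact Finset.single_le_sum (f := fun j => ∑ a ∈ T j, |P.ord a|)
        (fun _ _ => Finset.sum_nonneg fun _ _ => abs_nonneg _) (Finset.mem_univ j)
    have he : (0 : ℚ) ≤ e := Nat.cast_nonneg _
    have hm0 : (0 : ℚ) ≤ m := Nat.cast_nonneg _
    have hb0 : (0 : ℚ) ≤ b := Nat.cast_nonneg _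
    have h6' : -(e * Mh : ℚ) ≤ (Q.ord h : ℚ) := by exact_mod_cast h6
    have h7' : (Q.ord (φ (s j)) : ℚ) ≤ e * Ms := by
      have h9 : (Q.ord (φ (s j)) : ℚ) ≤ e * ((∑ a ∈ T j, |P.ord a| : ℤ) : ℚ) := by
        exact_mod_cast h7
      have h10 : ((∑ a ∈ T j, |P.ord a| : ℤ) : ℚ) ≤ Ms := by exact_mod_cast h8
      exact h9.trans (mul_le_mul_of_nonneg_left h10 he)
    have h11 := Int.floor_le ((m : ℚ) * P.ord B.det - m * Δ P)
    have h12 : (k : ℚ) ≤ (m : ℚ) * P.ord B.det - m * Δ P - b * Ms - Mh := by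
      rw [hk]
      push_cast
      linarith
    have h13 := mul_le_mul_of_nonneg_left h12 he
    have h14 := mul_le_mul_of_nonneg_left hα1 hm0
    have h15 := mul_le_mul_of_nonneg_left h7' hb0
    have h16 : ((e * k : ℤ) : ℚ) ≤
        ((Q.ord h + (m * (e * P.ord B.det) + Q.ord (pb φ x m g EP')) : ℤ) : ℚ) := by
      push_cast
      nlinarith
    exact_mod_cast h16
  have h1 := hkey.resolve_left ht0
  have h2 : (k : ℚ) ≤ (P.ord (Algebra.trace K L (h * pb φ x m g EL)) : ℚ) := by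
    exact_mod_cast h1
  have h3 : -(P.ord B.det : ℚ) ≤ c P := by exact_mod_cast hcB
  have hm0 : (0 : ℚ) ≤ m := Nat.cast_nonneg _
  have hb1 : (1 : ℚ) ≤ b := by exact_mod_cast hb
  have h4 := mul_le_mul_of_nonneg_left h3 hm0
  have h5 : (m : ℚ) * P.ord B.det - m * Δ P - (if Δ P = 0 then 0 else 1) ≤
      ⌊(m : ℚ) * P.ord B.det - m * Δ P⌋ := by
    split_ifs with h6
    · rw [h6, mul_zero, sub_zero, sub_zero]
      have h7 : (m : ℚ) * P.ord B.det = ((m * P.ord B.det : ℤ) : ℚ) := by push_cast; ring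
      rw [h7, Int.floor_intCast]
    · have := Int.lt_floor_add_one ((m : ℚ) * P.ord B.det - m * Δ P)
      linarith
  have h6 : (0 : ℚ) ≤ if Δ P = 0 then (0 : ℚ) else 1 := by split_ifs <;> norm_num
  have h7 : (0 : ℚ) ≤ Mh := by exact_mod_cast hMh0
  have h8 : (Mh : ℚ) ≤ b * Mh := le_mul_of_one_le_left h7 hb1
  have h9 := mul_le_mul_of_nonneg_right hb1 h6
  rw [Pi.add_apply, Pi.smul_apply, Pi.smul_apply, nsmul_eq_mul, nsmul_eq_mul]
  rw [← hMs, ← hMh]
  rw [hk] at h2
  push_cast at h2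
  rw [one_mul] at h9
  nlinarith

/-- the jacobian of the lifted frame -/
theorem det_lift_ne' [Algebra K L] [IsScalarTower ℂ K L] [FiniteDimensional K L]
    (hess' : Algebra.EssFiniteType ℂ L) (hn : Algebra.trdeg ℂ K = n)
    (hn' : Algebra.trdeg ℂ L = n) (φ : K →ₐ[ℂ] L)
    {x : Fin n → K} {E : Fin n → Derivation ℂ K K} (hx : IsTranscendenceBasis ℂ x)
    (hE : ∀ i j, E i (x j) = if i = j then 1 else 0) {EL : Fin n → Derivation ℂ L L}
    (hEL : ∀ i f, EL i (algebraMap K L f) = algebraMap K L (E i f)) :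
    (Matrix.of fun i j => EL i (φ (x j))).det ≠ 0 := by
  -- `EL` is a frame of `L`
  have hbas : IsTranscendenceBasis ℂ (algebraMap K L ∘ x) := hx.algebraMap_comp
  have hdual := lift_dual hE hEL
  have hfrL : IsFrame EL := fun F => ⟨fun j => F (algebraMap K L (x j)),
    (Pool.Agent.W73.PG.PULL.expand _ hbas EL hdual F).symm⟩
  have key : ∀ (inst : Algebra K L), (∀ c, algebraMap ℂ L c =
      (@algebraMap K L _ _ inst) (algebraMap ℂ K c)) →
      (Matrix.of fun i j => EL i ((@algebraMap K L _ _ inst) (x j))).det ≠ 0 := by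
    intro inst hc
    have hst : @IsScalarTower ℂ K L _ inst.toSMul _ :=
      @IsScalarTower.of_algebraMap_eq ℂ K L _ _ _ _ inst _ hc
    have hfd : @FiniteDimensional K L _ _ inst.toModule :=
      @finite_map K L _ _ _ _ n inst hst hess' hn hn'
    exact @pull_ne K L _ _ _ _ inst hst n hfd hn x E hE EL hfrL
  exact key φ.toRingHom.toAlgebra fun c => (φ.commutes c).symm

/-- **Pull backs of sections by `f` are combinations of pull backs of sections by `p`.** -/
theorem cor_key (hy : NormalModel y) (hess' : Algebra.EssFiniteType ℂ L)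
    (hn : Algebra.trdeg ℂ K = n) (hn' : Algebra.trdeg ℂ L = n) {Δ : Place ℂ K → ℚ}
    (hΔ : {P | IsPrimeDivisor y P ∧ Δ P ≠ 0}.Finite) {A' : Place ℂ K → ℚ}
    (hA' : Effective y A') {p f : K →ₐ[ℂ] L} (hpf : CorLe p f y n Δ)
    {x : Fin n → K} {E : Fin n → Derivation ℂ K K} (hx : IsTranscendenceBasis ℂ x)
    (hE : ∀ i j, E i (x j) = if i = j then 1 else 0) (hfr : IsFrame E) {c : Place ℂ K → ℤ}
    (hc : IsDisc y E c) :
    ∃ (T : Set L) (J : L), T.Finite ∧ J ≠ 0 ∧ ∃ A : Place ℂ K → ℚ, Effective y A ∧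
      ∀ m b : ℕ, 1 ≤ m → 1 ≤ b → ∀ g ∈ Lsp y c m (m • Δ + b • A'),
        J ^ m * f g ∈ Submodule.span ℂ T *
          (Lsp y c m (m • Δ + b • A)).map p.toLinearMap := by
  classical
  have hess := hy.ess
  let _ : Algebra K L := p.toRingHom.toAlgebra
  have hst : IsScalarTower ℂ K L :=
    IsScalarTower.of_algebraMap_eq fun c => (p.commutes c).symm
  have hfd : FiniteDimensional K L := finite_map hn hn'
  choose EL hEL using fun i => exists_lift (L := L) hn (E i)
  obtain ⟨d, u, v, huv⟩ := expand_trace (K := K) (K' := L)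
  choose A hA hA1 using fun i => cor_trace hy hess' hn hn' hΔ hA' f hpf hx hE hfr hc hEL (u i)
  refine ⟨Set.range v, (Matrix.of fun i j => EL i (f (x j))).det, Set.finite_range v,
    det_lift_ne' hess' hn hn' f hx hE hEL, ∑ i, A i, ⟨fun P hP => ?_, ?_⟩,
    fun m b hm hb g hg => ?_⟩
  · rw [Finset.sum_apply]
    exact Finset.sum_nonneg fun i _ => (hA i).1 P hP
  · refine (Set.finite_iUnion fun i => (hA i).2).subset ?_
    rintro P ⟨hP, h0⟩
    by_contra hcon
    simp only [Set.mem_iUnion, not_exists] at hcon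
    apply h0
    rw [Finset.sum_apply]
    refine Finset.sum_eq_zero fun i _ => ?_
    by_contra h1
    exact hcon i ⟨hP, h1⟩
  · rw [huv ((Matrix.of fun i j => EL i (f (x j))).det ^ m * f g)]
    refine Submodule.sum_mem _ fun i _ => ?_
    have hv : v i ∈ Submodule.span ℂ (Set.range v) := Submodule.subset_span ⟨i, rfl⟩
    have ht : Algebra.trace K L (u i * ((Matrix.of fun i j => EL i (f (x j))).det ^ m * f g)) ∈
        Lsp y c m (m • Δ + b • ∑ i, A i) := by
      refine Lsp_mono le_rfl (hA i).1 (fun P hP => ?_) (hA1 i m b hm hb g hg)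
      rw [Finset.sum_apply]
      exact Finset.single_le_sum (f := fun i => A i P) (fun j _ => (hA j).1 P hP)
        (Finset.mem_univ i)
    have ht' : algebraMap K L (Algebra.trace K L
        (u i * ((Matrix.of fun i j => EL i (f (x j))).det ^ m * f g))) ∈
        (Lsp y c m (m • Δ + b • ∑ i, A i)).map p.toLinearMap := ⟨_, ht, rfl⟩
    have h5 := Submodule.mul_mem_mul hv ht'
    rwa [mul_comm (v i)] at h5

end

end Pool.Agent.Helper45M.CR
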