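import Pool.Agent.Helper45M.CR.CTr

/-!
Pull backs of sections along chains of correspondences, and the comparison of the spaces.
-/

set_option autoImplicit false
set_option linter.overlappingInstances false
set_option linter.unusedSectionVars false

open FF Module MvPolynomial Pool.Agent.W602.GT Pool.Agent.W603.LV
open Pool.Agent.Y172 Pool.Agent.Y191 Pool.Agent.R887 Pool.Agent.W619.PQ Pool.Agent.N110
open Pool.Agent.Helper45M.TR

namespace Pool.Agent.Helper45M.CR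

section

variable {K L M : Type} [Field K] [Algebra ℂ K] [Field L] [Algebra ℂ L] [Field M] [Algebra ℂ M]
  {N n : ℕ} {y : Fin (N + 1) → K}

/-- pull backs of sections by `g₁` are combinations of pull backs of sections by `g₀`, for all
divisors -/
def CPush (y : Fin (N + 1) → K) (c : Place ℂ K → ℤ) (Δ : Place ℂ K → ℚ) (g₀ g₁ : K →ₐ[ℂ] M) :
    Prop :=
  ∀ A, Effective y A → ∃ (V : Submodule ℂ M) (J : M), V.FG ∧ J ≠ 0 ∧ ∃ A', Effective y A' ∧
    ∀ m b : ℕ, 1 ≤ m → 1 ≤ b → ∀ g ∈ Lsp y c m (m • Δ + b • A),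
      J ^ m * g₁ g ∈ V * (Lsp y c m (m • Δ + b • A')).map g₀.toLinearMap

theorem CPush.refl (c : Place ℂ K → ℤ) (Δ : Place ℂ K → ℚ) (g₀ : K →ₐ[ℂ] M) :
    CPush y c Δ g₀ g₀ := by
  intro A hA
  refine ⟨Submodule.span ℂ {1}, 1, Submodule.fg_span_singleton _, one_ne_zero, A, hA,
    fun m b _ _ g hg => ?_⟩
  rw [one_pow]
  exact Submodule.mul_mem_mul (Submodule.subset_span rfl) ⟨g, hg, rfl⟩

theorem CPush.comp {c : Place ℂ K → ℤ} {Δ : Place ℂ K → ℚ} {p f : K →ₐ[ℂ] L}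
    (h : CPush y c Δ p f) (σ : L →ₐ[ℂ] M) : CPush y c Δ (σ.comp p) (σ.comp f) := by
  intro A hA
  obtain ⟨V, J, hV, hJ, A', hA', h1⟩ := h A hA
  refine ⟨V.map σ.toLinearMap, σ J, hV.map _, by rwa [Ne, map_eq_zero], A', hA',
    fun m b hm hb g hg => ?_⟩
  have h2 := h1 m b hm hb g hg
  have e1 : σ J ^ m * (σ.comp f) g = σ (J ^ m * f g) := by
    rw [map_mul, map_pow]
    rfl
  have e2 : (V * (Lsp y c m (m • Δ + b • A')).map p.toLinearMap).map σ.toLinearMap =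
      V.map σ.toLinearMap * (Lsp y c m (m • Δ + b • A')).map (σ.comp p).toLinearMap := by
    have e3 := Submodule.map_mul V ((Lsp y c m (m • Δ + b • A')).map p.toLinearMap) σ
    rw [e3, ← Submodule.map_comp]
    rfl
  rw [e1, ← e2]
  exact ⟨_, h2, rfl⟩

theorem CPush.trans {c : Place ℂ K → ℤ} {Δ : Place ℂ K → ℚ} {g₀ g₁ g₂ : K →ₐ[ℂ] M}
    (h1 : CPush y c Δ g₀ g₁) (h2 : CPush y c Δ g₁ g₂) : CPush y c Δ g₀ g₂ := by
  intro A hA
  obtain ⟨V', J', hV', hJ', A', hA', h3⟩ := h2 A hA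
  obtain ⟨V, J, hV, hJ, A'', hA'', h4⟩ := h1 A' hA'
  refine ⟨V' * V, J * J', hV'.mul hV, mul_ne_zero hJ hJ', A'', hA'', fun m b hm hb g hg => ?_⟩
  have h5 := h3 m b hm hb g hg
  have e1 : (J * J') ^ m * g₂ g = J ^ m * (J' ^ m * g₂ g) := by ring
  rw [e1]
  have key : ∀ z ∈ V' * (Lsp y c m (m • Δ + b • A')).map g₁.toLinearMap,
      J ^ m * z ∈ V' * V * (Lsp y c m (m • Δ + b • A'')).map g₀.toLinearMap := by
    intro z hz
    induction hz using Submodule.mul_induction_on' with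
    | mem_mul_mem v hv w hw =>
      obtain ⟨t, ht, rfl⟩ := hw
      have h6 := h4 m b hm hb t ht
      have e2 : J ^ m * (v * g₁.toLinearMap t) = v * (J ^ m * g₁ t) := by
        change J ^ m * (v * g₁ t) = _
        ring
      rw [e2, mul_assoc]
      exact Submodule.mul_mem_mul hv h6
    | add u _ w _ h1 h2 =>
      rw [mul_add]
      exact add_mem h1 h2
  exact key _ h5

theorem cpush_of (hy : NormalModel y) (hn : Algebra.trdeg ℂ K = n) {Δ : Place ℂ K → ℚ}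
    (hΔ : {P | IsPrimeDivisor y P ∧ Δ P ≠ 0}.Finite) {p f : K →ₐ[ℂ] L}
    (hfin : FiniteDimensional p.fieldRange L)
    (hpf : CorLe p f y n Δ) {x : Fin n → K}
    {E : Fin n → Derivation ℂ K K} (hx : IsTranscendenceBasis ℂ x)
    (hE : ∀ i j, E i (x j) = if i = j then 1 else 0) (hfr : IsFrame E) {c : Place ℂ K → ℤ}
    (hc : IsDisc y E c) : CPush y c Δ p f := by
  intro A hA
  obtain ⟨T, J, hT, hJ, A', hA', h⟩ := cor_key hy (ess_of_fd hy.ess hfin) hn
    (trdeg_of_fd hn hfin) hΔ hA hpf hx hE hfr hc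
  exact ⟨Submodule.span ℂ T, J, Submodule.fg_span hT, hJ, A', hA', h⟩

/-- chains -/
theorem cpush_chain {c : Place ℂ K → ℤ} {Δ : Place ℂ K → ℚ} {S : Set (Cor K)}
    (h : ∀ T ∈ S, CPush y c Δ T.p T.f) {l : ℕ} {g : ℕ → (K →ₐ[ℂ] M)} (hg : IsChain S l g) :
    CPush y c Δ (g 0) (g l) := by
  obtain ⟨-, hg⟩ := hg
  induction l with
  | zero => exact CPush.refl _ _ _
  | succ l ih =>
    obtain ⟨T, hT, σ, h1, h2⟩ := hg l (Nat.lt_succ_self _)
    refine (ih fun j hj => hg j (by omega)).trans ?_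
    rw [h1, h2]
    exact (h T hT).comp σ

/-- chains, in the other direction -/
theorem cpush_chain' {c : Place ℂ K → ℤ} {Δ : Place ℂ K → ℚ} {S : Set (Cor K)}
    (h : ∀ T ∈ S, CPush y c Δ T.f T.p) {l : ℕ} {g : ℕ → (K →ₐ[ℂ] M)} (hg : IsChain S l g) :
    CPush y c Δ (g l) (g 0) := by
  obtain ⟨-, hg⟩ := hg
  induction l with
  | zero => exact CPush.refl _ _ _
  | succ l ih =>
    obtain ⟨T, hT, σ, h1, h2⟩ := hg l (Nat.lt_succ_self _)
    refine CPush.trans ?_ (ih fun j hj => hg j (by omega))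
    rw [h1, h2]
    exact (h T hT).comp σ

/-- products of sections with functions of bounded degree -/
theorem mul_hpow (hy : NormalModel y) {i : Fin (N + 1)} {c : Place ℂ K → ℤ} {m b k : ℕ}
    {Δ A Hy : Place ℂ K → ℚ} (hHy : Effective y Hy)
    (hHP : ∀ P l, IsPrimeDivisor y P → Centred y l P → Hy P = P.ord (y i / y l)) (hi : y i ≠ 0)
    (hb : 1 ≤ b) {g z : K} (hg : g ∈ Lsp y c m (m • Δ + b • A)) (hz : z ∈ (hpow hy hi k).V) :
    g * z ∈ Lsp y c m (m • Δ + b • (A + (k + 1) • Hy)) := by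
  intro P hP
  by_cases h0 : g * z = 0
  · exact Or.inl h0
  right
  have hg0 : g ≠ 0 := left_ne_zero_of_mul h0
  have hz0 : z ≠ 0 := right_ne_zero_of_mul h0
  obtain ⟨_, ⟨l, rfl⟩, hs0, hs⟩ := hpow_bnd hy hi k z hz P
  obtain ⟨l', hl'⟩ := exists_centred hy P
  have h1 := (hg P hP).resolve_left hg0
  have h2 := hHP P l' hP hl'
  have hyl : y l ≠ 0 := by
    rintro h
    exact hs0 (by simp [h])
  have h3 := (P.reg_iff (div_ne_zero hyl hl'.1)).1 (hl'.2 l)
  rw [P.ord_div hyl hl'.1] at h3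
  rw [P.ord_div hi hl'.1] at h2
  rw [P.ord_div hyl hi, one_mul] at hs
  rw [P.ord_mul hg0 hz0]
  rw [Pi.add_apply, Pi.smul_apply, Pi.smul_apply, nsmul_eq_mul, nsmul_eq_mul] at h1 ⊢
  rw [Pi.add_apply, Pi.smul_apply, nsmul_eq_mul]
  have h4 : -(((k : ℤ) + 1) * (P.ord (y i) - P.ord (y l'))) ≤ P.ord z := by
    push_cast at hs
    have hk : (0 : ℤ) ≤ (k : ℤ) + 1 := by positivity
    nlinarith
  have h5 : -(((k : ℚ) + 1) * Hy P) ≤ P.ord z := by
    rw [h2]
    exact_mod_cast h4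
  have h6 := hHy.1 P hP
  have hb' : (1 : ℚ) ≤ b := by exact_mod_cast hb
  have h7 : ((k : ℚ) + 1) * Hy P ≤ b * (((k : ℚ) + 1) * Hy P) :=
    le_mul_of_one_le_left (by positivity) hb'
  push_cast
  linarith

/-- the comparison of the spaces for two maps -/
theorem cmp_push (hy : NormalModel y) (hn : Algebra.trdeg ℂ K = n) {i : Fin (N + 1)}
    (hi : y i ≠ 0) {S : Set M} (hS : Amb n S) {g₀ g₁ : K →ₐ[ℂ] M} {c : Place ℂ K → ℤ}
    {Δ : Place ℂ K → ℚ} (h : CPush y c Δ g₀ g₁) {Hy : Place ℂ K → ℚ} (hHy : Effective y Hy)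
    (hHP : ∀ P l, IsPrimeDivisor y P → Centred y l P → Hy P = P.ord (y i / y l))
    {A₁ : Place ℂ K → ℚ} (hA₁ : Effective y A₁) {m b : ℕ → ℕ} (hm : ∀ q, 1 ≤ m q)
    (hb : ∀ q, 1 ≤ b q) {g : ℕ → K} (hg : ∀ q, g q ≠ 0)
    {Ms : {A : Place ℂ K → ℚ // Effective y A} → ℕ → Cls ℂ (affS y i)}
    (hM : ∀ A q v, v ∈ (Ms A q).V ↔ g q * v ∈ Lsp y c (m q) (m q • Δ + b q • (A₁ + A.1)))
    (A : {A : Place ℂ K → ℚ // Effective y A}) :
    ∃ A' : {A : Place ℂ K → ℚ // Effective y A}, ∀ q, ∀ s : Multiset (Cls ℂ S),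
      s.card + 1 = n → I (fCls hy hn hi hS g₁ (Ms A q) ::ₘ s) ≤
        I (fCls hy hn hi hS g₀ (Ms A' q) ::ₘ s) := by
  classical
  have cx := hS.ctx
  obtain ⟨V, J, hV, hJ, B, hB, h1⟩ := h (A₁ + A.1) (Effective.add' hA₁ A.2)
  obtain ⟨T, hTV⟩ := hV
  have hTV' : V = Submodule.span ℂ (T : Set M) := hTV.symm
  obtain ⟨G, hG⟩ : ∃ G, G = genCls hy hn hi hS g₀ T.finite_toSet := ⟨_, rfl⟩
  have hGV : G.V = Submodule.span ℂ ((T : Set M) ∪ g₀ '' affS y i) := by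
    rw [hG]
    rfl
  have hfd : FiniteDimensional g₀.fieldRange M := fd_of cx.ess hn cx.hn g₀
  obtain ⟨β, w, hw, hβ⟩ := (amb_image hy hn hi hfd).fg
    (T.finite_toSet.union ((fin_affS (y := y) i).image g₀))
  have hnsm : Effective y ((β + 1 : ℕ) • Hy) := by
    refine ⟨fun P hP => ?_, hHy.2.subset fun P hP => ⟨hP.1, fun h0 => hP.2 ?_⟩⟩
    · rw [Pi.smul_apply, nsmul_eq_mul]
      have := hHy.1 P hP
      positivity
    · rw [Pi.smul_apply, h0, smul_zero]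
  refine ⟨⟨B + (β + 1) • Hy, Effective.add' hB hnsm⟩, fun q s hs => ?_⟩
  obtain ⟨X, hX⟩ : ∃ X, X = fCls hy hn hi hS g₀ (Ms ⟨B, hB⟩ q) := ⟨_, rfl⟩
  -- the first comparison
  have c1 : I (fCls hy hn hi hS g₁ (Ms A q) ::ₘ s) ≤ I (mulCls cx.fin cx.one G X ::ₘ s) := by
    refine I_mono cx (g := J ^ m q * g₁ (g q) / g₀ (g q))
      (div_ne_zero (mul_ne_zero (pow_ne_zero _ hJ) (by rw [Ne, map_eq_zero]; exact hg q))
        (by rw [Ne, map_eq_zero]; exact hg q)) ?_ hs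
    rintro _ ⟨v, hv, rfl⟩
    have h2 := h1 (m q) (b q) (hm q) (hb q) _ ((hM A q v).1 hv)
    have e1 : J ^ m q * g₁ (g q) / g₀ (g q) * g₁.toLinearMap v =
        (g₀ (g q))⁻¹ * (J ^ m q * g₁ (g q * v)) := by
      rw [map_mul]
      change J ^ m q * g₁ (g q) / g₀ (g q) * g₁ v = _
      rw [div_eq_mul_inv]
      ring
    rw [e1]
    have key : ∀ z ∈ V * (Lsp y c (m q) (m q • Δ + b q • B)).map g₀.toLinearMap,
        (g₀ (g q))⁻¹ * z ∈ (mulCls cx.fin cx.one G X).V := by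
      intro z hz
      induction hz using Submodule.mul_induction_on' with
      | mem_mul_mem a ha w hw =>
        obtain ⟨t, ht, rfl⟩ := hw
        have e2 : (g₀ (g q))⁻¹ * (a * g₀.toLinearMap t) = a * g₀ (t / g q) := by
          rw [map_div₀]
          change (g₀ (g q))⁻¹ * (a * g₀ t) = _
          rw [div_eq_mul_inv]
          ring
        rw [e2]
        refine Submodule.mul_mem_mul ?_ ?_
        · rw [hGV]
          rw [hTV'] at ha
          exact Submodule.span_mono Set.subset_union_left ha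
        · rw [hX]
          refine fCls_mem ?_
          rw [hM, mul_div_cancel₀ _ (hg q)]
          refine Lsp_mono le_rfl hB.1 (fun P hP => ?_) ht
          have := hA₁.1 P hP
          change B P ≤ A₁ P + B P
          linarith
      | add u _ w _ h1 h2 =>
        rw [mul_add]
        exact add_mem h1 h2
    exact key _ h2
  -- the generators
  have c2 : I (mulCls cx.fin cx.one G X ::ₘ s) ≤ I (G ::ₘ s) + I (X ::ₘ s) :=
    I_add cx (show (mulCls cx.fin cx.one G X).V ≤ G.V * X.V from le_rfl) hs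
  have c3 : I (G ::ₘ s) ≤ β * I (fCls hy hn hi hS g₀ (hcls hy hi) ::ₘ s) := by
    refine I_dom' cx (S' := g₀ '' affS y i) ((fin_affS i).image _) ⟨1, one_affS hi, map_one g₀⟩
      (fun v hv => ?_) hw (fun v hv => ?_) hs
    · have h2 : Submodule.span ℂ (g₀ '' affS y i) ≤ (fCls hy hn hi hS g₀ (hcls hy hi)).V := by
        rw [Submodule.span_le]
        rintro _ ⟨s, hs, rfl⟩
        exact fCls_mem (A := hcls hy hi) (Submodule.subset_span hs)
      exact h2 hv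
    · rw [hGV] at hv
      exact hβ v hv
  have c4 : (β + 1) * I (fCls hy hn hi hS g₀ (hcls hy hi) ::ₘ s) ≤
      I (fCls hy hn hi hS g₀ (hpow hy hi β) ::ₘ s) := by
    refine I_pow cx (by omega) ?_ hs
    rintro _ ⟨v, hv, rfl⟩
    refine ⟨v ^ (β + 1), hpow_pow hy hi β v hv, ?_⟩
    exact map_pow g₀ v _
  have c5 : I (fCls hy hn hi hS g₀ (hpow hy hi β) ::ₘ s) + I (X ::ₘ s) ≤
      I (fCls hy hn hi hS g₀ (Ms ⟨B + (β + 1) • Hy, Effective.add' hB hnsm⟩ q) ::ₘ s) := by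
    refine I_super cx ?_ hs
    rw [hX]
    have e1 : (fCls hy hn hi hS g₀ (hpow hy hi β)).V * (fCls hy hn hi hS g₀ (Ms ⟨B, hB⟩ q)).V =
        ((hpow hy hi β).V * (Ms ⟨B, hB⟩ q).V).map g₀.toLinearMap :=
      (Submodule.map_mul (hpow hy hi β).V (Ms ⟨B, hB⟩ q).V g₀).symm
    rw [e1]
    refine Submodule.map_mono ?_
    rw [Submodule.mul_le]
    intro z hz v hv
    rw [hM] at hv ⊢
    have h2 := mul_hpow hy hHy hHP hi (hb q) hv hz
    have e2 : g q * v * z = g q * (z * v) := by ring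
    have e3 : A₁ + B + (β + 1) • Hy = A₁ + (B + (β + 1) • Hy) := by rw [add_assoc]
    rw [e2] at h2
    change g q * (z * v) ∈ Lsp y c (m q) (m q • Δ + b q • (A₁ + (B + (β + 1) • Hy)))
    rwa [← e3]
  have c6 : β * I (fCls hy hn hi hS g₀ (hcls hy hi) ::ₘ s) ≤
      (β + 1) * I (fCls hy hn hi hS g₀ (hcls hy hi) ::ₘ s) := Nat.mul_le_mul_right _ (by omega)
  omega

end

end Pool.Agent.Helper45M.CR
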