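import Pool.Agent.R887.Defs

/-!
Definitions: self-correspondences, their compositions and their dynamical degrees.
-/

set_option autoImplicit false

open FF Pool.Agent.W602.GT Pool.Agent.Y172 Pool.Agent.R887

namespace Pool.Agent.Helper45M.CR

section

/-- A self-correspondence of the variety `X` with function field `K`: a variety `X''` with function
field `L` and generically finite rational maps `p` and `f` from `X''` to `X`, given by homomorphisms
of the function fields. Dominant rational self-maps `f` of `X` are the case `X'' = X`, `p = id`. -/
structure Cor (K : Type) [Field K] [Algebra ℂ K] where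
  L : Type
  [field : Field L]
  [alg : Algebra ℂ L]
  p : K →ₐ[ℂ] L
  f : K →ₐ[ℂ] L
  fin : FiniteDimensional p.fieldRange L

attribute [instance] Cor.field Cor.alg

variable {K L M : Type} [Field K] [Algebra ℂ K] [Field L] [Algebra ℂ L] [Field M] [Algebra ℂ M]
  {N : ℕ}

/-- Let `p` and `f` be generically finite rational maps from `X''` to `X`. The divisor
`f^* (K_X + Δ)` is at most `p^* (K_X + Δ)` over the prime divisors of `X`: if `P'` is a prime divisor
of `X`, `Q` a divisor over `X''` with image `P'` under `p` and ramification index `e'`, and `P` its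
image under `f`, a divisor over `X`, with ramification index `e`, then the product of `e` and of the
log discrepancy of `(X, Δ)` along `P` is at least `e' (1 - Δ P')`. If `Δ = 0`, `X` has canonical
singularities and `p` is not ramified over the prime divisors of `X` (for instance `p = id`), then
this is always true. -/
def CorLe (p f : K →ₐ[ℂ] L) (y : Fin (N + 1) → K) (n : ℕ) (Δ : Place ℂ K → ℚ) : Prop :=
  ∀ P' : Place ℂ K, IsPrimeDivisor y P' → ∀ (Q : Place ℂ L) (e' : ℕ), LiesOver p Q P' e' →
    ∀ (P : Place ℂ K) (e : ℕ), LiesOver f Q P e →
      ∃ α : ℚ, LogDisc y n Δ P α ∧ e' * (1 - Δ P') ≤ e * α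

/-- The rational maps `g 0, ..., g l` from a variety `Z` with function field `M` to `X` are
generically finite, and `(g j, g (j + 1))`, for `j < l`, is the composition of a rational map from `Z`
to some `X''` with `(p, f)`, for a correspondence in `S`: so `(g 0, g l)` is a composition of `l`
correspondences in `S` (one of its components, or a covering of a component). -/
def IsChain (S : Set (Cor K)) (l : ℕ) (g : ℕ → (K →ₐ[ℂ] M)) : Prop :=
  FiniteDimensional (g 0).fieldRange M ∧
    ∀ j < l, ∃ T ∈ S, ∃ σ : T.L →ₐ[ℂ] M, g j = σ.comp T.p ∧ g (j + 1) = σ.comp T.f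

open scoped ENNReal in
/-- The intersection number `(f^* H) ^ i · (p^* H) ^ (n - i)` on `X''`, outside of the base loci,
divided by the degree of `p`: the greatest number of points in the fibres of the maps
`(f^* u, p^* v)`, for pencils of hyperplane sections `u 1, ..., u i` and `v 1, ..., v (n - i)`,
divided by the degree of `p`. -/
noncomputable def corDegree (p f : K →ₐ[ℂ] L) (y : Fin (N + 1) → K) (n i : ℕ) : ℝ≥0∞ :=
  (⨆ (u : Fin i → K) (_ : ∀ a, IsPencil y (u a)) (v : Fin (n - i) → K)
    (_ : ∀ b, IsPencil y (v b)),
      (degreeOver (fun a => f (u a)) (fun b => p (v b)) : ℝ≥0∞)) / mapDegree p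

open scoped ENNReal in
/-- The `i`-th joint dynamical degree of a set `S` of self-correspondences of the variety `X` of
dimension `n`: the upper limit, for `l → ∞`, of the `l`-th root of the greatest of the degrees
`(f^* H) ^ i · (p^* H) ^ (n - i) / deg p` of the compositions `(p, f)` of `l` correspondences in `S`.
If `S` is a dominant rational self-map of `X`, it is the `i`-th dynamical degree. -/
noncomputable def corJointDegree (S : Set (Cor K)) (y : Fin (N + 1) → K) (n i : ℕ) : ℝ≥0∞ :=
  Filter.limsup (fun l : ℕ => (⨆ (M : Type) (_ : Field M) (_ : Algebra ℂ M)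
    (g : ℕ → (K →ₐ[ℂ] M)) (_ : IsChain S l g), corDegree (g 0) (g l) y n i) ^ (1 / (l : ℝ)))
      Filter.atTop

end

end Pool.Agent.Helper45M.CR
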