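import Pool.Agent.N110.Cls

/-!
The intersection numbers are superadditive.
-/

set_option autoImplicit false
set_option linter.overlappingInstances false
set_option linter.unusedSectionVars false

open FF Module IntermediateField Pool.Agent.R887 Pool.Agent.N110

namespace Pool.Agent.Helper45M.CR

section

variable {k K : Type} [Field k] [CharZero k] [Field K] [Algebra k K] {n : ℕ} {S : Set K}

/-- **Superadditivity.** -/
theorem I_super (c : Ctx n k S) {D V V' : Cls k S} (h : V.V * V'.V ≤ D.V) {s : Multiset (Cls k S)}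
    (hs : s.card + 1 = n) : I (V ::ₘ s) + I (V' ::ₘ s) ≤ I (D ::ₘ s) := by
  classical
  have hc1 : (V ::ₘ s).card = n := by rw [Multiset.card_cons]; exact hs
  have hc2 : (V' ::ₘ s).card = n := by rw [Multiset.card_cons]; exact hs
  obtain ⟨W0, hW0, e0⟩ := exists_max c hc1
  obtain ⟨W1, hW1, e1⟩ := exists_max c hc2
  obtain ⟨x, W0', hx, hW0', rfl⟩ := sel_cons_right hW0
  obtain ⟨x', W1', hx', hW1', rfl⟩ := sel_cons_right hW1
  have p0 := I_pos c hc1
  have p1 := I_pos c hc2
  rw [← e0] at p0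
  rw [← e1] at p1
  have eq1 : ∀ (x : K) (W : Multiset K), W + (x ::ₘ 0) = x ::ₘ W := by
    intro x W
    rw [Multiset.add_cons, add_zero]
  have cW : W0'.card = s.card := hW0'.card
  have cW' : W1'.card = s.card := hW1'.card
  obtain ⟨W, hW, i0, i1⟩ := common c.hn s W0' W1' (x ::ₘ 0) (x' ::ₘ 0) hW0' hW1'
    (by rw [eq1, Multiset.card_cons]; omega) (by rw [eq1, Multiset.card_cons]; omega)
    (by rw [eq1]; exact p0.ne') (by rw [eq1]; exact p1.ne')
  rw [eq1, eq1] at i0 i1
  have hWc : W.card + 1 = n := by rw [hW.card]; exact hs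
  have d0 : dm k (x ::ₘ W) ≠ 0 := (p0.trans_le i0).ne'
  have d1 : dm k (x' ::ₘ W) ≠ 0 := (p1.trans_le i1).ne'
  have := cz_gen (k := k) W
  have hff := ff_of_dm c.hn hWc d0
  -- general elements
  obtain ⟨U, hU, hU'⟩ := improve c.hn hWc d0
  obtain ⟨v, hvV, hv⟩ := avoid V.V U fun X hX => ⟨x, hx, hU X hX⟩
  have hv1 := hU' v hv
  have dv : dm k (v ::ₘ W) ≠ 0 := ((Nat.pos_of_ne_zero d0).trans_le hv1).ne'
  have hvt := transc_of_dm c.hn hWc dv
  have hv0 : v ≠ 0 := by
    rintro rfl
    exact hvt isAlgebraic_zero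
  obtain ⟨U2, hU2, hU2'⟩ := improve c.hn hWc d1
  have one_notin : ∀ P : Place (gen k W) K, (1 : K) ∉ geSub k P 1 := by
    intro P
    rw [mem_geSub, P.ord_one]
    rintro (h | h)
    · exact one_ne_zero h
    · omega
  have hfinv := finite_support (k := gen k W) v
  obtain ⟨w, hwV, hw⟩ := avoid V'.V (U2 ∪ hfinv.toFinset.image fun P => geSub k P 1) (by
    intro X hX
    rcases Finset.mem_union.1 hX with h | h
    · exact ⟨x', hx', hU2 X h⟩
    · rw [Finset.mem_image] at h
      obtain ⟨P, -, rfl⟩ := h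
      exact ⟨1, V'.one, one_notin P⟩)
  have hw1 := hU2' w fun X hX => hw X (Finset.mem_union_left _ hX)
  have dw : dm k (w ::ₘ W) ≠ 0 := ((Nat.pos_of_ne_zero d1).trans_le hw1).ne'
  have hwt := transc_of_dm c.hn hWc dw
  have hw0 : w ≠ 0 := by
    rintro rfl
    exact hwt isAlgebraic_zero
  have hwP : ∀ P : Place (gen k W) K, P.ord v ≠ 0 → P.ord w ≤ 0 := by
    intro P hP
    have h1 := hw (geSub k P 1) (Finset.mem_union_right _ (Finset.mem_image_of_mem _ (by
      rw [Set.Finite.mem_toFinset]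
      exact hP)))
    rw [mem_geSub, not_or] at h1
    omega
  -- a translate of `v`
  have hfinw := finite_support (k := gen k W) w
  have hbad : (⋃ P ∈ {P : Place (gen k W) K | P.ord w ≠ 0},
      {a : k | v - algebraMap k K a ∈ geSub k P 1}).Finite := by
    refine hfinw.biUnion fun P _ => Set.Subsingleton.finite fun a ha b hb => ?_
    by_contra hab
    have h1 : (v - algebraMap k K b) - (v - algebraMap k K a) ∈ geSub k P 1 :=
      Submodule.sub_mem _ hb ha
    have e1 : (v - algebraMap k K b) - (v - algebraMap k K a) = (a - b) • (1 : K) := by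
      rw [Algebra.smul_def, map_sub, mul_one]
      ring
    rw [e1, Submodule.smul_mem_iff _ (sub_ne_zero.2 hab)] at h1
    exact one_notin P h1
  have : Infinite k := inferInstance
  obtain ⟨a, ha⟩ := hbad.exists_notMem
  obtain ⟨u, hu⟩ : ∃ u, u = v - algebraMap k K a := ⟨_, rfl⟩
  have huP : ∀ P : Place (gen k W) K, P.ord w ≠ 0 → P.ord u ≤ 0 := by
    intro P hP
    have h1 : u ∉ geSub k P 1 := by
      intro h2
      rw [hu] at h2
      exact ha (Set.mem_iUnion₂.2 ⟨P, hP, h2⟩)
    rw [mem_geSub, not_or] at h1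
    omega
  have huV : u ∈ V.V := by
    rw [hu, ← mul_one (algebraMap k K a), ← Algebra.smul_def]
    exact Submodule.sub_mem _ hvV (Submodule.smul_mem _ _ V.one)
  have hu0 : u ≠ 0 := by
    rintro h0
    rw [hu, sub_eq_zero] at h0
    apply hvt
    rw [h0, IsScalarTower.algebraMap_apply k (gen k W) K]
    exact isAlgebraic_algebraMap _
  -- the poles of `v` are poles of `u`
  have hpole : ∀ P : Place (gen k W) K, P.ord v < 0 → P.ord u ≤ P.ord v := by
    intro P hP
    by_contra hcon
    push Not at hcon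
    have h1 : u ∈ geSub k P (P.ord v + 1) := by
      rw [mem_geSub]
      right
      omega
    have h2 : (1 : K) ∈ geSub k P (P.ord v + 1) := by
      rw [mem_geSub, P.ord_one]
      right
      omega
    have h3 : v ∈ geSub k P (P.ord v + 1) := by
      have e1 : v = u + a • (1 : K) := by
        rw [hu, Algebra.smul_def, mul_one]
        ring
      rw [e1] at h1 h2 ⊢
      exact Submodule.add_mem _ h1 (Submodule.smul_mem _ _ h2)
    rw [mem_geSub] at h3
    rcases h3 with h3 | h3
    · exact hv0 h3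
    · omega
  have hle : polar (k := gen k W) v + polar (k := gen k W) w ≤ polar (k := gen k W) (u * w) := by
    intro P
    rw [Finsupp.add_apply, polar_apply, polar_apply, polar_apply, P.ord_mul hu0 hw0]
    by_cases h1 : P.ord v < 0
    · have h2 := hpole P h1
      have h3 := hwP P h1.ne
      rw [max_eq_left (by omega : (0 : ℤ) ≤ -P.ord v), max_eq_left (by omega : (0 : ℤ) ≤ -P.ord w)]
      exact le_max_of_le_left (by omega)
    · rw [max_eq_right (by omega : -P.ord v ≤ 0), zero_add]
      by_cases h2 : P.ord w < 0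
      · have h3 := huP P h2.ne
        rw [max_eq_left (by omega : (0 : ℤ) ≤ -P.ord w)]
        exact le_max_of_le_left (by omega)
      · rw [max_eq_right (by omega : -P.ord w ≤ 0)]
        exact le_max_right _ _
  have h2 := ddeg_mono hle
  rw [ddeg_add, ddeg_polar hvt, ddeg_polar hwt] at h2
  have h3 := ddeg_polar_le (F := gen k W) (mul_ne_zero hu0 hw0)
  have h4 : dm k (v ::ₘ W) + dm k (w ::ₘ W) ≤ dm k ((u * w) ::ₘ W) := by
    rw [dm_cons, dm_cons, dm_cons]
    exact_mod_cast h2.trans h3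
  have h5 : dm k ((u * w) ::ₘ W) ≤ I (D ::ₘ s) :=
    le_I c (by rw [Multiset.card_cons]; exact hs) (sel_cons (h (Submodule.mul_mem_mul huV hwV)) hW)
  rw [← e0, ← e1]
  omega

/-- comparison with a space which contains a given set -/
theorem I_dom' (c : Ctx n k S) {S' : Set K} (hS' : S'.Finite) (h1 : (1 : K) ∈ S')
    {V H : Cls k S} (hH : ∀ v ∈ Submodule.span k S', v ∈ H.V) {B : ℕ} {f : K}
    (hf : f ≠ 0) (hB : ∀ v ∈ V.V, Bnd k S' B (f * v)) {s : Multiset (Cls k S)}
    (hs : s.card + 1 = n) : I (V ::ₘ s) ≤ B * I (H ::ₘ s) := by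
  obtain ⟨W, hW, e⟩ := exists_max c (s := V ::ₘ s) (by rw [Multiset.card_cons]; exact hs)
  obtain ⟨x, W', hx, hW', rfl⟩ := sel_cons_right hW
  obtain ⟨v, hv, hle⟩ := repl c.hn hS' h1 (B := B) (f₀ := f * 1) (f₁ := f * x)
      (by rwa [mul_one]) (hB 1 V.one) (hB x hx) (W := W') (by rw [hW'.card]; exact hs)
  rw [mul_div_mul_left _ _ hf, div_one] at hle
  rw [← e]
  exact hle.trans (Nat.mul_le_mul_left _ (le_I c (by rw [Multiset.card_cons]; exact hs)
    (sel_cons (hH v hv) hW')))

end

end Pool.Agent.Helper45M.CR
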