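import Pool.Agent.Helper45M.TR.Assem
import Pool.Agent.Helper45M.CR.Sup
import Pool.Agent.Helper45M.CR.Defs

/-!
Images of spaces of functions in finite extensions of the function field.
-/

set_option autoImplicit false
set_option linter.overlappingInstances false
set_option linter.unusedSectionVars false

open FF Module MvPolynomial Pool.Agent.W602.GT Pool.Agent.W603.LV
open Pool.Agent.Y172 Pool.Agent.Y191 Pool.Agent.R887 Pool.Agent.W619.PQ Pool.Agent.N110
open Pool.Agent.Helper45M.TR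

namespace Pool.Agent.Helper45M.CR

section

variable {K M : Type} [Field K] [Algebra ℂ K] [Field M] [Algebra ℂ M] {n : ℕ}

/-- the target of a generically finite map -/
theorem trdeg_of_fd (hn : Algebra.trdeg ℂ K = n) {ψ : K →ₐ[ℂ] M}
    (hfd : FiniteDimensional ψ.fieldRange M) : Algebra.trdeg ℂ M = n := by
  have h1 : Algebra.trdeg ℂ ψ.fieldRange + Algebra.trdeg ψ.fieldRange M = Algebra.trdeg ℂ M :=
    _root_.trdeg_add_eq ℂ ψ.fieldRange (A := M)
  have h2 : Algebra.trdeg ψ.fieldRange M = 0 := _root_.trdeg_eq_zero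
  have h3 : Algebra.trdeg ℂ K = Algebra.trdeg ℂ ψ.fieldRange :=
    (AlgEquiv.ofInjectiveField ψ).trdeg_eq
  rw [← h1, h2, add_zero, ← h3, hn]

theorem ess_of_fd (hess : Algebra.EssFiniteType ℂ K) {ψ : K →ₐ[ℂ] M}
    (hfd : FiniteDimensional ψ.fieldRange M) : Algebra.EssFiniteType ℂ M := by
  have h1 : Algebra.EssFiniteType ℂ ψ.fieldRange :=
    Algebra.EssFiniteType.of_surjective (AlgEquiv.ofInjectiveField ψ).toAlgHom
      (AlgEquiv.ofInjectiveField ψ).surjective
  exact Algebra.EssFiniteType.comp ℂ ψ.fieldRange M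

/-- all maps are generically finite -/
theorem fd_of (hess : Algebra.EssFiniteType ℂ M) (hn : Algebra.trdeg ℂ K = n)
    (hn' : Algebra.trdeg ℂ M = n) (ψ : K →ₐ[ℂ] M) : FiniteDimensional ψ.fieldRange M := by
  have h3 : Algebra.trdeg ℂ K = Algebra.trdeg ℂ ψ.fieldRange :=
    (AlgEquiv.ofInjectiveField ψ).trdeg_eq
  exact finite_map (h3.symm.trans hn) hn'

/-- the place below -/
theorem below_gen (hess : Algebra.EssFiniteType ℂ M) (hn : Algebra.trdeg ℂ K = n)
    (hn' : Algebra.trdeg ℂ M = n) (ψ : K →ₐ[ℂ] M) (Q : Place ℂ M) :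
    ∃ (P : Place ℂ K) (e : ℕ), LiesOver ψ Q P e := by
  let _ : Algebra K M := ψ.toRingHom.toAlgebra
  have hst : IsScalarTower ℂ K M := IsScalarTower.of_algebraMap_eq fun c => (ψ.commutes c).symm
  have hfd : FiniteDimensional K M := finite_map hn hn'
  exact ⟨bel K Q, ram K Q, over_bel K Q⟩

theorem bnd_gen (hess : Algebra.EssFiniteType ℂ M) (hn : Algebra.trdeg ℂ K = n)
    (hn' : Algebra.trdeg ℂ M = n) (ψ : K →ₐ[ℂ] M) {S : Set K} {B : ℕ} {f : K}
    (h : Bnd ℂ S B f) : Bnd ℂ (ψ '' S) B (ψ f) := by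
  intro Q
  obtain ⟨P, e, he, hP⟩ := below_gen hess hn hn' ψ Q
  obtain ⟨s, hs, hs0, h1⟩ := h P
  refine ⟨ψ s, ⟨s, hs, rfl⟩, by rwa [Ne, map_eq_zero], ?_⟩
  rw [hP, hP]
  have he0 : (0 : ℤ) ≤ e := Int.natCast_nonneg _
  have := mul_le_mul_of_nonneg_left h1 he0
  linarith

/-- the degree of the image -/
theorem dm_gen (ψ : K →ₐ[ℂ] M) (W : Multiset K) :
    dm ℂ (W.map ψ) = mapDegree ψ * dm ℂ W := by
  have h1 : gen ℂ (W.map ψ) = (gen ℂ W).map ψ := by
    unfold gen
    rw [IntermediateField.adjoin_map]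
    congr 1
    ext z
    simp only [Multiset.mem_map, Set.mem_image]
    rfl
  have h2 : (gen ℂ W).map ψ ≤ ψ.fieldRange := by
    rintro _ ⟨x, -, rfl⟩
    exact ⟨x, rfl⟩
  have h3 := IntermediateField.relfinrank_mul_finrank_top h2
  have h4 : ψ.fieldRange = (⊤ : IntermediateField ℂ K).map ψ := by
    rw [← AlgHom.fieldRange_eq_map]
  unfold dm mapDegree
  rw [h1, ← h3, h4, IntermediateField.relfinrank_map_map, IntermediateField.relfinrank_top_right,
    mul_comm]

end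

section

variable {K M : Type} [Field K] [Algebra ℂ K] [Field M] [Algebra ℂ M] {N n : ℕ}
  {y : Fin (N + 1) → K}

/-- a finite set of functions in a field which bounds all functions, up to a factor -/
structure Amb (n : ℕ) (S : Set M) : Prop where
  ctx : Ctx n ℂ S
  dom : ∀ z : M, ∃ (β : ℕ) (h : M), h ≠ 0 ∧ Bnd ℂ S β h ∧ Bnd ℂ S β (h * z)

theorem Amb.fg {S : Set M} (hS : Amb n S) {T : Set M} (hT : T.Finite) :
    ∃ (β : ℕ) (h : M), h ≠ 0 ∧ ∀ v ∈ Submodule.span ℂ T, Bnd ℂ S β (h * v) := by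
  classical
  obtain ⟨μ, hμ⟩ := exists_isMin (k := ℂ) hS.ctx.fin ⟨1, hS.ctx.one, one_ne_zero⟩
  choose β h h0 h1 h2 using hS.dom
  obtain ⟨T', rfl⟩ := hT.exists_finset_coe
  refine ⟨∑ z ∈ T', β z, ∏ z ∈ T', h z, Finset.prod_ne_zero_iff.2 fun z _ => h0 z, fun v hv =>
    bnd_of_ge hμ hS.ctx.one fun P => ?_⟩
  have key : ∀ s : Finset M, Ge P ((∑ z ∈ s, β z : ℕ) * μ P) (∏ z ∈ s, h z) := by
    intro s
    induction s using Finset.induction_on with
    | empty =>
      rw [Finset.sum_empty, Finset.prod_empty]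
      right
      rw [P.ord_one]
      simp
    | insert a s ha ih =>
      rw [Finset.sum_insert ha, Finset.prod_insert ha]
      refine ((hμ.ge (h1 a) P).mul ih).mono ?_
      push_cast
      linarith
  induction hv using Submodule.span_induction with
  | mem x hx =>
    have hx' : x ∈ T' := hx
    rw [← Finset.mul_prod_erase T' h hx', ← Finset.add_sum_erase T' β hx']
    have h3 := (hμ.ge (h2 x) P).mul (key (T'.erase x))
    have e1 : h x * (∏ z ∈ T'.erase x, h z) * x = h x * x * ∏ z ∈ T'.erase x, h z := by ring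
    rw [e1]
    refine h3.mono ?_
    push_cast
    linarith
  | zero => rw [mul_zero]; exact Or.inl rfl
  | add x y _ _ h1 h2 => rw [mul_add]; exact h1.add h2
  | smul t x _ h1 =>
    have h2 := (Ge.const (P := P) t).mul h1
    rw [zero_add] at h2
    have e1 : (∏ z ∈ T', h z) * (t • x) = algebraMap ℂ M t * ((∏ z ∈ T', h z) * x) := by
      rw [Algebra.smul_def]
      ring
    rw [e1]
    exact h2

/-- elements of the chart -/
theorem chart_ge {i : Fin (N + 1)} (hi : y i ≠ 0) {μ : Place ℂ K → ℤ} (hμ : IsMin (affS y i) μ)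
    {a : K} (ha : a ∈ chart y i) : ∃ D : ℕ, ∀ P : Place ℂ K, Ge P (D * μ P) a := by
  have hset : insert (1 : K) (Set.range fun l => y l / y i) = affS y i := by
    rw [Set.insert_eq_of_mem]
    · rfl
    · exact one_affS hi
  rw [← hset] at hμ
  unfold chart at ha
  rw [Algebra.adjoin_range_eq_range_aeval] at ha
  obtain ⟨Q, hQ⟩ := ha
  obtain ⟨D, hD⟩ := ge_poly' hμ Q
  exact ⟨D, fun P => by rw [← hQ]; exact hD P⟩

/-- absolute values of orders are bounded -/
theorem abs_bd (hy : NormalModel y) {i : Fin (N + 1)} (hi : y i ≠ 0) {μ : Place ℂ K → ℤ}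
    (hμ : IsMin (affS y i) μ) (a : K) :
    ∃ (D : ℕ) (h : K), h ≠ 0 ∧ ∀ P : Place ℂ K, D * μ P + |P.ord a| ≤ P.ord h := by
  by_cases ha : a = 0
  · exact ⟨0, 1, one_ne_zero, fun P => by rw [ha, P.ord_zero, P.ord_one]; simp⟩
  have hfr := hy.frac hi
  obtain ⟨⟨a₁, h1⟩, ⟨a₂, h2⟩, hb, hab⟩ := IsFractionRing.div_surjective (A := chart y i) a
  change a₁ / a₂ = a at hab
  have h20 : a₂ ≠ 0 := by
    intro h
    exact nonZeroDivisors.ne_zero hb (Subtype.ext h)
  have h10 : a₁ ≠ 0 := by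
    rintro rfl
    rw [zero_div] at hab
    exact ha hab.symm
  obtain ⟨D₁, hD₁⟩ := chart_ge hi hμ h1
  obtain ⟨D₂, hD₂⟩ := chart_ge hi hμ h2
  refine ⟨2 * (D₁ + D₂), a₁ * a₂, mul_ne_zero h10 h20, fun P => ?_⟩
  have k1 := (hD₁ P).resolve_left h10
  have k2 := (hD₂ P).resolve_left h20
  have hnp := hμ.nonpos (one_affS hi) P
  rw [P.ord_mul h10 h20, ← hab, P.ord_div h10 h20]
  have m1 : (D₁ : ℤ) * μ P ≤ 0 := mul_nonpos_of_nonneg_of_nonpos (Int.natCast_nonneg _) hnp
  have m2 : (D₂ : ℤ) * μ P ≤ 0 := mul_nonpos_of_nonneg_of_nonpos (Int.natCast_nonneg _) hnp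
  push_cast
  rcases abs_cases (P.ord a₁ - P.ord a₂) with ⟨h3, -⟩ | ⟨h3, -⟩
  · rw [h3]
    nlinarith
  · rw [h3]
    nlinarith

/-- **The ambient set** given by a generically finite map. -/
theorem amb_image (hy : NormalModel y) (hn : Algebra.trdeg ℂ K = n) {i : Fin (N + 1)}
    (hi : y i ≠ 0) {ψ : K →ₐ[ℂ] M} (hfd : FiniteDimensional ψ.fieldRange M) :
    Amb n (ψ '' affS y i) := by
  classical
  have hess := hy.ess
  have hess' := ess_of_fd hess hfd
  have hn' := trdeg_of_fd hn hfd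
  refine ⟨⟨hn', hess', (fin_affS i).image _, ⟨1, one_affS hi, map_one ψ⟩, ?_⟩, fun z => ?_⟩
  · obtain ⟨C, hC⟩ := bez hy hn hi
    refine ⟨mapDegree ψ * C, fun W hW hx => ?_⟩
    obtain ⟨W', hW', rfl⟩ : ∃ W' : Multiset K, (∀ x ∈ W', x ∈ Submodule.span ℂ (affS y i)) ∧
        W = W'.map ψ := by
      clear hW
      induction W using Multiset.induction_on with
      | empty => exact ⟨0, by simp, by simp⟩
      | cons w W ih =>
        obtain ⟨W', h1, h2⟩ := ih fun x h => hx x (Multiset.mem_cons_of_mem h)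
        have h3 := hx w (Multiset.mem_cons_self _ _)
        have h4 : Submodule.span ℂ (ψ '' affS y i) =
            (Submodule.span ℂ (affS y i)).map ψ.toLinearMap := by
          rw [Submodule.map_span]
          rfl
        rw [h4] at h3
        obtain ⟨w', hw', rfl⟩ := h3
        refine ⟨w' ::ₘ W', fun x h => ?_, by rw [Multiset.map_cons, h2]; rfl⟩
        rcases Multiset.mem_cons.1 h with rfl | h
        · exact hw'
        · exact h1 x h
    rw [dm_gen]
    rw [Multiset.card_map] at hW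
    exact Nat.mul_le_mul_left _ (hC W' hW hW')
  · obtain ⟨μ, hμ⟩ := exists_isMin (k := ℂ) (fin_affS (y := y) i) ⟨1, one_affS hi, one_ne_zero⟩
    choose D h h0 hD using abs_bd hy hi hμ
    let _ : Algebra K M := ψ.toRingHom.toAlgebra
    have hst : IsScalarTower ℂ K M :=
      IsScalarTower.of_algebraMap_eq fun c => (ψ.commutes c).symm
    have hfd' : FiniteDimensional K M := finite_map hn hn'
    obtain ⟨T, hT⟩ := low_over (K := K) z
    have hsum : ∀ P : Place ℂ K, ((∑ a ∈ T, D a : ℕ) : ℤ) * μ P + ∑ a ∈ T, |P.ord a| ≤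
        P.ord (∏ a ∈ T, h a) := by
      intro P
      have key : ∀ s : Finset K, ((∑ a ∈ s, D a : ℕ) : ℤ) * μ P + ∑ a ∈ s, |P.ord a| ≤
          P.ord (∏ a ∈ s, h a) := by
        intro s
        induction s using Finset.induction_on with
        | empty => simp [P.ord_one]
        | insert a s ha ih =>
          rw [Finset.sum_insert ha, Finset.prod_insert ha, Finset.sum_insert ha,
            P.ord_mul (h0 a) (Finset.prod_ne_zero_iff.2 fun z _ => h0 z)]
          have := hD a P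
          push_cast at ih ⊢
          linarith
      exact key T
    have hprod : (∏ a ∈ T, h a) ≠ 0 := Finset.prod_ne_zero_iff.2 fun z _ => h0 z
    have hψ0 : ψ (∏ a ∈ T, h a) ≠ 0 := by rwa [Ne, map_eq_zero]
    refine ⟨∑ a ∈ T, D a, ψ (∏ a ∈ T, h a), hψ0, fun Q => ?_, fun Q => ?_⟩
    · obtain ⟨s, hs, hs0, hsμ⟩ := hμ.att (bel K Q)
      have hov := over_bel K Q
      have e1 : ∀ x : K, Q.ord (ψ x) = ram K Q * (bel K Q).ord x := hov.2
      refine ⟨ψ s, ⟨s, hs, rfl⟩, by rwa [Ne, map_eq_zero], ?_⟩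
      rw [e1, e1, hsμ]
      have h3 := hsum (bel K Q)
      have h4 : 0 ≤ ∑ a ∈ T, |(bel K Q).ord a| := Finset.sum_nonneg fun _ _ => abs_nonneg _
      have h5 : ((∑ a ∈ T, D a : ℕ) : ℤ) * μ (bel K Q) ≤ (bel K Q).ord (∏ a ∈ T, h a) := by
        linarith
      have h6 := mul_le_mul_of_nonneg_left h5 (Int.natCast_nonneg (ram K Q))
      linarith
    · obtain ⟨s, hs, hs0, hsμ⟩ := hμ.att (bel K Q)
      have hov := over_bel K Q
      have e1 : ∀ x : K, Q.ord (ψ x) = ram K Q * (bel K Q).ord x := hov.2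
      refine ⟨ψ s, ⟨s, hs, rfl⟩, by rwa [Ne, map_eq_zero], ?_⟩
      have hnp : (((∑ a ∈ T, D a : ℕ) : ℤ)) * Q.ord (ψ s) ≤ 0 := by
        rw [e1, hsμ]
        have := hμ.nonpos (one_affS hi) (bel K Q)
        have h7 : (ram K Q : ℤ) * μ (bel K Q) ≤ 0 :=
          mul_nonpos_of_nonneg_of_nonpos (Int.natCast_nonneg _) this
        exact mul_nonpos_of_nonneg_of_nonpos (Int.natCast_nonneg _) h7
      by_cases hz : z = 0
      · rw [hz, mul_zero, Q.ord_zero]
        exact hnp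
      rw [Q.ord_mul hψ0 hz, e1, e1, hsμ]
      have h3 := hsum (bel K Q)
      have h4 := hT (bel K Q) Q (ram K Q) hov
      have h6 := mul_le_mul_of_nonneg_left h3 (Int.natCast_nonneg (ram K Q))
      linarith

/-- the image of a space -/
noncomputable def fCls (hy : NormalModel y) (hn : Algebra.trdeg ℂ K = n) {i : Fin (N + 1)}
    (hi : y i ≠ 0) {S : Set M} (hS : Amb n S) (ψ : K →ₐ[ℂ] M) (A : Cls ℂ (affS y i)) :
    Cls ℂ S where
  V := A.V.map ψ.toLinearMap
  one := ⟨1, A.one, map_one ψ⟩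
  big := by
    have h1 : ((A.V.map ψ.toLinearMap : Submodule ℂ M) : Set M) = ψ '' (A.V : Set K) := by
      ext z
      constructor
      · rintro ⟨w, hw, rfl⟩
        exact ⟨w, hw, rfl⟩
      · rintro ⟨w, hw, rfl⟩
        exact ⟨w, hw, rfl⟩
    rw [h1]
    have h2 := fd_of hS.ctx.ess hn hS.ctx.hn ψ
    constructor
    intro z
    refine isAlg_trans (A := ψ.fieldRange) ?_ (Algebra.IsAlgebraic.isAlgebraic z)
    rintro _ ⟨x, rfl⟩
    exact alg_image ψ (A.big.isAlgebraic x)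
  dom := by
    obtain ⟨μ, hμ⟩ := exists_isMin (k := ℂ) hS.ctx.fin ⟨1, hS.ctx.one, one_ne_zero⟩
    obtain ⟨B, f, hf, hB⟩ := A.dom
    obtain ⟨β, h, hh, hβ⟩ := hS.fg ((fin_affS (y := y) i).image ψ)
    refine ⟨B * β, h ^ B * ψ f, mul_ne_zero (pow_ne_zero _ hh) (by rwa [Ne, map_eq_zero]), ?_⟩
    rintro _ ⟨v, hv, rfl⟩
    refine bnd_of_ge hμ hS.ctx.one fun P => ?_
    change Ge P _ (h ^ B * ψ f * ψ v)
    by_cases hv0 : f * v = 0
    · left
      rw [mul_assoc, ← map_mul, hv0, map_zero, mul_zero]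
    right
    obtain ⟨_, ⟨s, hs, rfl⟩, hs0, h1⟩ := bnd_gen hS.ctx.ess hn hS.ctx.hn ψ (hB v hv) P
    have h2 := hμ.ge (hβ (ψ s) (Submodule.subset_span ⟨s, hs, rfl⟩)) P
    have h3 := h2.resolve_left (mul_ne_zero hh hs0)
    rw [P.ord_mul hh hs0] at h3
    have hφv : ψ (f * v) ≠ 0 := by rwa [Ne, map_eq_zero]
    rw [mul_assoc, ← map_mul, P.ord_mul (pow_ne_zero _ hh) hφv, P.ord_pow]
    have h4 := mul_le_mul_of_nonneg_left h3 (show (0 : ℤ) ≤ B from Int.natCast_nonneg _)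
    push_cast
    linarith

variable {i : Fin (N + 1)} {S : Set M}

theorem fCls_mem {hy : NormalModel y} {hn : Algebra.trdeg ℂ K = n} {hi : y i ≠ 0}
    {hS : Amb n S} {ψ : K →ₐ[ℂ] M} {A : Cls ℂ (affS y i)} {v : K} (hv : v ∈ A.V) :
    ψ v ∈ (fCls hy hn hi hS ψ A).V :=
  ⟨v, hv, rfl⟩

theorem fCls_mul {hy : NormalModel y} {hn : Algebra.trdeg ℂ K = n} {hi : y i ≠ 0}
    {hS : Amb n S} {ψ : K →ₐ[ℂ] M} {hS' : (affS y i).Finite} {h1 : (1 : K) ∈ affS y i}
    {A B : Cls ℂ (affS y i)} :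
    (fCls hy hn hi hS ψ (mulCls hS' h1 A B)).V =
      (fCls hy hn hi hS ψ A).V * (fCls hy hn hi hS ψ B).V :=
  Submodule.map_mul A.V B.V ψ

theorem sel_fCls {hy : NormalModel y} {hn : Algebra.trdeg ℂ K = n} {hi : y i ≠ 0}
    {hS : Amb n S} (ψ : K →ₐ[ℂ] M) {W : Multiset K} {s : Multiset (Cls ℂ (affS y i))}
    (h : Sel W s) : Sel (W.map ψ) (s.map (fCls hy hn hi hS ψ)) := by
  induction s using Multiset.induction_on generalizing W with
  | empty =>
    have e1 : W = 0 := Multiset.card_eq_zero.1 (by rw [h.card]; rfl)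
    subst e1
    exact Multiset.Rel.zero
  | cons V s ih =>
    obtain ⟨x, W', hx, hW', rfl⟩ := sel_cons_right h
    rw [Multiset.map_cons, Multiset.map_cons]
    exact sel_cons (fCls_mem hx) (ih hW')

theorem sel_fCls' {hy : NormalModel y} {hn : Algebra.trdeg ℂ K = n} {hi : y i ≠ 0}
    {hS : Amb n S} (ψ : K →ₐ[ℂ] M) {W : Multiset M} {s : Multiset (Cls ℂ (affS y i))}
    (h : Sel W (s.map (fCls hy hn hi hS ψ))) : ∃ W', Sel W' s ∧ W = W'.map ψ := by
  induction s using Multiset.induction_on generalizing W with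
  | empty =>
    have e1 : W = 0 := Multiset.card_eq_zero.1 (by rw [h.card]; rfl)
    subst e1
    exact ⟨0, Multiset.Rel.zero, rfl⟩
  | cons V s ih =>
    rw [Multiset.map_cons] at h
    obtain ⟨_, W', ⟨x, hx, rfl⟩, hW', rfl⟩ := sel_cons_right h
    obtain ⟨W'', h1, rfl⟩ := ih hW'
    exact ⟨x ::ₘ W'', sel_cons hx h1, by rw [Multiset.map_cons]; rfl⟩

/-- **The projection formula.** -/
theorem I_fCls (hy : NormalModel y) (hn : Algebra.trdeg ℂ K = n) (hi : y i ≠ 0)
    (hS : Amb n S) (ψ : K →ₐ[ℂ] M) {s : Multiset (Cls ℂ (affS y i))} (hs : s.card = n) :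
    I (s.map (fCls hy hn hi hS ψ)) = mapDegree ψ * I s := by
  have hs' : (s.map (fCls hy hn hi hS ψ)).card = n := by rw [Multiset.card_map]; exact hs
  refine le_antisymm ?_ ?_
  · obtain ⟨W, hW, e⟩ := exists_max hS.ctx hs'
    obtain ⟨W', hW', rfl⟩ := sel_fCls' ψ hW
    rw [← e, dm_gen]
    exact Nat.mul_le_mul_left _ (le_I (ctx hy hn hi) hs hW')
  · obtain ⟨W, hW, e⟩ := exists_max (ctx hy hn hi) hs
    rw [← e, ← dm_gen]
    exact le_I hS.ctx hs' (sel_fCls ψ hW)

theorem mapDegree_pos' (hS : Amb n S) (hn : Algebra.trdeg ℂ K = n) (ψ : K →ₐ[ℂ] M) :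
    0 < mapDegree ψ := by
  have := fd_of hS.ctx.ess hn hS.ctx.hn ψ
  exact Module.finrank_pos

/-- domination of images -/
theorem I_dom_gen (hy : NormalModel y) (hn : Algebra.trdeg ℂ K = n) (hi : y i ≠ 0)
    (hS : Amb n S) (ψ : K →ₐ[ℂ] M) {V : Cls ℂ (affS y i)} {B : ℕ} {f : K} (hf : f ≠ 0)
    (hB : ∀ v ∈ V.V, Bnd ℂ (affS y i) B (f * v)) {s : Multiset (Cls ℂ S)}
    (hs : s.card + 1 = n) :
    I (fCls hy hn hi hS ψ V ::ₘ s) ≤ B * I (fCls hy hn hi hS ψ (hcls hy hi) ::ₘ s) := by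
  refine I_dom' hS.ctx (S' := ψ '' affS y i) ((fin_affS i).image _) ⟨1, one_affS hi, map_one ψ⟩
    (fun v hv => ?_) (f := ψ f) (by rwa [Ne, map_eq_zero]) (fun v hv => ?_) hs
  · have h1 : Submodule.span ℂ (ψ '' affS y i) ≤ (fCls hy hn hi hS ψ (hcls hy hi)).V := by
      rw [Submodule.span_le]
      rintro _ ⟨s, hs, rfl⟩
      exact fCls_mem (A := hcls hy hi) (Submodule.subset_span hs)
    exact h1 hv
  · obtain ⟨w, hw, rfl⟩ := hv
    have h1 := bnd_gen hS.ctx.ess hn hS.ctx.hn ψ (hB w hw)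
    rwa [map_mul] at h1

/-- the space generated by a finite set and by the hyperplane sections -/
noncomputable def genCls (hy : NormalModel y) (hn : Algebra.trdeg ℂ K = n)
    (hi : y i ≠ 0) (hS : Amb n S) (ψ : K →ₐ[ℂ] M) {T : Set M} (hT : T.Finite) : Cls ℂ S where
  V := Submodule.span ℂ (T ∪ ψ '' affS y i)
  one := Submodule.subset_span (Or.inr ⟨1, one_affS hi, map_one ψ⟩)
  big := by
    refine alg_mono ?_ (fCls hy hn hi hS ψ (hcls hy hi)).big
    refine IntermediateField.adjoin.mono _ _ _ ?_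
    rintro _ ⟨w, hw, rfl⟩
    have hw' : w ∈ Submodule.span ℂ (affS y i) := hw
    have h1 : (Submodule.span ℂ (affS y i)).map ψ.toLinearMap ≤
        Submodule.span ℂ (T ∪ ψ '' affS y i) := by
      rw [Submodule.map_span]
      exact Submodule.span_mono Set.subset_union_right
    exact h1 ⟨w, hw', rfl⟩
  dom := hS.fg (hT.union ((fin_affS i).image _))

end

end Pool.Agent.Helper45M.CR
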