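import Pool.Agent.Helper45M.CR.Deg
import Pool.Agent.N110.QDefs

/-!
Dominant rational self-maps as correspondences.
-/

set_option autoImplicit false
set_option linter.overlappingInstances false
set_option linter.unusedSectionVars false

open FF Module MvPolynomial Pool.Agent.W602.GT Pool.Agent.W603.LV
open Pool.Agent.Y172 Pool.Agent.Y191 Pool.Agent.R887 Pool.Agent.N110
open scoped ENNReal Topology

namespace Pool.Agent.Helper45M.CR

section

variable {K : Type} [Field K] [Algebra ℂ K] {N n : ℕ} {y : Fin (N + 1) → K}

theorem fin_id : FiniteDimensional (AlgHom.id ℂ K).fieldRange K :=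
  Module.Finite.of_surjective (Algebra.linearMap (AlgHom.id ℂ K).fieldRange K)
    fun x => ⟨⟨x, x, rfl⟩, rfl⟩

/-- the correspondence of a dominant rational self-map -/
noncomputable def Cor.ofMap (φ : K →ₐ[ℂ] K) : Cor K where
  L := K
  p := AlgHom.id ℂ K
  f := φ
  fin := fin_id

theorem mapDegree_id : mapDegree (AlgHom.id ℂ K) = 1 := by
  unfold mapDegree
  have h : (AlgHom.id ℂ K).fieldRange = ⊤ := by
    rw [eq_top_iff]
    intro x _
    exact ⟨x, rfl⟩
  rw [h]
  exact IntermediateField.finrank_top

theorem corDegree_id (φ : K →ₐ[ℂ] K) (i : ℕ) :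
    corDegree (AlgHom.id ℂ K) φ y n i = selfDegree φ y n i := by
  unfold corDegree selfDegree
  rw [mapDegree_id, Nat.cast_one, div_one]
  rfl

/-- **The joint dynamical degrees of a set of dominant rational self-maps.** -/
theorem corJointDegree_maps (hy : NormalModel y) (hn : Algebra.trdeg ℂ K = n)
    (S : Set (K →ₐ[ℂ] K)) {i : ℕ} (hi : i ≤ n) :
    corJointDegree (Cor.ofMap '' S) y n i = selfJointDegree S y n i := by
  unfold corJointDegree selfJointDegree
  congr 1
  funext l
  congr 1
  refine le_antisymm ?_ ?_
  · refine iSup_le fun M => iSup_le fun _ => iSup_le fun _ => iSup_le fun g => iSup_le fun hg => ?_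
    obtain ⟨hfd, hg⟩ := hg
    have key : ∃ w : List (K →ₐ[ℂ] K), w.length = l ∧ (∀ φ ∈ w, φ ∈ S) ∧
        g l = (g 0).comp w.prod := by
      clear hfd
      induction l with
      | zero => exact ⟨[], rfl, by simp, rfl⟩
      | succ l ih =>
        obtain ⟨w, hw, hwS, h1⟩ := ih fun j hj => hg j (by omega)
        obtain ⟨_, ⟨φ, hφ, rfl⟩, σ, h2, h3⟩ := hg l (Nat.lt_succ_self _)
        refine ⟨w ++ [φ], by simp [hw], fun ψ hψ => ?_, ?_⟩
        · rcases List.mem_append.1 hψ with h | h
          · exact hwS ψ h
          · rw [List.mem_singleton.1 h]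
            exact hφ
        · have h4 : σ = g l := by
            rw [h2]
            rfl
          rw [h3, h4, h1, List.prod_append, List.prod_singleton]
          rfl
    obtain ⟨w, hw, hwS, h1⟩ := key
    have h2 : g 0 = (g 0).comp (AlgHom.id ℂ K) := rfl
    have h3 : corDegree (g 0) (g l) y n i = selfDegree w.prod y n i := by
      rw [h1]
      conv_lhs => rw [h2]
      rw [← corDegree_id]
      exact corDegree_comp hy hn (p := AlgHom.id ℂ K) (f := w.prod) (σ := g 0) fin_id hfd hi
    rw [h3]
    exact le_iSup_of_le w (le_iSup_of_le hw (le_iSup_of_le hwS le_rfl))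
  · refine iSup_le fun w => iSup_le fun hw => iSup_le fun hwS => ?_
    refine le_iSup_of_le K (le_iSup_of_le _ (le_iSup_of_le _ (le_iSup_of_le
      (fun j => (w.take j).prod) (le_iSup_of_le ⟨?_, fun j hj => ?_⟩ ?_))))
    · exact fin_id
    · have hj' : j < w.length := by omega
      refine ⟨Cor.ofMap w[j], ⟨w[j], hwS _ (List.getElem_mem _), rfl⟩, (w.take j).prod, rfl, ?_⟩
      change (w.take (j + 1)).prod = (w.take j).prod * w[j]
      rw [← List.take_concat_get' w j hj', List.prod_append, List.prod_singleton]
    · rw [← corDegree_id]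
      have h1 : (w.take l).prod = w.prod := by rw [List.take_of_length_le (by omega)]
      change _ ≤ corDegree ((w.take 0).prod) ((w.take l).prod) y n i
      rw [h1]
      exact le_rfl

end

end Pool.Agent.Helper45M.CR
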