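import Pool.Agent.N110.Grow

/-!
The abstract form of the theorem on the greatest joint dynamical degree of correspondences.
-/

set_option autoImplicit false

open Multiset Filter Topology Pool.Agent.N110

namespace Pool.Agent.Helper45M.CR

/-- a space with a form and two maps to it -/
structure Obj (α : Type) where
  β : Type
  t : Multiset β → ℝ
  e₀ : α → β
  e₁ : α → β

variable {α : Type} {𝒜 : Type*}

structure Net (n : ℕ) (t : Multiset α → ℝ) (W : ℕ → Set (Obj α)) (H : α) (m : ℕ → ℝ)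
    (M : 𝒜 → ℕ → α) (D : α → ℕ → α) (ν : ℕ) (c ε C₁ : ℝ) : Prop where
  hn : 0 < n
  hν : ν ≤ n
  hc : 0 < c
  hε : 0 < ε
  hC₁ : 0 < C₁
  pos0 : 0 < t (replicate n H)
  pos : ∀ l, ∀ o ∈ W l, ∀ s : Multiset o.β, s.card = n → 0 < o.t s
  ex : ∀ l, ∀ o ∈ W l, Exch n o.t
  deg₀ : ∀ l, ∀ o ∈ W l, ∀ s : Multiset α, s.card = n → o.t (s.map o.e₀) = t s
  split : ∀ l k, ∀ o ∈ W (l + k), ∃ (e : α → o.β) (δ : ℝ), 0 < δ ∧
    (⟨o.β, o.t, o.e₀, e⟩ : Obj α) ∈ W l ∧ (⟨o.β, fun s => o.t s / δ, e, o.e₁⟩ : Obj α) ∈ W k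
  zero_id : ∀ o ∈ W 0, o.e₁ = o.e₀
  H_deg : ∀ o ∈ W 1, o.t (o.e₁ H ::ₘ replicate (n - 1) (o.e₀ H)) ≤ C₁
  m_pos : ∀ q, 0 < m q
  m_tend : Tendsto m atTop atTop
  dir : ∀ a a', ∃ a'', ∀ q, ∀ l, ∀ o ∈ W l, Le n o.t 1 (o.e₀ (M a q)) (o.e₀ (M a'' q)) ∧
    Le n o.t 1 (o.e₀ (M a' q)) (o.e₀ (M a'' q))
  M_f : ∀ l, ∀ o ∈ W l, ∀ a, ∃ a', ∀ q, Le n o.t 1 (o.e₁ (M a q)) (o.e₀ (M a' q))
  M_le : ∀ a, ∀ᶠ q in atTop, ∀ l, ∀ o ∈ W l, Le n o.t (c * m q) (o.e₀ (M a q)) (o.e₀ H)
  D_add : ∀ a v, 0 < v → ∀ l, ∀ o ∈ W l, ∀ s : Multiset o.β, s.card + 1 = n →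
    o.t (o.e₀ (D a v) ::ₘ s) ≤ o.t (o.e₀ a ::ₘ s) + v * o.t (o.e₀ H ::ₘ s)
  D_M : ∀ a v, 0 < v → Le n t 1 a (D a v)
  D_H : ∀ a v, 0 < v → ∀ s : Multiset α, s.card + 1 = n → v * t (H ::ₘ s) ≤ t (D a v ::ₘ s)
  eps : ∃ a, ∀ᶠ q in atTop, ε * m q ^ ν ≤ t (replicate ν (M a q) + replicate (n - ν) H)
  zero : ν + 1 ≤ n → ∀ a, ∀ δ : ℝ, 0 < δ → ∀ᶠ q in atTop,
    t (replicate (ν + 1) (M a q) + replicate (n - (ν + 1)) H) ≤ δ * m q ^ (ν + 1)

/-- the bound for the products -/
def Bd (n : ℕ) (H : α) (m : ℕ → ℝ) (M : 𝒜 → ℕ → α) (o : Obj α) (i p : ℕ) (B : ℝ) : Prop :=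
  ∀ a : 𝒜, ∀ᶠ q in atTop, o.t (replicate i (o.e₀ (M a q)) + (replicate p (o.e₁ H) +
    replicate (n - i - p) (o.e₀ H))) ≤ B * m q ^ i

/-- the growth is at most `Λ ^ l` for the products with at least `i` elements `M` -/
def Gr (n : ℕ) (W : ℕ → Set (Obj α)) (H : α) (m : ℕ → ℝ) (M : 𝒜 → ℕ → α) (ν i : ℕ) (Λ : ℝ) :
    Prop :=
  ∃ A : ℝ, 0 < A ∧ ∀ l, ∀ o ∈ W l, ∀ i' p, i ≤ i' → i' ≤ ν → i' + p ≤ n →
    Bd n H m M o i' p (A * Λ ^ l)

namespace Net

variable {n : ℕ} {t : Multiset α → ℝ} {W : ℕ → Set (Obj α)} {H : α} {m : ℕ → ℝ}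
  {M : 𝒜 → ℕ → α} {D : α → ℕ → α} {ν : ℕ} {c ε C₁ : ℝ}

/-- the constant for one step -/
noncomputable def b (n : ℕ) (t : Multiset α → ℝ) (H : α) (C₁ : ℝ) : ℝ :=
  4 ^ (n - 1) * C₁ / t (replicate n H) + 1

theorem b_ge (h : Net n t W H m M D ν c ε C₁) : 1 ≤ b n t H C₁ := by
  unfold b
  have h1 := h.pos0
  have h2 := h.hC₁
  have : 0 ≤ 4 ^ (n - 1) * C₁ / t (replicate n H) := by positivity
  linarith

/-- the images of `H` are bounded by multiples of `H` -/
theorem F_le (h : Net n t W H m M D ν c ε C₁) (l : ℕ) :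
    ∀ o ∈ W l, Le n o.t (b n t H C₁ ^ l) (o.e₁ H) (o.e₀ H) := by
  have hn := h.hn
  have hb := h.b_ge
  induction l with
  | zero =>
    intro o ho
    rw [h.zero_id o ho, pow_zero]
    exact Le.refl _
  | succ l ih =>
    intro o ho
    rw [add_comm] at ho
    obtain ⟨e, δ, hδ, h1, h2⟩ := h.split 1 l o ho
    have h3 := ih _ h2
    have h4 : Le n o.t (b n t H C₁ ^ l) (o.e₁ H) (e H) := by
      intro s hs
      have h5 := h3 s hs
      change o.t _ / δ ≤ _ * (o.t _ / δ) at h5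
      rw [div_le_iff₀ hδ] at h5
      have e1 : b n t H C₁ ^ l * (o.t (e H ::ₘ s) / δ) * δ = b n t H C₁ ^ l * o.t (e H ::ₘ s) := by
        field_simp
      rw [e1] at h5
      exact h5
    have h5 : Le n o.t (b n t H C₁) (e H) (o.e₀ H) := by
      intro s hs
      have hs' : s.card = n - 1 := by omega
      have k1 := rkt1 (h.pos 1 _ h1) (h.ex 1 _ h1) (o.e₀ H) (e H) s 0
        (by rw [card_zero]; omega)
      change o.t _ * o.t _ ≤ _ * (o.t _ * o.t _) at k1
      rw [hs', add_zero, add_zero, add_zero, show n - 1 + 1 = n by omega] at k1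
      have k2 : o.t (replicate n (o.e₀ H)) = t (replicate n H) := by
        have := h.deg₀ 1 _ h1 (replicate n H) (card_replicate _ _)
        rw [map_replicate] at this
        exact this
      have k3 : o.t (e H ::ₘ replicate (n - 1) (o.e₀ H)) ≤ C₁ := h.H_deg _ h1
      rw [k2] at k1
      have hH := h.pos0
      have k4 : 0 < o.t (o.e₀ H ::ₘ s) := h.pos 1 _ h1 _ (by rw [card_cons]; omega)
      have k5 : o.t (e H ::ₘ s) ≤ 4 ^ (n - 1) * C₁ / t (replicate n H) * o.t (o.e₀ H ::ₘ s) := by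
        rw [div_mul_eq_mul_div, le_div_iff₀ hH]
        refine k1.trans ?_
        rw [mul_assoc]
        refine mul_le_mul_of_nonneg_left ?_ (by positivity)
        exact mul_le_mul_of_nonneg_right k3 k4.le
      refine k5.trans ?_
      unfold b
      nlinarith
    have h6 := h4.trans (by positivity) h5
    rw [← pow_succ] at h6
    exact h6

theorem bd_mono (h : Net n t W H m M D ν c ε C₁) {o : Obj α} {i p : ℕ} {B B' : ℝ}
    (hB : Bd n H m M o i p B) (hle : B ≤ B') : Bd n H m M o i p B' := by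
  intro a
  filter_upwards [hB a] with q hq
  exact hq.trans (mul_le_mul_of_nonneg_right hle (pow_nonneg (h.m_pos q).le _))

/-- products with `H` only -/
theorem deg_H (h : Net n t W H m M D ν c ε C₁) {l : ℕ} {o : Obj α} (ho : o ∈ W l) {p : ℕ}
    (hp : p ≤ n) : o.t (replicate p (o.e₁ H) + replicate (n - p) (o.e₀ H)) ≤
      b n t H C₁ ^ (l * p) * t (replicate n H) := by
  have hb := h.b_ge
  have h1 := (h.F_le l o ho).rep (by positivity) p (replicate (n - p) (o.e₀ H))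
    (by rw [card_replicate]; omega)
  have h2 := h.deg₀ l o ho (replicate n H) (card_replicate _ _)
  rw [map_replicate] at h2
  rw [← replicate_add, show p + (n - p) = n by omega, h2, ← pow_mul] at h1
  exact h1

/-- a bound by the products with `H` only -/
theorem bd_H (h : Net n t W H m M D ν c ε C₁) {l : ℕ} {o : Obj α} (ho : o ∈ W l) {i p : ℕ}
    (hip : i + p ≤ n) {B : ℝ} (hB : o.t (replicate p (o.e₁ H) + replicate (n - p) (o.e₀ H)) ≤ B) :
    Bd n H m M o i p (c ^ i * B) := by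
  intro a
  filter_upwards [h.M_le a] with q hq
  have h1 := (hq l o ho).rep (mul_pos h.hc (h.m_pos q)).le i (replicate p (o.e₁ H) +
    replicate (n - i - p) (o.e₀ H)) (by rw [card_add, card_replicate, card_replicate]; omega)
  have e1 : replicate i (o.e₀ H) + (replicate p (o.e₁ H) + replicate (n - i - p) (o.e₀ H)) =
      replicate p (o.e₁ H) + replicate (n - p) (o.e₀ H) := by
    rw [add_left_comm, ← replicate_add]
    congr 2
    omega
  rw [e1] at h1
  have h2 := h.hc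
  have h3 := h.m_pos q
  refine h1.trans ((mul_le_mul_of_nonneg_left hB (by positivity)).trans (le_of_eq ?_))
  rw [mul_pow]
  ring

/-- the products with many elements `M` are small -/
theorem bd_zero (h : Net n t W H m M D ν c ε C₁) {l : ℕ} {o : Obj α}
    (ho : o ∈ W l) {i p : ℕ} (hip : i + p ≤ n) (hi : ν < i)
    {δ : ℝ} (hδ : 0 < δ) : Bd n H m M o i p δ := by
  intro a
  obtain ⟨k, rfl⟩ := Nat.exists_eq_add_of_lt hi
  have hb := h.b_ge
  have hc := h.hc
  obtain ⟨C, hC⟩ : ∃ C : ℝ, C = c ^ k * (b n t H C₁ ^ l) ^ p := ⟨_, rfl⟩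
  have hC0 : 0 < C := by
    rw [hC]
    positivity
  have hν : ν + 1 ≤ n := by omega
  filter_upwards [h.M_le a, h.zero hν a (δ / C) (div_pos hδ hC0)] with q hq hq2
  have h1 := (hq l o ho).rep (mul_pos h.hc (h.m_pos q)).le k (replicate (ν + 1) (o.e₀ (M a q)) +
    (replicate p (o.e₁ H) + replicate (n - (ν + k + 1) - p) (o.e₀ H)))
    (by rw [card_add, card_add, card_replicate, card_replicate, card_replicate]; omega)
  have h2 := (h.F_le l o ho).rep (by positivity) p (replicate k (o.e₀ H) +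
    (replicate (ν + 1) (o.e₀ (M a q)) + replicate (n - (ν + k + 1) - p) (o.e₀ H)))
    (by rw [card_add, card_add, card_replicate, card_replicate, card_replicate]; omega)
  have e0 : replicate k (o.e₀ (M a q)) + (replicate (ν + 1) (o.e₀ (M a q)) +
      (replicate p (o.e₁ H) + replicate (n - (ν + k + 1) - p) (o.e₀ H))) =
      replicate (ν + k + 1) (o.e₀ (M a q)) +
      (replicate p (o.e₁ H) + replicate (n - (ν + k + 1) - p) (o.e₀ H)) := by
    rw [← add_assoc, ← replicate_add]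
    congr 2
    omega
  have e1 : replicate k (o.e₀ H) + (replicate (ν + 1) (o.e₀ (M a q)) +
      (replicate p (o.e₁ H) + replicate (n - (ν + k + 1) - p) (o.e₀ H))) =
      replicate p (o.e₁ H) + (replicate k (o.e₀ H) + (replicate (ν + 1) (o.e₀ (M a q)) +
        replicate (n - (ν + k + 1) - p) (o.e₀ H))) := by
    rw [add_left_comm (replicate (ν + 1) (o.e₀ (M a q))), add_left_comm (replicate k (o.e₀ H))]
  have e2 : replicate p (o.e₀ H) + (replicate k (o.e₀ H) + (replicate (ν + 1) (o.e₀ (M a q)) +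
      replicate (n - (ν + k + 1) - p) (o.e₀ H))) =
      (replicate (ν + 1) (M a q) + replicate (n - (ν + 1)) H).map o.e₀ := by
    rw [add_left_comm (replicate k (o.e₀ H)), add_left_comm (replicate p (o.e₀ H)),
      ← replicate_add, ← replicate_add, Multiset.map_add, map_replicate, map_replicate]
    congr 2
    omega
  rw [e0, e1] at h1
  rw [e2, h.deg₀ l o ho _ (by rw [card_add, card_replicate, card_replicate]; omega)] at h2
  have hm := h.m_pos q
  calc _ ≤ (c * m q) ^ k * _ := h1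
    _ ≤ (c * m q) ^ k * ((b n t H C₁ ^ l) ^ p *
        t (replicate (ν + 1) (M a q) + replicate (n - (ν + 1)) H)) :=
      mul_le_mul_of_nonneg_left h2 (by positivity)
    _ ≤ (c * m q) ^ k * ((b n t H C₁ ^ l) ^ p * (δ / C * m q ^ (ν + 1))) := by gcongr
    _ = δ * m q ^ (ν + k + 1) := by
      have hcn : c ≠ 0 := hc.ne'
      have hbn : b n t H C₁ ≠ 0 := by linarith
      rw [hC, mul_pow]
      have e3 : m q ^ (ν + k + 1) = m q ^ k * m q ^ (ν + 1) := by
        rw [← pow_add]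
        congr 1
        omega
      rw [e3]
      field_simp

/-- the lower bound for the power of `D` -/
theorem low (h : Net n t W H m M D ν c ε C₁) {v : ℕ} {x : α} {mq : ℝ} (hv : 0 < v)
    (heps : ε * mq ^ ν ≤ t (replicate ν x + replicate (n - ν) H)) :
    (v : ℝ) ^ (n - ν) * (ε * mq ^ ν) ≤ t (replicate n (D x v)) := by
  have hν := h.hν
  have hv' : (0 : ℝ) < v := by exact_mod_cast hv
  have hHD : Le n t (1 / v) H (D x v) := by
    intro s hs
    have h1 := h.D_H x v hv s hs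
    rw [one_div, inv_mul_eq_div, le_div_iff₀ hv']
    linarith
  have h1 := hHD.rep (by positivity) (n - ν) (replicate ν x)
    (by rw [card_replicate]; omega)
  have h2 := (h.D_M x v hv).rep zero_le_one ν (replicate (n - ν) (D x v))
    (by rw [card_replicate]; omega)
  have e2 : replicate (n - ν) (D x v) + replicate ν x = replicate ν x +
      replicate (n - ν) (D x v) := add_comm _ _
  have e3 : replicate ν (D x v) + replicate (n - ν) (D x v) = replicate n (D x v) := by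
    rw [← replicate_add]
    congr 1
    omega
  rw [add_comm] at heps
  rw [e2] at h1
  rw [e3, one_pow, one_mul] at h2
  rw [one_div_pow, one_div, inv_mul_eq_div, le_div_iff₀ (by positivity)] at h1
  calc (v : ℝ) ^ (n - ν) * (ε * mq ^ ν)
      ≤ (v : ℝ) ^ (n - ν) * t (replicate (n - ν) H + replicate ν x) :=
        mul_le_mul_of_nonneg_left heps (by positivity)
    _ = t (replicate (n - ν) H + replicate ν x) * (v : ℝ) ^ (n - ν) := mul_comm _ _
    _ ≤ _ := h1
    _ ≤ _ := h2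

/-- **The main inequality.** -/
theorem step (h : Net n t W H m M D ν c ε C₁) {i p l k : ℕ} (hip : i + p ≤ n) {x S₁ S₂ : ℝ}
    (hx1 : 1 ≤ x) (hS₁ : 0 < S₁) (hS₂ : 0 < S₂) {o : Obj α} {e : α → o.β} {δ : ℝ} (hδ : 0 < δ)
    (h1 : (⟨o.β, o.t, o.e₀, e⟩ : Obj α) ∈ W l)
    (h2 : (⟨o.β, fun s => o.t s / δ, e, o.e₁⟩ : Obj α) ∈ W k)
    (H2 : ∀ a, a + p ≤ n → Bd n H m M ⟨o.β, fun s => o.t s / δ, e, o.e₁⟩ a p (S₁ / x ^ a))
    (H1 : ∀ j ≤ p, Bd n H m M ⟨o.β, o.t, o.e₀, e⟩ (i + j) (p - j) (S₂ / x ^ j)) :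
    Bd n H m M o i p (4 ^ (n * n + n) / ε * (S₁ * S₂ / x ^ ν)) := by
  classical
  have hν := h.hν
  have hε := h.hε
  have hx0 : 0 < x := by linarith
  have hpos : ∀ s : Multiset o.β, s.card = n → 0 < o.t s :=
    h.pos l (⟨o.β, o.t, o.e₀, e⟩ : Obj α) h1
  have hex : Exch n o.t := h.ex l (⟨o.β, o.t, o.e₀, e⟩ : Obj α) h1
  intro a0
  obtain ⟨ae, hae⟩ := h.eps
  obtain ⟨a1', ha1'⟩ := h.M_f l _ h1 ae
  obtain ⟨a2, ha2⟩ := h.dir a1' a0
  obtain ⟨g, hg⟩ : ∃ g, g = n - p := ⟨_, rfl⟩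
  have ev1 : ∀ᶠ q in atTop, ∀ a ∈ Finset.range (g + 1),
      o.t (replicate a (e (M ae q)) + (replicate p (o.e₁ H) +
        replicate (n - a - p) (e H))) / δ ≤ S₁ / x ^ a * m q ^ a := by
    rw [Filter.eventually_all_finset]
    intro a ha
    rw [Finset.mem_range] at ha
    exact H2 a (by omega) ae
  have ev2 : ∀ᶠ q in atTop, ∀ j ∈ Finset.range (p + 1),
      o.t (replicate (i + j) (o.e₀ (M a2 q)) + (replicate (p - j) (e H) +
        replicate (n - (i + j) - (p - j)) (o.e₀ H))) ≤ S₂ / x ^ j * m q ^ (i + j) := by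
    rw [Filter.eventually_all_finset]
    intro j hj
    rw [Finset.mem_range] at hj
    exact H1 j (by omega) a2
  have ev3 : ∀ᶠ q in atTop, x ≤ m q := h.m_tend.eventually_ge_atTop x
  filter_upwards [ev1, ev2, ev3, hae] with q k1 k2 k3 k4
  have hm := h.m_pos q
  obtain ⟨mq, hmq⟩ : ∃ mq, mq = m q := ⟨_, rfl⟩
  rw [← hmq] at k1 k2 k3 hm k4 ⊢
  obtain ⟨v, hv⟩ : ∃ v : ℕ, v = ⌈mq / x⌉₊ := ⟨_, rfl⟩
  have hmx : 1 ≤ mq / x := by rwa [le_div_iff₀ hx0, one_mul]
  have hv1 : mq / x ≤ v := by rw [hv]; exact Nat.le_ceil _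
  have hv2 : (v : ℝ) ≤ 2 * (mq / x) := by
    have := Nat.ceil_lt_add_one (show 0 ≤ mq / x by positivity)
    rw [← hv] at this
    linarith
  have hvp : (0 : ℝ) < v := by linarith
  have hvn : 0 < v := by exact_mod_cast hvp
  obtain ⟨z, hz⟩ : ∃ z, z = M ae q := ⟨_, rfl⟩
  rw [← hz] at k1 k4
  obtain ⟨D0, hD0⟩ : ∃ D0, D0 = D z v := ⟨_, rfl⟩
  -- the lower bound
  have hlow := h.low hvn k4
  rw [← hD0] at hlow
  have hdeg : o.t (replicate n (e D0)) = δ * t (replicate n D0) := by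
    have k5 := h.deg₀ k _ h2 (replicate n D0) (card_replicate _ _)
    rw [map_replicate] at k5
    change o.t _ / δ = _ at k5
    rw [div_eq_iff hδ.ne'] at k5
    rw [k5, mul_comm]
  -- the reverse inequality
  obtain ⟨G, hG⟩ : ∃ G : Multiset o.β, G = replicate i (o.e₀ (M a0 q)) +
      replicate (n - i - p) (o.e₀ H) := ⟨_, rfl⟩
  have hGc : G.card = g := by
    rw [hG, card_add, card_replicate, card_replicate]
    omega
  have hrkt := rkt hpos hex (e D0) (replicate p (o.e₁ H)) G 0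
    (by rw [card_zero, card_replicate]; omega)
  simp only [card_replicate, hGc, add_zero] at hrkt
  have epg : p + g = n := by omega
  rw [epg, hdeg] at hrkt
  -- the first factor
  have f1 : o.t (replicate p (o.e₁ H) + replicate g (e D0)) ≤
      δ * (2 ^ g * (2 ^ g * (mq / x) ^ g * S₁)) := by
    have e3 : replicate p (o.e₁ H) + replicate g (e D0) =
      replicate g (e D0) + replicate p (o.e₁ H) := add_comm _ _
    rw [e3, hD0]
    have hadd : ∀ s : Multiset o.β, s.card + 1 = n →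
        o.t (e (D z v) ::ₘ s) ≤ o.t (e z ::ₘ s) + v * o.t (e H ::ₘ s) := by
      intro s hs
      have k5 := h.D_add z v hvn k _ h2 s hs
      change o.t _ / δ ≤ o.t _ / δ + v * (o.t _ / δ) at k5
      have e4 : o.t (e z ::ₘ s) / δ + v * (o.t (e H ::ₘ s) / δ) =
          (o.t (e z ::ₘ s) + v * o.t (e H ::ₘ s)) / δ := by ring
      rw [e4, div_le_div_iff_of_pos_right hδ] at k5
      exact k5
    have k6 := expand hvp hadd g (replicate p (o.e₁ H)) (δ * (2 ^ g * (mq / x) ^ g * S₁))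
      (by simp only [card_replicate]; omega) (by
        intro a ha
        have e4 : replicate a (e z) + (replicate (g - a) (e H) + replicate p (o.e₁ H)) =
            replicate a (e z) + (replicate p (o.e₁ H) + replicate (n - a - p) (e H)) := by
          have e5 : n - a - p = g - a := by omega
          rw [e5, add_comm (replicate (g - a) (e H))]
        rw [e4]
        have b2 := k1 a (Finset.mem_range.2 (by omega))
        rw [div_le_iff₀ hδ] at b2
        have b3 : (v : ℝ) ^ (g - a) ≤ (2 * (mq / x)) ^ (g - a) :=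
          pow_le_pow_left₀ hvp.le hv2 _
        have b4 : (v : ℝ) ^ (g - a) * o.t (replicate a (e z) + (replicate p (o.e₁ H) +
              replicate (n - a - p) (e H))) ≤
            (2 * (mq / x)) ^ (g - a) * (S₁ / x ^ a * mq ^ a * δ) := by
          refine mul_le_mul b3 b2 ?_ (by positivity)
          exact (hpos _ (by simp only [card_add, card_replicate]; omega)).le
        refine b4.trans ?_
        have b5 : (2 * (mq / x)) ^ (g - a) * (S₁ / x ^ a * mq ^ a * δ) =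
            2 ^ (g - a) * (δ * ((mq / x) ^ g * S₁)) := by
          have b6 : (mq / x) ^ g = (mq / x) ^ (g - a) * (mq ^ a / x ^ a) := by
            rw [← div_pow, ← pow_add]
            congr 1
            omega
          rw [b6, mul_pow]
          field_simp
        rw [b5]
        have b7 : (2 : ℝ) ^ (g - a) ≤ 2 ^ g := pow_le_pow_right₀ (by norm_num) (by omega)
        have b8 := mul_le_mul_of_nonneg_right b7
          (show 0 ≤ δ * ((mq / x) ^ g * S₁) by positivity)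
        linarith)
    linarith
  -- the second factor
  have f2 : o.t (G + replicate p (e D0)) ≤ 2 ^ p * (2 ^ p * (mq / x) ^ p * mq ^ i * S₂) := by
    have e3 : G + replicate p (e D0) = replicate p (e D0) + G := add_comm _ _
    rw [e3, hD0]
    have hadd : ∀ s : Multiset o.β, s.card + 1 = n →
        o.t (e (D z v) ::ₘ s) ≤ o.t (e z ::ₘ s) + v * o.t (e H ::ₘ s) := by
      intro s hs
      have k5 := h.D_add z v hvn k _ h2 s hs
      change o.t _ / δ ≤ o.t _ / δ + v * (o.t _ / δ) at k5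
      have e4 : o.t (e z ::ₘ s) / δ + v * (o.t (e H ::ₘ s) / δ) =
          (o.t (e z ::ₘ s) + v * o.t (e H ::ₘ s)) / δ := by ring
      rw [e4, div_le_div_iff_of_pos_right hδ] at k5
      exact k5
    refine expand hvp hadd p G _ (by rw [hGc]; omega) ?_
    intro j hj
    -- `e z ≤ e₀ (M a2 q)` and `e₀ (M a0 q) ≤ e₀ (M a2 q)`
    have c1 : Le n o.t 1 (e z) (o.e₀ (M a2 q)) := by
      have d1 : Le n o.t 1 (e (M ae q)) (o.e₀ (M a1' q)) := ha1' q
      have d2 : Le n o.t 1 (o.e₀ (M a1' q)) (o.e₀ (M a2 q)) := (ha2 q l _ h1).1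
      have d3 := d1.trans zero_le_one d2
      rwa [one_mul, ← hz] at d3
    have c2 : Le n o.t 1 (o.e₀ (M a0 q)) (o.e₀ (M a2 q)) := (ha2 q l _ h1).2
    have b1 := c1.rep zero_le_one j (replicate (p - j) (e H) + G)
      (by rw [card_add, card_replicate, hGc]; omega)
    rw [one_pow, one_mul] at b1
    have b2 := c2.rep zero_le_one i (replicate j (o.e₀ (M a2 q)) + (replicate (p - j) (e H) +
      replicate (n - i - p) (o.e₀ H))) (by simp only [card_add, card_replicate]; omega)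
    rw [one_pow, one_mul] at b2
    have e4 : replicate j (o.e₀ (M a2 q)) + (replicate (p - j) (e H) + G) =
        replicate i (o.e₀ (M a0 q)) + (replicate j (o.e₀ (M a2 q)) + (replicate (p - j) (e H) +
          replicate (n - i - p) (o.e₀ H))) := by
      rw [hG]
      abel
    have e5 : replicate i (o.e₀ (M a2 q)) + (replicate j (o.e₀ (M a2 q)) +
        (replicate (p - j) (e H) + replicate (n - i - p) (o.e₀ H))) =
        replicate (i + j) (o.e₀ (M a2 q)) + (replicate (p - j) (e H) +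
        replicate (n - (i + j) - (p - j)) (o.e₀ H)) := by
      have e6 : n - (i + j) - (p - j) = n - i - p := by omega
      rw [e6, replicate_add]
      abel
    rw [e4] at b1
    rw [e5] at b2
    have b3 := b1.trans (b2.trans (k2 j (Finset.mem_range.2 (by omega))))
    have b4 : (v : ℝ) ^ (p - j) ≤ (2 * (mq / x)) ^ (p - j) :=
      pow_le_pow_left₀ hvp.le hv2 _
    have b5 : (v : ℝ) ^ (p - j) * o.t (replicate j (e z) + (replicate (p - j) (e H) + G)) ≤
        (2 * (mq / x)) ^ (p - j) * (S₂ / x ^ j * mq ^ (i + j)) := by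
      refine mul_le_mul b4 b3 ?_ (by positivity)
      exact (hpos _ (by simp only [card_add, card_replicate, hGc]; omega)).le
    refine b5.trans ?_
    have b6 : (2 * (mq / x)) ^ (p - j) * (S₂ / x ^ j * mq ^ (i + j)) =
        2 ^ (p - j) * ((mq / x) ^ p * mq ^ i * S₂) := by
      have b7 : (mq / x) ^ p = (mq / x) ^ (p - j) * (mq ^ j / x ^ j) := by
        rw [← div_pow, ← pow_add]
        congr 1
        omega
      rw [b7, mul_pow, pow_add]
      field_simp
    rw [b6]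
    have b7 : (2 : ℝ) ^ (p - j) ≤ 2 ^ p := pow_le_pow_right₀ (by norm_num) (by omega)
    have b8 := mul_le_mul_of_nonneg_right b7
      (show 0 ≤ (mq / x) ^ p * mq ^ i * S₂ by positivity)
    linarith
  -- conclusion
  have hgoal : replicate i (o.e₀ (M a0 q)) + (replicate p (o.e₁ H) +
      replicate (n - i - p) (o.e₀ H)) = replicate p (o.e₁ H) + G := by
    rw [hG]
    abel
  rw [hgoal]
  obtain ⟨T, hT⟩ : ∃ T, T = o.t (replicate p (o.e₁ H) + G) := ⟨_, rfl⟩
  have hTp : 0 < T := by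
    rw [hT]
    exact hpos _ (by rw [card_add, card_replicate, hGc]; omega)
  rw [← hT] at hrkt ⊢
  have c0 : T * (δ * ((v : ℝ) ^ (n - ν) * (ε * mq ^ ν))) ≤ 4 ^ (n * g) *
      (δ * (2 ^ g * (2 ^ g * (mq / x) ^ g * S₁)) *
        (2 ^ p * (2 ^ p * (mq / x) ^ p * mq ^ i * S₂))) := by
    have d1 : δ * ((v : ℝ) ^ (n - ν) * (ε * mq ^ ν)) ≤ δ * t (replicate n D0) :=
      mul_le_mul_of_nonneg_left hlow hδ.le
    refine (mul_le_mul_of_nonneg_left d1 hTp.le).trans (hrkt.trans ?_)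
    refine mul_le_mul_of_nonneg_left ?_ (by positivity)
    refine mul_le_mul f1 f2 ?_ (by positivity)
    exact (hpos _ (by simp only [card_add, card_replicate, hGc]; omega)).le
  have c1 : T * ((v : ℝ) ^ (n - ν) * (ε * mq ^ ν)) ≤ 4 ^ (n * g) *
      ((2 ^ g * (2 ^ g * (mq / x) ^ g * S₁)) *
        (2 ^ p * (2 ^ p * (mq / x) ^ p * mq ^ i * S₂))) := by
    refine le_of_mul_le_mul_left ?_ hδ
    calc δ * (T * ((v : ℝ) ^ (n - ν) * (ε * mq ^ ν))) =
        T * (δ * ((v : ℝ) ^ (n - ν) * (ε * mq ^ ν))) := by ring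
      _ ≤ _ := c0
      _ = _ := by ring
  have c2 : T * ((mq / x) ^ (n - ν) * (ε * mq ^ ν)) ≤ T * ((v : ℝ) ^ (n - ν) * (ε * mq ^ ν)) := by
    have := pow_le_pow_left₀ (show 0 ≤ mq / x by positivity) hv1 (n - ν)
    gcongr
  have c3 : (4 : ℝ) ^ (n * g) * ((2 ^ g * (2 ^ g * (mq / x) ^ g * S₁)) *
        (2 ^ p * (2 ^ p * (mq / x) ^ p * mq ^ i * S₂))) ≤
      4 ^ (n * n + n) * ((mq / x) ^ n * mq ^ i * (S₁ * S₂)) := by
    have d1 : (4 : ℝ) ^ (n * g) * ((2 ^ g * (2 ^ g * (mq / x) ^ g * S₁)) *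
        (2 ^ p * (2 ^ p * (mq / x) ^ p * mq ^ i * S₂))) =
        4 ^ (n * g + (g + p)) * ((mq / x) ^ n * mq ^ i * (S₁ * S₂)) := by
      have d2 : (4 : ℝ) ^ (n * g + (g + p)) = 4 ^ (n * g) * ((2 ^ g * 2 ^ g) * (2 ^ p * 2 ^ p)) := by
        rw [pow_add, pow_add, ← mul_pow, ← mul_pow]
        norm_num
      have d3 : (mq / x) ^ n = (mq / x) ^ g * (mq / x) ^ p := by
        rw [← pow_add]
        congr 1
        omega
      rw [d2, d3]
      ring
    rw [d1]
    refine mul_le_mul_of_nonneg_right (pow_le_pow_right₀ (by norm_num) ?_) (by positivity)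
    have : n * g ≤ n * n := Nat.mul_le_mul_left _ (by omega)
    omega
  have c4 := c2.trans (c1.trans c3)
  -- division
  have e1 : (mq / x) ^ n = (mq / x) ^ (n - ν) * (mq ^ ν / x ^ ν) := by
    rw [← div_pow, ← pow_add]
    congr 1
    omega
  have c5 : ((mq / x) ^ (n - ν) * mq ^ ν) * (T * ε) ≤ ((mq / x) ^ (n - ν) * mq ^ ν) *
      (4 ^ (n * n + n) * (mq ^ i * (S₁ * S₂) / x ^ ν)) := by
    calc ((mq / x) ^ (n - ν) * mq ^ ν) * (T * ε)
        = T * ((mq / x) ^ (n - ν) * (ε * mq ^ ν)) := by ring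
      _ ≤ 4 ^ (n * n + n) * ((mq / x) ^ n * mq ^ i * (S₁ * S₂)) := c4
      _ = _ := by
          rw [e1]
          ring
  have c6 := le_of_mul_le_mul_left c5 (by positivity)
  have c7 : (4 : ℝ) ^ (n * n + n) / ε * (S₁ * S₂ / x ^ ν) * mq ^ i =
      (4 ^ (n * n + n) * (mq ^ i * (S₁ * S₂) / x ^ ν)) / ε := by ring
  rw [c7, le_div_iff₀ hε]
  exact c6

theorem gr_mono (h : Net n t W H m M D ν c ε C₁) {i : ℕ} {Λ Λ' : ℝ} (hΛ : 0 < Λ) (hle : Λ ≤ Λ')
    (hG : Gr n W H m M ν i Λ) : Gr n W H m M ν i Λ' := by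
  obtain ⟨A, hA, hG⟩ := hG
  refine ⟨A, hA, fun l o ho i' p h1 h2 h3 => h.bd_mono (hG l o ho i' p h1 h2 h3) ?_⟩
  exact mul_le_mul_of_nonneg_left (pow_le_pow_left₀ hΛ.le hle l) hA.le

/-- there is some bound for the growth -/
theorem gr_exists (h : Net n t W H m M D ν c ε C₁) : ∃ Λ, 1 ≤ Λ ∧ Gr n W H m M ν 0 Λ := by
  have hb := h.b_ge
  have hc := h.hc
  have hH := h.pos0
  refine ⟨b n t H C₁ ^ n, one_le_pow₀ hb, (1 + c) ^ n * t (replicate n H), by positivity,
    fun l o ho i p _ hi hip => ?_⟩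
  have h1 := h.bd_H ho hip (h.deg_H ho (by omega : p ≤ n))
  refine h.bd_mono h1 ?_
  have h2 : c ^ i ≤ (1 + c) ^ n := by
    calc c ^ i ≤ (1 + c) ^ i := pow_le_pow_left₀ hc.le (by linarith) i
      _ ≤ (1 + c) ^ n := pow_le_pow_right₀ (by linarith) (by omega)
  have h3 : b n t H C₁ ^ (l * p) ≤ (b n t H C₁ ^ n) ^ l := by
    rw [← pow_mul, mul_comm n l]
    exact pow_le_pow_right₀ hb (Nat.mul_le_mul_left _ (by omega))
  calc c ^ i * (b n t H C₁ ^ (l * p) * t (replicate n H)) ≤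
        (1 + c) ^ n * ((b n t H C₁ ^ n) ^ l * t (replicate n H)) := by gcongr
    _ = (1 + c) ^ n * t (replicate n H) * (b n t H C₁ ^ n) ^ l := by ring

/-- **The improvement of the bound for the growth.** -/
theorem gr_step (h : Net n t W H m M D ν c ε C₁) {a : ℕ} (ha : a < ν) {Λ Λ' θ : ℝ}
    (hΛ' : 0 < Λ') (hθ : 1 < θ) (hle : θ ^ ν * Λ' ≤ Λ) (hG' : Gr n W H m M ν (a + 1) Λ')
    (hG : Gr n W H m M ν 0 Λ) : Gr n W H m M ν a (Λ / √θ) := by
  classical
  have hν := h.hν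
  have hε := h.hε
  have hθ0 : 0 < θ := by linarith
  have hθν : 1 ≤ θ ^ ν := one_le_pow₀ hθ.le
  have hΛ : 0 < Λ := lt_of_lt_of_le (by positivity) hle
  have hs0 : 0 < √θ := Real.sqrt_pos.2 hθ0
  have hs1 : 1 ≤ √θ := Real.one_le_sqrt.2 hθ.le
  have hss : √θ * √θ = θ := Real.mul_self_sqrt hθ0.le
  obtain ⟨A', hA', hG'⟩ := hG'
  obtain ⟨A, hA, hG⟩ := hG
  obtain ⟨C, hC⟩ : ∃ C : ℝ, C = 4 ^ (n * n + n) / ε := ⟨_, rfl⟩
  have hCp : 0 < C := by rw [hC]; positivity
  refine ⟨A' + C * (A + A') ^ 2 * √θ, by positivity, fun N o ho i p h1 h2 h3 => ?_⟩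
  have hr : 0 < (Λ / √θ) ^ N := by positivity
  rcases Nat.eq_or_lt_of_le h1 with rfl | h4
  swap
  · refine h.bd_mono (hG' N o ho i p h4 h2 h3) ?_
    have k1 : Λ' ≤ Λ / √θ := by
      rw [le_div_iff₀ hs0]
      have k2 : √θ ≤ θ ^ ν := by
        calc √θ ≤ √θ * √θ := le_mul_of_one_le_left hs0.le hs1
          _ = θ := hss
          _ = θ ^ 1 := (pow_one θ).symm
          _ ≤ θ ^ ν := pow_le_pow_right₀ hθ.le (by omega)
      calc Λ' * √θ ≤ Λ' * θ ^ ν := mul_le_mul_of_nonneg_left k2 hΛ'.le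
        _ = θ ^ ν * Λ' := mul_comm _ _
        _ ≤ Λ := hle
    have k2 := pow_le_pow_left₀ hΛ'.le k1 N
    have k3 : 0 ≤ C * (A + A') ^ 2 * √θ * (Λ / √θ) ^ N := by positivity
    have k4 := mul_le_mul_of_nonneg_left k2 hA'.le
    linarith
  obtain ⟨k, hk⟩ : ∃ k, k = N / 2 := ⟨_, rfl⟩
  obtain ⟨l, hl⟩ : ∃ l, l = N - k := ⟨_, rfl⟩
  have elk : l + k = N := by omega
  have hkl : k ≤ l := by omega
  have hk2 : N ≤ 2 * k + 1 := by omega
  obtain ⟨x, hx⟩ : ∃ x : ℝ, x = θ ^ k := ⟨_, rfl⟩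
  have hx1 : 1 ≤ x := by rw [hx]; exact one_le_pow₀ hθ.le
  have hx0 : 0 < x := by linarith
  rw [← elk] at ho
  obtain ⟨e, δ, hδ, ho1, ho2⟩ := h.split l k o ho
  have hxk : x ^ ν * Λ' ^ k ≤ Λ ^ k := by
    rw [hx, ← pow_mul, mul_comm k ν, pow_mul, ← mul_pow]
    exact pow_le_pow_left₀ (by positivity) hle k
  have hxl : x ^ ν * Λ' ^ l ≤ Λ ^ l := by
    have k1 : x ^ ν ≤ (θ ^ ν) ^ l := by
      rw [hx, ← pow_mul, mul_comm k ν, pow_mul]
      exact pow_le_pow_right₀ hθν hkl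
    calc x ^ ν * Λ' ^ l ≤ (θ ^ ν) ^ l * Λ' ^ l := mul_le_mul_of_nonneg_right k1 (by positivity)
      _ = (θ ^ ν * Λ') ^ l := by rw [mul_pow]
      _ ≤ Λ ^ l := pow_le_pow_left₀ (by positivity) hle l
  have hst := h.step (i := a) (p := p) (l := l) (k := k) (by omega) hx1
    (S₁ := (A + A') * x ^ a * Λ ^ k) (S₂ := (A + A') * Λ ^ l) (by positivity) (by positivity)
    hδ ho1 ho2 ?_ ?_
  · refine h.bd_mono hst ?_
    rw [← hC]
    have k1 : x ^ ν = x ^ a * x ^ (ν - a) := by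
      rw [← pow_add]
      congr 1
      omega
    have k2 : (A + A') * x ^ a * Λ ^ k * ((A + A') * Λ ^ l) / x ^ ν =
        (A + A') ^ 2 * Λ ^ N / x ^ (ν - a) := by
      rw [k1, ← elk, pow_add]
      field_simp
    have k3 : √θ ^ N ≤ √θ * x ^ (ν - a) := by
      calc √θ ^ N ≤ √θ ^ (2 * k + 1) := pow_le_pow_right₀ hs1 hk2
        _ = √θ * x := by
          rw [pow_succ, pow_mul, pow_two, hss, hx, mul_comm]
        _ ≤ √θ * x ^ (ν - a) := by
          refine mul_le_mul_of_nonneg_left ?_ hs0.le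
          calc x = x ^ 1 := (pow_one x).symm
            _ ≤ x ^ (ν - a) := pow_le_pow_right₀ hx1 (by omega)
    have k4 : Λ ^ N / x ^ (ν - a) ≤ √θ * (Λ / √θ) ^ N := by
      rw [div_pow, div_le_iff₀ (by positivity), mul_div_assoc', div_mul_eq_mul_div,
        le_div_iff₀ (by positivity)]
      calc Λ ^ N * √θ ^ N ≤ Λ ^ N * (√θ * x ^ (ν - a)) :=
            mul_le_mul_of_nonneg_left k3 (by positivity)
        _ = √θ * Λ ^ N * x ^ (ν - a) := by ring
    rw [k2]
    calc C * ((A + A') ^ 2 * Λ ^ N / x ^ (ν - a)) =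
          C * (A + A') ^ 2 * (Λ ^ N / x ^ (ν - a)) := by ring
      _ ≤ C * (A + A') ^ 2 * (√θ * (Λ / √θ) ^ N) :=
          mul_le_mul_of_nonneg_left k4 (by positivity)
      _ = C * (A + A') ^ 2 * √θ * (Λ / √θ) ^ N := by ring
      _ ≤ (A' + C * (A + A') ^ 2 * √θ) * (Λ / √θ) ^ N := by
          refine mul_le_mul_of_nonneg_right ?_ hr.le
          linarith
  · -- the second part
    intro b hb
    rcases Nat.lt_or_ge ν b with hνb | hνb
    · exact h.bd_zero ho2 hb hνb (by positivity)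
    rcases Nat.lt_or_ge a b with hab | hab
    · refine h.bd_mono (hG' k _ ho2 b p (by omega) hνb hb) ?_
      rw [le_div_iff₀ (by positivity)]
      have k1 : x ^ b ≤ x ^ ν := pow_le_pow_right₀ hx1 hνb
      calc A' * Λ' ^ k * x ^ b ≤ A' * Λ' ^ k * x ^ ν :=
            mul_le_mul_of_nonneg_left k1 (by positivity)
        _ = A' * (x ^ ν * Λ' ^ k) := by ring
        _ ≤ A' * Λ ^ k := mul_le_mul_of_nonneg_left hxk hA'.le
        _ ≤ (A + A') * x ^ a * Λ ^ k := by
          refine mul_le_mul_of_nonneg_right ?_ (by positivity)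
          have k2 : 1 ≤ x ^ a := one_le_pow₀ hx1
          nlinarith
    · refine h.bd_mono (hG k _ ho2 b p (by omega) hνb hb) ?_
      rw [le_div_iff₀ (by positivity)]
      have k1 : x ^ b ≤ x ^ a := pow_le_pow_right₀ hx1 hab
      calc A * Λ ^ k * x ^ b ≤ A * Λ ^ k * x ^ a :=
            mul_le_mul_of_nonneg_left k1 (by positivity)
        _ ≤ (A + A') * x ^ a * Λ ^ k := by
          have k2 : 0 < x ^ a * Λ ^ k := by positivity
          nlinarith
  · -- the first part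
    intro j hj
    rcases Nat.lt_or_ge ν (a + j) with hνb | hνb
    · exact h.bd_zero ho1 (by omega) hνb (by positivity)
    rcases Nat.eq_zero_or_pos j with rfl | hj0
    · refine h.bd_mono (hG l _ ho1 (a + 0) (p - 0) (by omega) (by omega) (by omega)) ?_
      rw [pow_zero, div_one]
      have : 0 < Λ ^ l := by positivity
      nlinarith
    · refine h.bd_mono (hG' l _ ho1 (a + j) (p - j) (by omega) hνb (by omega)) ?_
      rw [le_div_iff₀ (by positivity)]
      have k1 : x ^ j ≤ x ^ ν := pow_le_pow_right₀ hx1 (by omega)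
      calc A' * Λ' ^ l * x ^ j ≤ A' * Λ' ^ l * x ^ ν :=
            mul_le_mul_of_nonneg_left k1 (by positivity)
        _ = A' * (x ^ ν * Λ' ^ l) := by ring
        _ ≤ A' * Λ ^ l := mul_le_mul_of_nonneg_left hxl hA'.le
        _ ≤ (A + A') * Λ ^ l := by
          refine mul_le_mul_of_nonneg_right ?_ (by positivity)
          linarith

/-- **The growth of all products** is at most the growth of the products with `ν` elements `M`. -/
theorem gr_all (h : Net n t W H m M D ν c ε C₁) {L L' : ℝ} (hL : 0 < L) (hlt : L < L')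
    (hG : Gr n W H m M ν ν L) : Gr n W H m M ν 0 L' := by
  classical
  by_contra hcon
  obtain ⟨Λ₀, hΛ₀, hG₀⟩ := h.gr_exists
  obtain ⟨T, hT⟩ : ∃ T : Set ℝ, T = {Λ | 0 < Λ ∧ Gr n W H m M ν 0 Λ} := ⟨_, rfl⟩
  have hTne : T.Nonempty := ⟨Λ₀, by rw [hT]; exact ⟨by linarith, hG₀⟩⟩
  have hTb : ∀ Λ ∈ T, L' ≤ Λ := by
    intro Λ hΛ
    rw [hT] at hΛ
    by_contra hlt'
    push Not at hlt'
    exact hcon (h.gr_mono hΛ.1 hlt'.le hΛ.2)
  obtain ⟨S, hS⟩ : ∃ S, S = sInf T := ⟨_, rfl⟩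
  have hSL : L' ≤ S := by rw [hS]; exact le_csInf hTne hTb
  have hS0 : 0 < S := by linarith
  have hbdd : BddBelow T := ⟨L', hTb⟩
  have hSlt : ∀ Λ, S < Λ → Gr n W H m M ν 0 Λ := by
    intro Λ hΛ
    rw [hS] at hΛ
    obtain ⟨Λ₁, h1, h2⟩ := exists_lt_of_csInf_lt hTne hΛ
    rw [hT] at h1
    exact h.gr_mono h1.1 h2.le h1.2
  have key : ∀ k ≤ ν, ∃ Λ, 0 < Λ ∧ Λ < S ∧ Gr n W H m M ν (ν - k) Λ := by
    intro k
    induction k with
    | zero => exact fun _ => ⟨L, hL, by linarith, hG⟩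
    | succ k ih =>
      intro hk
      obtain ⟨Λ', hΛ'0, hΛ'S, hΛ'⟩ := ih (by omega)
      -- the choice of `θ`
      obtain ⟨θ, hθ1, hθ2⟩ : ∃ θ : ℝ, 1 < θ ∧ θ ^ ν * Λ' ≤ S := by
        have h1 : Filter.Tendsto (fun θ : ℝ => θ ^ ν * Λ') (nhds 1) (nhds (1 ^ ν * Λ')) :=
          ((continuous_pow ν).tendsto 1).mul_const _
        rw [one_pow, one_mul] at h1
        have h2 : ∀ᶠ θ : ℝ in nhds 1, θ ^ ν * Λ' < S := h1.eventually_lt_const hΛ'S
        have h3 : ∀ᶠ θ : ℝ in nhdsWithin 1 (Set.Ioi 1), θ ^ ν * Λ' < S :=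
          h2.filter_mono nhdsWithin_le_nhds
        have h4 : ∀ᶠ θ : ℝ in nhdsWithin (1 : ℝ) (Set.Ioi 1), 1 < θ := self_mem_nhdsWithin
        obtain ⟨θ, h5, h6⟩ := (h3.and h4).exists
        exact ⟨θ, h6, h5.le⟩
      have hs1 : 1 < √θ := by
        rw [Real.lt_sqrt (by norm_num)]
        linarith
      have hs0 : 0 < √θ := by linarith
      -- the choice of `Λ`
      obtain ⟨Λ, hΛ1, hΛ2⟩ : ∃ Λ, S < Λ ∧ Λ / √θ < S := by
        refine ⟨S * ((1 + √θ) / 2), ?_, ?_⟩
        · have : 1 < (1 + √θ) / 2 := by linarith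
          nlinarith
        · rw [div_lt_iff₀ hs0]
          have : (1 + √θ) / 2 < √θ := by linarith
          exact mul_lt_mul_of_pos_left this hS0
      have e1 : ν - k = (ν - (k + 1)) + 1 := by omega
      rw [e1] at hΛ'
      have hΛ0 : 0 < Λ := by linarith
      refine ⟨Λ / √θ, by positivity, hΛ2, ?_⟩
      exact h.gr_step (by omega) hΛ'0 hθ1 (hθ2.trans hΛ1.le) hΛ' (hSlt Λ hΛ1)
  obtain ⟨Λ, hΛ0, hΛS, hΛ⟩ := key ν le_rfl
  rw [Nat.sub_self] at hΛ
  have h1 : S ≤ Λ := by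
    rw [hS]
    exact csInf_le hbdd (by rw [hT]; exact ⟨hΛ0, hΛ⟩)
  linarith

/-- the products with `ν` elements `M`: one-sided case -/
theorem gr_top (h : Net n t W H m M D ν c ε C₁) {L : ℝ} (hL : 0 < L)
    (hyp : ∀ p, p + ν ≤ n → ∃ A : ℝ, ∃ l0, ∀ l, l0 ≤ l → ∀ o ∈ W l,
      o.t (replicate p (o.e₁ H) + replicate (n - p) (o.e₀ H)) ≤ A * L ^ l) :
    Gr n W H m M ν ν L := by
  classical
  have hc := h.hc
  have hb := h.b_ge
  have hH := h.pos0
  choose A l0 hA using hyp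
  obtain ⟨B, hB⟩ : ∃ B : ℝ, B = 1 + ∑ p ∈ Finset.range (n + 1), (if hp : p + ν ≤ n then
      |A p hp| + ∑ l ∈ Finset.range (l0 p hp), b n t H C₁ ^ (l * p) * t (replicate n H) / L ^ l
      else 0) := ⟨_, rfl⟩
  have hnn : ∀ p, 0 ≤ (if hp : p + ν ≤ n then
      |A p hp| + ∑ l ∈ Finset.range (l0 p hp), b n t H C₁ ^ (l * p) * t (replicate n H) / L ^ l
      else 0) := by
    intro p
    split_ifs
    · exact add_nonneg (abs_nonneg _) (Finset.sum_nonneg fun l _ => by positivity)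
    · exact le_rfl
  have hBp : 0 < B := by
    rw [hB]
    have := Finset.sum_nonneg fun p (_ : p ∈ Finset.range (n + 1)) => hnn p
    linarith
  refine ⟨c ^ ν * B, by positivity, fun l o ho i' p h1 h2 h3 => ?_⟩
  obtain rfl : i' = ν := le_antisymm h2 h1
  have hp : p + i' ≤ n := by omega
  have h4 := Finset.single_le_sum (s := Finset.range (n + 1)) (fun p _ => hnn p) (a := p)
    (Finset.mem_range.2 (by omega))
  rw [dif_pos hp] at h4
  have h5 : |A p hp| + ∑ l ∈ Finset.range (l0 p hp),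
      b n t H C₁ ^ (l * p) * t (replicate n H) / L ^ l ≤ B := by
    rw [hB]
    linarith
  have h6 : o.t (replicate p (o.e₁ H) + replicate (n - p) (o.e₀ H)) ≤ B * L ^ l := by
    have hs : 0 ≤ ∑ l ∈ Finset.range (l0 p hp),
        b n t H C₁ ^ (l * p) * t (replicate n H) / L ^ l :=
      Finset.sum_nonneg fun l _ => by positivity
    by_cases hl : l0 p hp ≤ l
    · refine (hA p hp l hl o ho).trans (mul_le_mul_of_nonneg_right ?_ (by positivity))
      have := le_abs_self (A p hp)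
      linarith
    · refine (h.deg_H ho (by omega : p ≤ n)).trans ?_
      rw [← div_le_iff₀ (by positivity)]
      have h7 := Finset.single_le_sum (f := fun l => b n t H C₁ ^ (l * p) *
        t (replicate n H) / L ^ l) (fun l _ => by positivity) (Finset.mem_range.2
          (not_le.1 hl))
      have := abs_nonneg (A p hp)
      linarith
  refine h.bd_mono (h.bd_H ho (by omega) h6) (le_of_eq ?_)
  ring

/-- **The growth of the degrees**, one-sided case. -/
theorem growth (h : Net n t W H m M D ν c ε C₁) (h𝒜 : Nonempty 𝒜) {L L' : ℝ} (hL : 0 < L)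
    (hlt : L < L')
    (hyp : ∀ p, p + ν ≤ n → ∃ A : ℝ, ∃ l0, ∀ l, l0 ≤ l → ∀ o ∈ W l,
      o.t (replicate p (o.e₁ H) + replicate (n - p) (o.e₀ H)) ≤ A * L ^ l) :
    ∃ A : ℝ, ∀ l, ∀ o ∈ W l, ∀ p, p ≤ n →
      o.t (replicate p (o.e₁ H) + replicate (n - p) (o.e₀ H)) ≤ A * L' ^ l := by
  obtain ⟨A, hA, hG⟩ := h.gr_all hL hlt (h.gr_top hL hyp)
  refine ⟨A, fun l o ho p hp => ?_⟩
  obtain ⟨a⟩ := h𝒜
  obtain ⟨q, hq⟩ := (hG l o ho 0 p (by omega) (by omega) (by omega) a).exists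
  simpa using hq

/-- **The growth of the degrees**, two-sided case. -/
theorem growth_two (h : Net n t W H m M D ν c ε C₁) (h𝒜 : Nonempty 𝒜) {L L' : ℝ} (hL : 0 < L)
    (hlt : L < L')
    (hback : ∀ l, ∀ o ∈ W l, ∀ a, ∃ a', ∀ q, Le n o.t 1 (o.e₀ (M a q)) (o.e₁ (M a' q)))
    (hle : ∀ a, ∀ᶠ q in atTop, ∀ l, ∀ o ∈ W l, Le n o.t (c * m q) (o.e₁ (M a q)) (o.e₁ H))
    (hyp : ∀ j, j + ν ≤ n → ∃ i ≤ ν, ∃ A : ℝ, ∃ l0, ∀ l, l0 ≤ l → ∀ o ∈ W l,
      o.t (replicate (j + i) (o.e₁ H) + replicate (n - (j + i)) (o.e₀ H)) ≤ A * L ^ l) :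
    ∃ A : ℝ, ∀ l, ∀ o ∈ W l, ∀ p, p ≤ n →
      o.t (replicate p (o.e₁ H) + replicate (n - p) (o.e₀ H)) ≤ A * L' ^ l := by
  classical
  have hc := h.hc
  have hb := h.b_ge
  have hH := h.pos0
  have htop : Gr n W H m M ν ν L := by
    choose i hi A l0 hA using hyp
    obtain ⟨B, hB⟩ : ∃ B : ℝ, B = 1 + ∑ j ∈ Finset.range (n + 1), (if hj : j + ν ≤ n then
        |A j hj| + ∑ l ∈ Finset.range (l0 j hj),
          b n t H C₁ ^ (l * (j + i j hj)) * t (replicate n H) / L ^ l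
        else 0) := ⟨_, rfl⟩
    have hnn : ∀ j, 0 ≤ (if hj : j + ν ≤ n then
        |A j hj| + ∑ l ∈ Finset.range (l0 j hj),
          b n t H C₁ ^ (l * (j + i j hj)) * t (replicate n H) / L ^ l
        else 0) := by
      intro p
      split_ifs
      · exact add_nonneg (abs_nonneg _) (Finset.sum_nonneg fun l _ => by positivity)
      · exact le_rfl
    have hBp : 0 < B := by
      rw [hB]
      have := Finset.sum_nonneg fun p (_ : p ∈ Finset.range (n + 1)) => hnn p
      linarith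
    refine ⟨c ^ ν * B, by positivity, fun l o ho i' p h1 h2 h3 => ?_⟩
    obtain rfl : i' = ν := le_antisymm h2 h1
    have hp : p + i' ≤ n := by omega
    have hia := hi p hp
    have h4 := Finset.single_le_sum (s := Finset.range (n + 1)) (fun p _ => hnn p) (a := p)
      (Finset.mem_range.2 (by omega))
    rw [dif_pos hp] at h4
    have h5 : |A p hp| + ∑ l ∈ Finset.range (l0 p hp),
        b n t H C₁ ^ (l * (p + i p hp)) * t (replicate n H) / L ^ l ≤ B := by
      rw [hB]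
      linarith
    have h6 : o.t (replicate (p + i p hp) (o.e₁ H) + replicate (n - (p + i p hp)) (o.e₀ H)) ≤
        B * L ^ l := by
      have hs : 0 ≤ ∑ l ∈ Finset.range (l0 p hp),
          b n t H C₁ ^ (l * (p + i p hp)) * t (replicate n H) / L ^ l :=
        Finset.sum_nonneg fun l _ => by positivity
      by_cases hl : l0 p hp ≤ l
      · refine (hA p hp l hl o ho).trans (mul_le_mul_of_nonneg_right ?_ (by positivity))
        have := le_abs_self (A p hp)
        linarith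
      · refine (h.deg_H ho (by omega)).trans ?_
        rw [← div_le_iff₀ (by positivity)]
        have h7 := Finset.single_le_sum (f := fun l => b n t H C₁ ^ (l * (p + i p hp)) *
          t (replicate n H) / L ^ l) (fun l _ => by positivity) (Finset.mem_range.2
            (not_le.1 hl))
        have := abs_nonneg (A p hp)
        linarith
    intro a
    obtain ⟨a', ha'⟩ := hback l o ho a
    filter_upwards [h.M_le a, hle a'] with q hq hq2
    have hm := h.m_pos q
    obtain ⟨z, hz⟩ : ∃ z, z = i p hp := ⟨_, rfl⟩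
    rw [← hz] at hia h6
    have g0 : Le n o.t (c * m q) (o.e₀ (M a q)) (o.e₁ H) := by
      have := (ha' q).trans zero_le_one (hq2 l o ho)
      rwa [one_mul] at this
    have g1 := g0.rep (mul_pos hc hm).le z (replicate (i' - z) (o.e₀ (M a q)) +
      (replicate p (o.e₁ H) + replicate (n - i' - p) (o.e₀ H)))
      (by simp only [card_add, card_replicate]; omega)
    have g2 := (hq l o ho).rep (mul_pos hc hm).le (i' - z) (replicate z (o.e₁ H) +
      (replicate p (o.e₁ H) + replicate (n - i' - p) (o.e₀ H)))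
      (by simp only [card_add, card_replicate]; omega)
    have e1 : replicate z (o.e₀ (M a q)) + (replicate (i' - z) (o.e₀ (M a q)) +
        (replicate p (o.e₁ H) + replicate (n - i' - p) (o.e₀ H))) =
        replicate i' (o.e₀ (M a q)) + (replicate p (o.e₁ H) +
          replicate (n - i' - p) (o.e₀ H)) := by
      rw [← add_assoc, ← replicate_add]
      congr 2
      omega
    have e2 : replicate z (o.e₁ H) + (replicate (i' - z) (o.e₀ (M a q)) +
        (replicate p (o.e₁ H) + replicate (n - i' - p) (o.e₀ H))) =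
        replicate (i' - z) (o.e₀ (M a q)) + (replicate z (o.e₁ H) +
        (replicate p (o.e₁ H) + replicate (n - i' - p) (o.e₀ H))) := by
      rw [add_left_comm]
    have e3 : replicate (i' - z) (o.e₀ H) + (replicate z (o.e₁ H) +
        (replicate p (o.e₁ H) + replicate (n - i' - p) (o.e₀ H))) =
        replicate (p + z) (o.e₁ H) + replicate (n - (p + z)) (o.e₀ H) := by
      have e4 : n - (p + z) = (i' - z) + (n - i' - p) := by omega
      rw [e4, replicate_add, replicate_add]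
      abel
    rw [e1, e2] at g1
    rw [e3] at g2
    calc _ ≤ (c * m q) ^ z * _ := g1
      _ ≤ (c * m q) ^ z * ((c * m q) ^ (i' - z) * o.t (replicate (p + z) (o.e₁ H) +
          replicate (n - (p + z)) (o.e₀ H))) :=
        mul_le_mul_of_nonneg_left g2 (by positivity)
      _ ≤ (c * m q) ^ z * ((c * m q) ^ (i' - z) * (B * L ^ l)) := by gcongr
      _ = c ^ i' * B * L ^ l * m q ^ i' := by
        rw [← mul_assoc, ← pow_add, show z + (i' - z) = i' by omega, mul_pow]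
        ring
  obtain ⟨A, hA, hG⟩ := h.gr_all hL hlt htop
  refine ⟨A, fun l o ho p hp => ?_⟩
  obtain ⟨a⟩ := h𝒜
  obtain ⟨q, hq⟩ := (hG l o ho 0 p (by omega) (by omega) (by omega) a).exists
  simpa using hq

end Net

end Pool.Agent.Helper45M.CR
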