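import Pool.Agent.Helper45M.CR.Assem
import Pool.Agent.N110.QPlateau
import Pool.Agent.N110.CanS
import Pool.Agent.R887.DefsCor

/-!
**The theorems on the greatest joint dynamical degree** of a set of self-correspondences.
-/

set_option autoImplicit false
set_option linter.overlappingInstances false
set_option linter.unusedSectionVars false

open FF Module MvPolynomial Pool.Agent.W602.GT Pool.Agent.W603.LV
open Pool.Agent.Y172 Pool.Agent.Y191 Pool.Agent.R887 Pool.Agent.N110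
open scoped ENNReal Topology

namespace Pool.Agent.Helper45M.CR

section

variable {K : Type} [Field K] [Algebra ℂ K] {N n : ℕ} {y : Fin (N + 1) → K}

/-- the greatest of the degrees of the compositions of `l` correspondences -/
noncomputable def chainDeg (S : Set (Cor K)) (y : Fin (N + 1) → K) (n p l : ℕ) : ℝ≥0∞ :=
  ⨆ (M : Type) (_ : Field M) (_ : Algebra ℂ M) (g : ℕ → (K →ₐ[ℂ] M)) (_ : IsChain S l g),
    corDegree (g 0) (g l) y n p

theorem corJoint_eq (S : Set (Cor K)) (y : Fin (N + 1) → K) (n p : ℕ) :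
    corJointDegree S y n p =
      Filter.limsup (fun l : ℕ => chainDeg S y n p l ^ (1 / (l : ℝ))) Filter.atTop := rfl

theorem le_chainDeg {S : Set (Cor K)} {p l : ℕ} {M : Type} [hF : Field M]
    [hA : Algebra ℂ M] {g : ℕ → (K →ₐ[ℂ] M)} (hg : IsChain S l g) :
    corDegree (g 0) (g l) y n p ≤ chainDeg S y n p l :=
  le_iSup_of_le M (le_iSup_of_le hF (le_iSup_of_le hA (le_iSup_of_le g (le_iSup_of_le hg le_rfl))))

/-- the bound for the joint degree -/
theorem joint_le (hy : NormalModel y) (hn : Algebra.trdeg ℂ K = n) {i : Fin (N + 1)}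
    (hi : y i ≠ 0) {S : Set (Cor K)} {A L : ℝ} (hA : 0 ≤ A) (hL : 0 < L)
    (h : ∀ l, ∀ o ∈ CWrd hy hn hi S l, ∀ p, p ≤ n →
      o.t (Multiset.replicate p (o.e₁ (hcls hy hi)) +
        Multiset.replicate (n - p) (o.e₀ (hcls hy hi))) ≤ A * L ^ l) {p : ℕ} (hp : p ≤ n) :
    corJointDegree S y n p ≤ ENNReal.ofReal L := by
  rw [corJoint_eq]
  refine limsup_of_bd (A := A) hL fun l => ?_
  unfold chainDeg
  refine iSup_le fun M => iSup_le fun _ => iSup_le fun _ => iSup_le fun g => iSup_le fun hg => ?_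
  have hS := amb_image hy hn hi hg.1
  rw [corDegree_le_real hy hn hi hS (g 0) (g l) hp (by positivity)]
  exact h l ⟨Cls ℂ (g 0 '' affS y i), tM (g 0 '' affS y i) (mapDegree (g 0)),
    fCls hy hn hi hS (g 0), fCls hy hn hi hS (g l)⟩ ⟨M, _, _, _, hS, g, hg, rfl⟩ p hp

/-- the bound given by the joint degree -/
theorem of_joint_lt (hy : NormalModel y) (hn : Algebra.trdeg ℂ K = n) {i : Fin (N + 1)}
    (hi : y i ≠ 0) {S : Set (Cor K)} {L : ℝ} (hL : 0 < L) {p : ℕ} (hp : p ≤ n)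
    (h : corJointDegree S y n p < ENNReal.ofReal L) :
    ∃ A : ℝ, ∃ l0, ∀ l, l0 ≤ l → ∀ o ∈ CWrd hy hn hi S l,
      o.t (Multiset.replicate p (o.e₁ (hcls hy hi)) +
        Multiset.replicate (n - p) (o.e₀ (hcls hy hi))) ≤ A * L ^ l := by
  rw [corJoint_eq] at h
  obtain ⟨l0, hl0⟩ := ev_of_limsup hL h
  refine ⟨1, l0, fun l hl => ?_⟩
  rintro _ ⟨M, _, _, SM, hS, g, hg, rfl⟩
  have h1 := (le_chainDeg (y := y) (n := n) (p := p) hg).trans (hl0 l hl)
  rw [corDegree_le_real hy hn hi hS (g 0) (g l) hp (by positivity)] at h1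
  rw [one_mul]
  exact h1

/-- **The greatest degree**, for the largest `ν`. -/
theorem cpeak_aux (hy : NormalModel y) (hn : Algebra.trdeg ℂ K = n) {Δ : Place ℂ K → ℚ}
    (hΔ : {P | IsPrimeDivisor y P ∧ Δ P ≠ 0}.Finite)
    {S : Set (Cor K)} (h1 : ∀ T ∈ S, CorLe T.p T.f y n Δ)
    {C₁ : ℕ} (hC₁ : ∀ T ∈ S, corDegree T.p T.f y n 1 ≤ C₁) {ν : ℕ} (hν : ν ≤ n)
    (hnum : ¬ NumDimLt y n Δ ν) (hnum' : ν + 1 ≤ n → NumDimLt y n Δ (ν + 1)) :
    (∃ j, j + ν ≤ n ∧ ∀ p ≤ n, corJointDegree S y n p ≤ corJointDegree S y n j) ∧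
    ((∀ T ∈ S, CorLe T.f T.p y n Δ) →
      ∃ j, j + ν ≤ n ∧ ∀ a ≤ ν, ∀ p ≤ n, corJointDegree S y n p ≤ corJointDegree S y n (j + a)) := by
  classical
  rcases Nat.eq_zero_or_pos n with rfl | hn0
  · refine ⟨⟨0, by omega, fun p hp => ?_⟩, fun _ => ⟨0, by omega, fun a ha p hp => ?_⟩⟩
    · obtain rfl : p = 0 := by omega
      exact le_rfl
    · obtain rfl : a = 0 := by omega
      obtain rfl : p = 0 := by omega
      exact le_rfl
  obtain ⟨i, hi⟩ := hy.ne
  have hC₁' : ∀ T ∈ S, corDegree T.p T.f y n 1 ≤ ENNReal.ofReal ((C₁ : ℝ) + 1) := by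
    intro T hT
    refine (hC₁ T hT).trans ?_
    rw [← ENNReal.ofReal_natCast]
    exact ENNReal.ofReal_le_ofReal (by linarith)
  obtain ⟨m, M, D, c, ε, hnet, hback, hle⟩ := exists_net hy hn hn0 hi hΔ h1
    (C₁ := (C₁ : ℝ) + 1) (by positivity) hC₁' hν hnum hnum'
  obtain ⟨Hy, hHy, -⟩ := exists_hyp hy hi
  have hne : Nonempty {A : Place ℂ K → ℚ // Effective y A} := ⟨⟨Hy, hHy⟩⟩
  obtain ⟨p0, hp0, hmax⟩ := Finset.exists_max_image (Finset.range (n + 1))
    (fun p => corJointDegree S y n p) ⟨0, by simp⟩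
  rw [Finset.mem_range] at hp0
  -- a number between
  have hbtw : ∀ a : ℕ → ℕ, (∀ j, j + ν ≤ n →
      corJointDegree S y n (j + a j) < corJointDegree S y n p0) →
      ∃ L L' : ℝ, 0 < L ∧ L < L' ∧ (∀ j, j + ν ≤ n →
        corJointDegree S y n (j + a j) < ENNReal.ofReal L) ∧
        ENNReal.ofReal L' < corJointDegree S y n p0 := by
    intro a halt
    obtain ⟨B, hB⟩ : ∃ B : ℝ≥0∞, B = (Finset.range (n + 1)).sup fun j =>
        if j + ν ≤ n then corJointDegree S y n (j + a j) else 0 := ⟨_, rfl⟩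
    have hBlt : B < corJointDegree S y n p0 := by
      rw [hB, Finset.sup_lt_iff]
      · intro j _
        split_ifs with hj
        · exact halt j hj
        · exact zero_le.trans_lt (halt 0 (by omega))
      · exact zero_le.trans_lt (halt 0 (by omega))
    obtain ⟨L, hL1, hL2⟩ := ENNReal.lt_iff_exists_nnreal_btwn.1 hBlt
    obtain ⟨L', hL3, hL4⟩ := ENNReal.lt_iff_exists_nnreal_btwn.1 hL2
    have hL0 : (0 : ℝ) < L := by
      have : (0 : ℝ≥0∞) < L := zero_le.trans_lt hL1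
      exact_mod_cast this
    refine ⟨L, L', hL0, by exact_mod_cast hL3, fun j hj => ?_, ?_⟩
    · rw [ENNReal.ofReal_coe_nnreal]
      refine lt_of_le_of_lt ?_ hL1
      rw [hB]
      have h4 := Finset.le_sup (s := Finset.range (n + 1))
        (f := fun j => if j + ν ≤ n then corJointDegree S y n (j + a j) else 0)
        (Finset.mem_range.2 (by omega : j < n + 1))
      simp only [if_pos hj] at h4
      exact h4
    · rwa [ENNReal.ofReal_coe_nnreal]
  constructor
  · by_contra hcon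
    push Not at hcon
    have hcon' : ∀ j, j + ν ≤ n →
        corJointDegree S y n (j + (fun _ => 0 : ℕ → ℕ) j) < corJointDegree S y n p0 := by
      intro j hj
      obtain ⟨p, hp, hlt⟩ := hcon j hj
      exact hlt.trans_le (hmax p (Finset.mem_range.2 (by omega)))
    obtain ⟨L, L', hL0, hLL, h3, h4⟩ := hbtw _ hcon'
    obtain ⟨A, hA⟩ := hnet.growth hne hL0 hLL fun p hp =>
      of_joint_lt hy hn hi hL0 (by omega) (h3 p hp)
    refine absurd h4 (not_lt.2 ?_)
    refine joint_le hy hn hi (A := max A 0) (le_max_right _ _) (hL0.trans hLL)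
      (fun l o ho p hp => (hA l o ho p hp).trans ?_) (by omega : p0 ≤ n)
    exact mul_le_mul_of_nonneg_right (le_max_left _ _) (pow_nonneg (hL0.trans hLL).le _)
  · intro h2
    by_contra hcon
    push Not at hcon
    have hcon' : ∀ j, ∃ a, j + ν ≤ n → a ≤ ν ∧
        corJointDegree S y n (j + a) < corJointDegree S y n p0 := by
      intro j
      by_cases hj : j + ν ≤ n
      · obtain ⟨a, ha, p, hp, hlt⟩ := hcon j hj
        exact ⟨a, fun _ => ⟨ha, hlt.trans_le (hmax p (Finset.mem_range.2 (by omega)))⟩⟩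
      · exact ⟨0, fun h => absurd h hj⟩
    choose a ha using hcon'
    obtain ⟨L, L', hL0, hLL, h3, h4⟩ := hbtw a fun j hj => (ha j hj).2
    obtain ⟨A, hA⟩ := hnet.growth_two hne hL0 hLL (hback h2) hle fun j hj => by
      have h5 := (ha j hj).1
      obtain ⟨A, l0, h6⟩ := of_joint_lt hy hn hi hL0 (by omega) (h3 j hj)
      exact ⟨a j, h5, A, l0, h6⟩
    refine absurd h4 (not_lt.2 ?_)
    refine joint_le hy hn hi (A := max A 0) (le_max_right _ _) (hL0.trans hLL)
      (fun l o ho p hp => (hA l o ho p hp).trans ?_) (by omega : p0 ≤ n)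
    exact mul_le_mul_of_nonneg_right (le_max_left _ _) (pow_nonneg (hL0.trans hLL).le _)

/-- **The greatest degree.** -/
theorem cpeak (hy : NormalModel y) (hn : Algebra.trdeg ℂ K = n) {Δ : Place ℂ K → ℚ}
    (hΔ : {P | IsPrimeDivisor y P ∧ Δ P ≠ 0}.Finite)
    {S : Set (Cor K)} (h1 : ∀ T ∈ S, CorLe T.p T.f y n Δ)
    {C₁ : ℕ} (hC₁ : ∀ T ∈ S, corDegree T.p T.f y n 1 ≤ C₁) {ν : ℕ} (hν : ν ≤ n)
    (hnum : ¬ NumDimLt y n Δ ν) :
    (∃ j, j + ν ≤ n ∧ ∀ p ≤ n, corJointDegree S y n p ≤ corJointDegree S y n j) ∧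
    ((∀ T ∈ S, CorLe T.f T.p y n Δ) →
      ∃ j, j + ν ≤ n ∧ ∀ a ≤ ν, ∀ p ≤ n, corJointDegree S y n p ≤ corJointDegree S y n (j + a)) := by
  classical
  obtain ⟨ν', hν'⟩ : ∃ ν', ν' = Nat.findGreatest (fun k => ¬ NumDimLt y n Δ k) n := ⟨_, rfl⟩
  have e1 : ν ≤ ν' := by rw [hν']; exact Nat.le_findGreatest hν hnum
  have e2 : ν' ≤ n := by rw [hν']; exact Nat.findGreatest_le n
  have e3 : ¬ NumDimLt y n Δ ν' := by
    rw [hν']
    exact Nat.findGreatest_spec (P := fun k => ¬ NumDimLt y n Δ k) hν hnum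
  have e4 : ν' + 1 ≤ n → NumDimLt y n Δ (ν' + 1) := by
    intro h
    have := Nat.findGreatest_is_greatest (P := fun k => ¬ NumDimLt y n Δ k) (n := n)
      (k := ν' + 1) (by rw [← hν']; omega) h
    exact not_not.1 this
  obtain ⟨⟨j, hj, h⟩, h'⟩ := cpeak_aux hy hn hΔ h1 hC₁ e2 e3 e4
  refine ⟨⟨j, by omega, h⟩, fun h2 => ?_⟩
  obtain ⟨j, hj, h⟩ := h' h2
  exact ⟨j, by omega, fun a ha p hp => h a (by omega) p hp⟩

/-- correspondences of varieties with canonical singularities -/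
theorem corLe_canonical {L : Type} [Field L] [Algebra ℂ L] (hy : NormalModel y)
    (hn : Algebra.trdeg ℂ K = n) (hcan : Canonical y n) {p f : K →ₐ[ℂ] L}
    (hfin : FiniteDimensional p.fieldRange L) (hp : UnramifiedOutside p y ∅) :
    CorLe p f y n 0 := by
  intro P' hP' Q e' hQ P e hP
  have he' : e' = 1 := hp P' hP' (Set.notMem_empty _) Q e' hQ
  have hess' := ess_of_fd hy.ess hfin
  have hn' := trdeg_of_fd hn hfin
  have hQd : Divisorial n Q := by
    let _ : Algebra K L := p.toRingHom.toAlgebra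
    have hst : IsScalarTower ℂ K L :=
      IsScalarTower.of_algebraMap_eq fun c => (p.commutes c).symm
    have hfd : FiniteDimensional K L := finite_map hn hn'
    exact divisorial_up (P := P') (e := e') hQ (hP'.divisorial hy hn)
  have hPd : Divisorial n P := div_down hess' hn hn' f hP hQd
  obtain ⟨r, hr, η, hη, h1, h2⟩ := hcan P hPd
  refine ⟨1, Or.inr ⟨r, hr, η, hη, fun P'' hP'' hT => ?_, ?_⟩, ?_⟩
  · rw [Pi.zero_apply, mul_zero, neg_zero]
    exact h1 P'' hP'' hT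
  · rw [sub_self, mul_zero]
    exact h2
  · have h3 : (1 : ℚ) ≤ e := by exact_mod_cast hP.1
    rw [he', Pi.zero_apply, sub_zero, Nat.cast_one, one_mul, mul_one]
    exact h3

end

end Pool.Agent.Helper45M.CR
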